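import Pool.Agent.H18.QR.Mean

/-!
# QR-16: the unitary action of `Q^n` on bounded functions

`H` is (a type synonym of) `BF n` with the semi-inner product `m (f * g)` of `exists_mean`
(`PreInnerProductSpace.Core`, `InnerProductSpace.ofCore`); `T v = BF.shift v`.
-/

namespace Pool.Agent.H18.QR

open Finset

/-- Translation as a linear map on bounded functions. -/
def shiftL {n : ℕ} (v : Fin n → ℚ) : BF n →ₗ[ℝ] BF n where
  toFun := BF.shift v
  map_add' := fun _ _ => rfl
  map_smul' := fun _ _ => rfl

theorem shift_zero {n : ℕ} (f : BF n) : BF.shift 0 f = f := by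
  apply Subtype.ext
  funext x
  simp [BF.shift]

theorem shift_add {n : ℕ} (u v : Fin n → ℚ) (f : BF n) :
    BF.shift (u + v) f = BF.shift u (BF.shift v f) := by
  apply Subtype.ext
  funext x
  simp [BF.shift, add_assoc]

theorem shift_mul {n : ℕ} (v : Fin n → ℚ) (f g : BF n) :
    BF.shift v (f * g) = BF.shift v f * BF.shift v g := rfl

theorem exists_act (n : ℕ) : ∃ (H : Type) (_ : SeminormedAddCommGroup H)
    (_ : InnerProductSpace ℝ H) (A : Act n H) (ι : BF n →ₗ[ℝ] H) (m : BF n →ₗ[ℝ] ℝ),
    (∀ f : BF n, (∀ x, 0 ≤ f.1 x) → 0 ≤ m f) ∧ m 1 = 1 ∧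
    (∀ f g : BF n, inner ℝ (ι f) (ι g) = m (f * g)) ∧
    (∀ (v : Fin n → ℚ) (f : BF n), A.T v (ι f) = ι (BF.shift v f)) := by
  obtain ⟨m, hm0, hm1, hmv, hmh⟩ := exists_mean n
  let cd : PreInnerProductSpace.Core ℝ (BF n) :=
    { inner := fun f g => m (f * g)
      conj_inner_symm := fun x y => by
        change m (y * x) = m (x * y)
        rw [mul_comm]
      re_inner_nonneg := fun x => by
        change 0 ≤ m (x * x)
        exact hm0 _ (fun y => mul_self_nonneg _)
      add_left := fun x y z => by
        change m ((x + y) * z) = m (x * z) + m (y * z)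
        rw [add_mul, map_add]
      smul_left := fun x y r => by
        change m ((r • x) * y) = r * m (x * y)
        rw [smul_mul_assoc, map_smul, smul_eq_mul] }
  letI i1 : SeminormedAddCommGroup (BF n) :=
    @InnerProductSpace.Core.toSeminormedAddCommGroup ℝ (BF n) _ _ _ cd
  letI i2 : InnerProductSpace ℝ (BF n) := InnerProductSpace.ofCore cd
  have hin : ∀ f g : BF n, inner ℝ f g = m (f * g) := fun f g => rfl
  have hnorm : ∀ f : BF n, ‖f‖ ^ 2 = m (f * f) := fun f => by
    rw [← real_inner_self_eq_norm_sq, hin]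
  let A : Act n (BF n) :=
    { T := shiftL
      zero := shift_zero
      add := shift_add
      norm := fun v f => by
        have h1 : ‖shiftL v f‖ ^ 2 = ‖f‖ ^ 2 := by
          rw [hnorm, hnorm]
          exact hmv v (f * f)
        exact (pow_left_inj₀ (norm_nonneg _) (norm_nonneg _) two_ne_zero).1 h1
      herg := fun M hM S c ε h f => by
        rw [hnorm]
        exact hmh M hM S c ε h f }
  exact ⟨BF n, i1, i2, A, LinearMap.id, m, hm0, hm1, hin, fun v f => rfl⟩

end Pool.Agent.H18.QR
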