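import Pool.Agent.H18.QR.Defs

/-!
# QR-06: covering the unit interval by Farey arcs

For `α` in `[0,1]` Dirichlet's theorem (`Real.exists_rat_abs_sub_le_and_den_le`) gives a reduced
fraction `r/q` with `1 ≤ q ≤ M` and `|α - r/q| ≤ 1/((M+1) q) ≤ 1/(q M)`; then `0 ≤ r ≤ q` because
`|q α - r| < 1`. Hence `g α ≤ sum_{q=1}^M sum_{r=0}^q G q (α - r/q)` (all terms are nonnegative, one of
them is at least `g α` by `h`). Integrate over `[0,1]`, enlarge the domain of integration of each
(nonnegative, integrable) term to the whole line and use translation invariance.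
-/

namespace Pool.Agent.H18.QR

open Finset MeasureTheory

theorem arcs {M : ℕ} (hM : 0 < M) (g : ℝ → ℝ) (hg : Continuous g) (hg0 : ∀ α, 0 ≤ g α)
    (G : ℕ → ℝ → ℝ) (hG : ∀ q, Integrable (G q)) (hG0 : ∀ q β, 0 ≤ G q β)
    (h : ∀ (q : ℕ) (r : ℤ) (β : ℝ), 0 < q → q ≤ M → IsCoprime r (q : ℤ) →
      |β| ≤ 1 / ((q : ℝ) * M) → g ((r : ℝ) / q + β) ≤ G q β) :
    ∫ α in (0 : ℝ)..1, g α ≤ ∑ q ∈ Icc 1 M, ((q : ℝ) + 1) * ∫ β, G q β := by
  set F : ℝ → ℝ := fun α => ∑ q ∈ Icc 1 M, ∑ r ∈ range (q + 1), G q (α - (r : ℝ) / q) with hF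
  have hFi : Integrable F := by
    refine integrable_finset_sum _ fun q _ => integrable_finset_sum _ fun r _ => ?_
    exact (hG q).comp_sub_right _
  have hF0 : ∀ α, 0 ≤ F α := fun α =>
    Finset.sum_nonneg fun q _ => Finset.sum_nonneg fun r _ => hG0 q _
  have hMr : (0 : ℝ) < M := by exact_mod_cast hM
  have hle : ∀ α ∈ Set.Icc (0 : ℝ) 1, g α ≤ F α := by
    intro α hα
    obtain ⟨x, hx1, hx2⟩ := Real.exists_rat_abs_sub_le_and_den_le α hM
    have hd0 : 0 < x.den := x.den_pos
    have hdr : (0 : ℝ) < x.den := by exact_mod_cast hd0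
    have hd1 : (1 : ℝ) ≤ x.den := by exact_mod_cast hd0
    have hxr : (x : ℝ) = (x.num : ℝ) / x.den := by exact_mod_cast (Rat.num_div_den x).symm
    have hβ : |α - (x.num : ℝ) / x.den| ≤ 1 / ((x.den : ℝ) * M) := by
      rw [← hxr]
      refine hx1.trans ?_
      refine one_div_le_one_div_of_le (by positivity) ?_
      nlinarith
    have hβ1 : |α - (x.num : ℝ) / x.den| * x.den < 1 := by
      rw [← hxr]
      have h1 : |α - (x : ℝ)| * x.den ≤ 1 / (((M : ℝ) + 1) * x.den) * x.den :=
        mul_le_mul_of_nonneg_right hx1 hdr.le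
      have h2 : 1 / (((M : ℝ) + 1) * x.den) * x.den = 1 / ((M : ℝ) + 1) := by
        field_simp
      rw [h2] at h1
      refine h1.trans_lt ?_
      rw [div_lt_one (by positivity)]
      linarith
    have hab : |α * x.den - x.num| < 1 := by
      have h3 : α * x.den - x.num = (α - (x.num : ℝ) / x.den) * x.den := by
        field_simp
      rw [h3, abs_mul, abs_of_pos hdr]
      exact hβ1
    obtain ⟨hlo, hhi⟩ := abs_lt.1 hab
    have hn0 : 0 ≤ x.num := by
      have h1 : (-1 : ℝ) < x.num := by
        have : 0 ≤ α * x.den := mul_nonneg hα.1 hdr.le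
        linarith
      have h2 : (-1 : ℤ) < x.num := by exact_mod_cast h1
      omega
    have hn1 : x.num ≤ x.den := by
      have h1 : (x.num : ℝ) < x.den + 1 := by
        have : α * x.den ≤ x.den := by
          have := mul_le_mul_of_nonneg_right hα.2 hdr.le
          linarith
        linarith
      have h2 : x.num < (x.den : ℤ) + 1 := by exact_mod_cast h1
      omega
    have hcop : IsCoprime x.num (x.den : ℤ) := by
      rw [Int.isCoprime_iff_gcd_eq_one]
      have := x.reduced
      simpa [Int.gcd, Nat.Coprime] using this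
    have hkey := h x.den x.num (α - (x.num : ℝ) / x.den) hd0 hx2 hcop hβ
    rw [add_sub_cancel] at hkey
    refine hkey.trans ?_
    have hnat : ((x.num.toNat : ℕ) : ℝ) = (x.num : ℝ) := by
      have : ((x.num.toNat : ℕ) : ℤ) = x.num := Int.toNat_of_nonneg hn0
      exact_mod_cast this
    have hmem : x.num.toNat ∈ range (x.den + 1) := by
      rw [mem_range]
      omega
    calc G x.den (α - (x.num : ℝ) / x.den)
        = G x.den (α - ((x.num.toNat : ℕ) : ℝ) / x.den) := by rw [hnat]
      _ ≤ ∑ r ∈ range (x.den + 1), G x.den (α - (r : ℝ) / x.den) :=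
          Finset.single_le_sum (f := fun r : ℕ => G x.den (α - (r : ℝ) / x.den))
            (fun r _ => hG0 _ _) hmem
      _ ≤ F α := by
          rw [hF]
          exact Finset.single_le_sum
            (f := fun q : ℕ => ∑ r ∈ range (q + 1), G q (α - (r : ℝ) / q))
            (fun q _ => Finset.sum_nonneg fun r _ => hG0 _ _) (mem_Icc.2 ⟨hd0, hx2⟩)
  calc ∫ α in (0 : ℝ)..1, g α ≤ ∫ α in (0 : ℝ)..1, F α :=
        intervalIntegral.integral_mono_on zero_le_one (hg.intervalIntegrable _ _)
          hFi.intervalIntegrable hle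
    _ = ∫ α in Set.Ioc (0 : ℝ) 1, F α := intervalIntegral.integral_of_le zero_le_one
    _ ≤ ∫ α, F α := setIntegral_le_integral hFi (Filter.Eventually.of_forall hF0)
    _ = ∑ q ∈ Icc 1 M, ((q : ℝ) + 1) * ∫ β, G q β := by
        rw [hF, integral_finset_sum]
        · refine Finset.sum_congr rfl fun q _ => ?_
          rw [integral_finset_sum]
          · have : ∀ r ∈ range (q + 1), ∫ α, G q (α - (r : ℝ) / q) = ∫ β, G q β :=
              fun r _ => integral_sub_right_eq_self (G q) ((r : ℝ) / q)
            rw [Finset.sum_congr rfl this, Finset.sum_const, card_range, nsmul_eq_mul]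
            push_cast
            ring
          · intro r _
            exact (hG q).comp_sub_right _
        · intro q _
          exact integrable_finset_sum _ fun r _ => (hG q).comp_sub_right _

end Pool.Agent.H18.QR
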