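import Pool.Agent.H18.QR.ThC

/-!
# QR-05: the integral formula of the circle method

`prod_i th M α (θ i) = sum over a in Z^n of exp(-π |a|^2/M^2) e(|a|^2 α + a.θ)` (product of `n`
absolutely convergent sums; induction on `n`, or `tsum` over `Fin n → ℤ` with
`Fin.consEquiv` / `Equiv.piFinSucc` and `Summable.tsum_mul_tsum_of_summable_norm`), absolutely
convergent with bound `exp(-π |a|^2/M^2)` independent of `α`. Multiply by `e(-N α)` and integrate
over `[0,1]` term by term (`intervalIntegral.hasSum_integral_of_dominated_convergence` or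
`MeasureTheory.hasSum_integral_of_summable_integral_norm`):
`∫_0^1 e((|a|^2 - N) α) dα = 1` if `|a|^2 = N` and `0` otherwise. The terms with `|a|^2 = N` are
exactly those of `sph n N` (if `|a|^2 = N` then `|a_i| ≤ N`, because `|a_i| ≤ a_i^2`), with
factor `exp(-π N/M^2)`.
-/

namespace Pool.Agent.H18.QR

open Finset


/-- product of finitely many absolutely convergent sums -/
lemma circI_prod (n : ℕ) (u : Fin n → ℤ → ℂ) (hu : ∀ i, Summable fun b => ‖u i b‖) :
    (Summable fun a : Fin n → ℤ => ‖∏ i, u i (a i)‖) ∧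
      ∑' a : Fin n → ℤ, ∏ i, u i (a i) = ∏ i, ∑' b, u i b := by
  induction n with
  | zero =>
    refine ⟨Summable.of_finite, ?_⟩
    rw [tsum_fintype]
    simp
  | succ n ih =>
    obtain ⟨h1, h2⟩ := ih (fun i => u i.succ) (fun i => hu i.succ)
    let E : ℤ × (Fin n → ℤ) ≃ (Fin (n + 1) → ℤ) := Fin.consEquiv (fun _ => ℤ)
    have e1 : ∀ z : ℤ × (Fin n → ℤ), (∏ i, u i (E z i)) =
        u 0 z.1 * ∏ i : Fin n, u i.succ (z.2 i) := by
      intro z
      rw [Fin.prod_univ_succ]
      rfl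
    have h3 : Summable fun z : ℤ × (Fin n → ℤ) => ‖u 0 z.1 * ∏ i : Fin n, u i.succ (z.2 i)‖ :=
      Summable.mul_norm (R := ℂ) (f := u 0) (g := fun y : Fin n → ℤ => ∏ i : Fin n, u i.succ (y i))
        (hu 0) h1
    have e2 : (fun a : Fin (n + 1) → ℤ => ‖∏ i, u i (a i)‖) ∘ E =
        fun z : ℤ × (Fin n → ℤ) => ‖u 0 z.1 * ∏ i : Fin n, u i.succ (z.2 i)‖ :=
      funext fun z => congrArg norm (e1 z)
    have e3 : ∑' a : Fin (n + 1) → ℤ, ∏ i, u i (a i) =
        ∑' z : ℤ × (Fin n → ℤ), u 0 z.1 * ∏ i : Fin n, u i.succ (z.2 i) := by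
      rw [← E.tsum_eq (fun a : Fin (n + 1) → ℤ => ∏ i, u i (a i))]
      exact tsum_congr e1
    refine ⟨?_, ?_⟩
    · have h4 : Summable ((fun a : Fin (n + 1) → ℤ => ‖∏ i, u i (a i)‖) ∘ E) := by
        rw [e2]
        exact h3
      exact (Equiv.summable_iff E).1 h4
    · rw [e3, Fin.prod_univ_succ, ← h2]
      exact (tsum_mul_tsum_of_summable_norm (R := ℂ) (f := u 0)
        (g := fun y : Fin n → ℤ => ∏ i : Fin n, u i.succ (y i)) (hu 0) h1).symm

lemma circI_e_add (x y : ℝ) : e (x + y) = e x * e y := by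
  unfold e
  rw [← Complex.exp_add]
  congr 1
  push_cast
  ring

lemma circI_norm_e (x : ℝ) : ‖e x‖ = 1 := by
  unfold e
  rw [show (2 : ℂ) * Real.pi * Complex.I * x = ((2 * Real.pi * x : ℝ) : ℂ) * Complex.I by
    push_cast; ring]
  exact Complex.norm_exp_ofReal_mul_I _

lemma circI_int (k : ℤ) : ∫ α in (0 : ℝ)..1, e (k * α) = if k = 0 then 1 else 0 := by
  by_cases hk : k = 0
  · subst hk
    simp [e]
  · rw [if_neg hk]
    have hc : (2 * Real.pi * Complex.I * k : ℂ) ≠ 0 := by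
      have h1 : (Real.pi : ℂ) ≠ 0 := by exact_mod_cast Real.pi_ne_zero
      have h2 : (k : ℂ) ≠ 0 := by exact_mod_cast hk
      simp [h1, h2, Complex.I_ne_zero]
    have h1 : ∀ α : ℝ, e (k * α) = Complex.exp ((2 * Real.pi * Complex.I * k) * α) := by
      intro α
      unfold e
      congr 1
      push_cast
      ring
    simp only [h1]
    rw [integral_exp_mul_complex hc]
    have h2 : Complex.exp (2 * Real.pi * Complex.I * k * ((1 : ℝ) : ℂ)) = 1 := by
      rw [show (2 * Real.pi * Complex.I * k * ((1 : ℝ) : ℂ) : ℂ) = k * (2 * Real.pi * Complex.I) by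
        push_cast; ring]
      exact Complex.exp_int_mul_two_pi_mul_I k
    rw [h2]
    simp

lemma circI_term {n M : ℕ} (N : ℕ) (θ : Fin n → ℝ) (a : Fin n → ℤ) (α : ℝ) :
    (∏ i, Complex.exp (-(Real.pi : ℂ) * (a i : ℂ) ^ 2 / (M : ℂ) ^ 2 +
      2 * Real.pi * Complex.I * (α * (a i : ℂ) ^ 2 + θ i * a i))) * e (-(N * α)) =
      (Real.exp (-Real.pi * (nsq a : ℝ) / (M : ℝ) ^ 2) : ℂ) * e (dotR a θ) *
        e (((nsq a - N : ℤ) : ℝ) * α) := by
  rw [← Complex.exp_sum]
  unfold e dotR nsq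
  rw [Complex.ofReal_exp, ← Complex.exp_add, ← Complex.exp_add, ← Complex.exp_add]
  congr 1
  push_cast
  rw [Finset.sum_add_distrib, ← Finset.mul_sum, Finset.sum_add_distrib, ← Finset.mul_sum,
    ← Finset.sum_div, ← Finset.mul_sum]
  have h1 : ∑ i, (θ i : ℂ) * (a i : ℂ) = ∑ i, (a i : ℂ) * (θ i : ℂ) :=
    Finset.sum_congr rfl fun i _ => mul_comm _ _
  rw [h1]
  ring

lemma circI_mem_sph {n N : ℕ} {a : Fin n → ℤ} (h : nsq a = N) : a ∈ sph n N := by
  unfold sph box
  rw [Finset.mem_filter, Fintype.mem_piFinset]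
  refine ⟨fun i => ?_, h⟩
  have h1 : (a i) ^ 2 ≤ N := by
    rw [← h]
    unfold nsq
    exact Finset.single_le_sum (f := fun i => a i ^ 2) (fun j _ => sq_nonneg (a j))
      (Finset.mem_univ i)
  have h2 : |a i| ≤ (a i) ^ 2 := by
    have h3 : |a i| ≤ |a i| ^ 2 := by
      rcases (abs_nonneg (a i)).eq_or_lt with h4 | h4
      · rw [← h4]; norm_num
      · nlinarith
    rwa [sq_abs] at h3
  rw [Finset.mem_Icc]
  exact abs_le.1 (h2.trans h1)

theorem integral_formula {n M : ℕ} (hM : 0 < M) (N : ℕ) (θ : Fin n → ℝ) :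
    (Real.exp (-Real.pi * N / (M : ℝ) ^ 2) : ℂ) * TN N θ =
      ∫ α in (0 : ℝ)..1, (∏ i, th M α (θ i)) * e (-(N * α)) := by
  set G : (Fin n → ℤ) → ℝ := fun a => Real.exp (-Real.pi * (nsq a : ℝ) / (M : ℝ) ^ 2) with hG
  set Fa : (Fin n → ℤ) → ℝ → ℂ := fun a α =>
    (G a : ℂ) * e (dotR a θ) * e (((nsq a - N : ℤ) : ℝ) * α) with hFa
  have hnorm : ∀ a α, ‖Fa a α‖ = G a := by
    intro a α
    simp only [hFa]
    rw [norm_mul, norm_mul, circI_norm_e, circI_norm_e, mul_one, mul_one, Complex.norm_real,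
      Real.norm_eq_abs, abs_of_pos (Real.exp_pos _)]
  have hsumα : ∀ α : ℝ, (Summable fun a : Fin n → ℤ => ‖Fa a α‖) ∧
      ∑' a, Fa a α = (∏ i, th M α (θ i)) * e (-(N * α)) := by
    intro α
    obtain ⟨h1, h2⟩ := circI_prod n (fun i b => Complex.exp (-(Real.pi : ℂ) * (b : ℂ) ^ 2 /
      (M : ℂ) ^ 2 + 2 * Real.pi * Complex.I * (α * (b : ℂ) ^ 2 + θ i * b)))
      (fun i => by
        refine (gauss_summable hM).congr fun b => ?_
        rw [th_term_norm])
    constructor
    · refine h1.congr fun a => ?_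
      have h3 := circI_term (M := M) N θ a α
      have h4 : ‖Fa a α‖ = ‖(∏ i, Complex.exp (-(Real.pi : ℂ) * (a i : ℂ) ^ 2 / (M : ℂ) ^ 2 +
          2 * Real.pi * Complex.I * (α * (a i : ℂ) ^ 2 + θ i * a i))) * e (-(N * α))‖ := by
        rw [h3]
      rw [h4, norm_mul, circI_norm_e, mul_one]
    · have h5 : (∏ i, th M α (θ i)) = ∑' a : Fin n → ℤ, ∏ i, Complex.exp (-(Real.pi : ℂ) *
          (a i : ℂ) ^ 2 / (M : ℂ) ^ 2 + 2 * Real.pi * Complex.I * (α * (a i : ℂ) ^ 2 +
            θ i * a i)) := by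
        rw [h2]
        rfl
      rw [h5, ← tsum_mul_right]
      refine tsum_congr fun a => ?_
      exact (circI_term (M := M) N θ a α).symm
  have hGs : Summable G := (hsumα 0).1.congr fun a => hnorm a 0
  have hcont : ∀ a, Continuous (Fa a) := by
    intro a
    simp only [hFa, e]
    fun_prop
  have key := intervalIntegral.hasSum_integral_of_dominated_convergence (μ := MeasureTheory.volume)
    (a := 0) (b := 1) (F := Fa) (f := fun α => (∏ i, th M α (θ i)) * e (-(N * α)))
    (fun a _ => G a)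
    (fun a => (hcont a).aestronglyMeasurable)
    (fun a => Filter.Eventually.of_forall fun α _ => (hnorm a α).le)
    (Filter.Eventually.of_forall fun α _ => hGs)
    intervalIntegrable_const
    (Filter.Eventually.of_forall fun α _ => by
      rw [← (hsumα α).2]
      exact (hsumα α).1.of_norm.hasSum)
  rw [← key.tsum_eq]
  have hint : ∀ a, ∫ α in (0 : ℝ)..1, Fa a α =
      if nsq a = N then (Real.exp (-Real.pi * N / (M : ℝ) ^ 2) : ℂ) * e (dotR a θ) else 0 := by
    intro a
    simp only [hFa]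
    rw [intervalIntegral.integral_const_mul, circI_int]
    by_cases h : nsq a = N
    · rw [if_pos (by omega), if_pos h, mul_one, hG]
      simp only
      rw [h]
      push_cast
      rfl
    · rw [if_neg (by omega), if_neg h, mul_zero]
  simp only [hint]
  rw [tsum_eq_sum (s := sph n N)]
  · unfold TN
    rw [Finset.mul_sum]
    refine Finset.sum_congr rfl fun a ha => ?_
    rw [if_pos (Finset.mem_filter.1 ha).2]
  · intro a ha
    rw [if_neg (fun h => ha (circI_mem_sph h))]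

end Pool.Agent.H18.QR
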