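import Pool.Agent.H18.QR.ThB
import Pool.Agent.H18.QR.CircI
import Pool.Agent.H18.QR.Arcs

/-!
# QR-07: the comparison theorem

`exp(-πN/M^2) TN N θ - exp(-πN'/M^2) TN N' θ = ∫_0^1 prod_i th M α (θ i) (e(-Nα) - e(-N'α)) dα`
by `integral_formula`. Apply `arcs` with `g α = |integrand|` (continuous by `th_continuous`). On the
arc `α = r/q + β`, `|β| ≤ 1/(qM)`, put `u = 2 β M^2`. By `th_bound` (constant `C`), because
`sqrt q (1+u^2)^(1/4) ≥ 1` and `n ≥ 5`:
`prod |th| ≤ (C M)^n q^(-5/2) (1+u^2)^(-5/4)`.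
Moreover `|e(-Nα) - e(-N'α)| = |1 - e((N-N')α)| ≤ 2`, and if `q ≤ Q` then `q | D | N - N'`, so
`e((N-N')α) = e((N-N')β)` and `|e(-Nα) - e(-N'α)| ≤ 2π |N-N'| |β| ≤ π η |u|`, `η = η₀`.
(i) `q ≤ Q`: `min(2, π η |u|) (1+u^2)^(-5/4) ≤ 4 η^(1/3) (1+u^2)^(-1)`: if `|u| ≤ η^(-2/3)` then
`π η |u| ≤ π η^(1/3)`; otherwise `(1+u^2)^(-1/4) ≤ |u|^(-1/2) ≤ η^(1/3)`.
(ii) `q > Q`: `2 (1+u^2)^(-5/4) ≤ 2 (1+u^2)^(-1)`.
So take `G q β = (C M)^n q^(-5/2) c_q (1+(2βM^2)^2)^(-1)`, `c_q = 4 η^(1/3)` or `2`; its integral is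
`(C M)^n q^(-5/2) c_q π/(2 M^2)` (`integral_univ_inv_one_add_sq`, scaling). Sum over `q`:
`sum_q (q+1) q^(-5/2) ≤ 2 sum q^(-3/2) < ∞` and `sum_{q>Q} (q+1) q^(-5/2) ≤ 2 sum_{q>Q} q^(-3/2) → 0` as
`Q → ∞` (tail of a convergent series). Total `≤ C^n (π/2) (4 η^(1/3) S + 2 tail(Q)) M^n/M^2`; choose
`Q`, then `η₀`.
-/

namespace Pool.Agent.H18.QR

open Finset MeasureTheory

private theorem comp_norm_e (x : ℝ) : ‖e x‖ = 1 := by
  unfold e
  have h : (2 * (Real.pi : ℂ) * Complex.I * x) = ((2 * Real.pi * x : ℝ) : ℂ) * Complex.I := by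
    push_cast; ring
  rw [h, Complex.norm_exp_ofReal_mul_I]

private theorem comp_e_add (x y : ℝ) : e (x + y) = e x * e y := by
  unfold e
  rw [← Complex.exp_add]
  congr 1
  push_cast; ring

private theorem comp_e_int (k : ℤ) : e (k : ℝ) = 1 := by
  unfold e
  rw [Complex.exp_eq_one_iff]
  exact ⟨k, by push_cast; ring⟩

private theorem comp_e_sub_one (x : ℝ) : ‖e x - 1‖ ≤ 2 * Real.pi * |x| := by
  have h : e x = Complex.exp (Complex.I * ((2 * Real.pi * x : ℝ) : ℂ)) := by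
    unfold e
    congr 1
    push_cast; ring
  rw [h]
  refine (Real.norm_exp_I_mul_ofReal_sub_one_le).trans (le_of_eq ?_)
  rw [Real.norm_eq_abs, abs_mul, abs_mul, abs_two, abs_of_pos Real.pi_pos]

private theorem comp_e_cont : Continuous fun x : ℝ => e x := by
  unfold e
  fun_prop

/-- the weights of the sum over the denominators -/
private noncomputable def compA (q : ℕ) : ℝ := ((q : ℝ) + 1) * (Real.sqrt q ^ 5)⁻¹

private theorem compA_nonneg (q : ℕ) : 0 ≤ compA q := by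
  unfold compA
  positivity

private theorem compA_summable : Summable compA := by
  have h1 : Summable (fun q : ℕ => ((q : ℝ) ^ (3 / 2 : ℝ))⁻¹) :=
    Real.summable_nat_rpow_inv.2 (by norm_num)
  refine Summable.of_nonneg_of_le compA_nonneg (fun q => ?_) (h1.mul_left 2)
  rcases Nat.eq_zero_or_pos q with h0 | hq
  · subst h0
    unfold compA
    simp
  · have hqr : (1 : ℝ) ≤ q := by exact_mod_cast hq
    have hq0 : (0 : ℝ) ≤ q := by linarith
    have hs : Real.sqrt q ^ 2 = q := Real.sq_sqrt hq0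
    have hsp : 0 < Real.sqrt q := Real.sqrt_pos.2 (by linarith)
    have h2 : (q : ℝ) ^ (3 / 2 : ℝ) = Real.sqrt q ^ 3 := by
      rw [Real.sqrt_eq_rpow, ← Real.rpow_natCast, ← Real.rpow_mul hq0]
      norm_num
    unfold compA
    rw [h2, ← div_eq_mul_inv, ← div_eq_mul_inv, div_le_div_iff₀ (by positivity) (by positivity)]
    have h3 : Real.sqrt q ^ 5 = q * Real.sqrt q ^ 3 := by
      calc Real.sqrt q ^ 5 = Real.sqrt q ^ 2 * Real.sqrt q ^ 3 := by ring
        _ = _ := by rw [hs]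
    rw [h3]
    have h4 : 0 < Real.sqrt q ^ 3 := by positivity
    nlinarith

private theorem compA_tail (ε : ℝ) (hε : 0 < ε) :
    ∃ Q : ℕ, 0 < Q ∧ ∀ t : Finset ℕ, (∀ q ∈ t, Q < q) → ∑ q ∈ t, compA q ≤ ε := by
  obtain ⟨s, hs⟩ := summable_iff_vanishing_norm.1 compA_summable ε hε
  obtain ⟨Q, hQ⟩ : ∃ Q : ℕ, ∀ q ∈ s, q ≤ Q := ⟨s.sup id, fun q hq => Finset.le_sup (f := id) hq⟩
  refine ⟨Q + 1, Nat.succ_pos _, fun t ht => ?_⟩
  have h1 : Disjoint t s := by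
    rw [Finset.disjoint_left]
    intro q hqt hqs
    have := ht q hqt
    have := hQ q hqs
    omega
  exact (le_abs_self _).trans (hs t h1).le

private theorem comp_int (c : ℝ) (hc : c ≠ 0) :
    Integrable (fun β : ℝ => (1 + (c * β) ^ 2)⁻¹) ∧
      ∫ β : ℝ, (1 + (c * β) ^ 2)⁻¹ = |c⁻¹| * Real.pi := by
  constructor
  · exact integrable_inv_one_add_sq.comp_mul_left' hc
  · have h := MeasureTheory.Measure.integral_comp_mul_left (fun x : ℝ => (1 + x ^ 2)⁻¹) c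
    rw [h, integral_univ_inv_one_add_sq, smul_eq_mul]

/-- the pointwise bound on one arc, with `w = sqrt q`, `s = (1 + u ^ 2) ^ (1 / 4)` -/
private theorem comp_arc {n : ℕ} (hn : 5 ≤ n) (P b K w s c : ℝ) (hK : 0 ≤ K) (hw : 1 ≤ w)
    (hs : 1 ≤ s) (hb0 : 0 ≤ b) (hP : P ≤ (K / (w * s)) ^ n) (hbc : b ≤ c * s) :
    P * b ≤ K ^ n * (w ^ 5)⁻¹ * c * (s ^ 4)⁻¹ := by
  have hws : 1 ≤ w * s := by nlinarith
  have hws0 : 0 < w * s := by linarith
  have h1 : (w * s) ^ 5 ≤ (w * s) ^ n := pow_le_pow_right₀ hws hn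
  have h2 : P ≤ K ^ n / (w * s) ^ 5 := by
    refine hP.trans ?_
    rw [div_pow]
    exact div_le_div_of_nonneg_left (pow_nonneg hK n) (by positivity) h1
  have h3 : 0 ≤ K ^ n / (w * s) ^ 5 := div_nonneg (pow_nonneg hK n) (by positivity)
  calc P * b ≤ (K ^ n / (w * s) ^ 5) * (c * s) := mul_le_mul h2 hbc hb0 h3
    _ = K ^ n * (w ^ 5)⁻¹ * c * (s ^ 4)⁻¹ := by
      have hs0 : s ≠ 0 := by linarith
      have hw0 : w ≠ 0 := by linarith
      field_simp

/-- the two cases of the choice of the scale -/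
private theorem comp_case (δ u s b : ℝ) (hδ : 0 < δ) (hs0 : 1 ≤ s) (hs : s ^ 4 = 1 + u ^ 2)
    (hb2 : b ≤ 2) (hb : b ≤ Real.pi * δ ^ 3 * |u|) : b ≤ 4 * δ * s := by
  have hpi : Real.pi ≤ 4 := Real.pi_le_four
  have hpi0 : 0 < Real.pi := Real.pi_pos
  by_cases h : δ ^ 2 * |u| ≤ 1
  · have h1 : Real.pi * δ ^ 3 * |u| ≤ Real.pi * δ := by
      calc Real.pi * δ ^ 3 * |u| = Real.pi * δ * (δ ^ 2 * |u|) := by ring
        _ ≤ Real.pi * δ * 1 := mul_le_mul_of_nonneg_left h (by positivity)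
        _ = _ := by ring
    have h2 : Real.pi * δ ≤ 4 * δ := mul_le_mul_of_nonneg_right hpi hδ.le
    have h3 : 4 * δ * 1 ≤ 4 * δ * s := mul_le_mul_of_nonneg_left hs0 (by positivity)
    linarith
  · have h1 : 1 < δ ^ 2 * |u| := not_le.1 h
    have h2 : 1 ≤ δ * s := by
      by_contra hcon
      have hcon' : δ * s < 1 := not_le.1 hcon
      have h3 : (δ * s) ^ 4 < 1 := pow_lt_one₀ (by positivity) hcon' (by norm_num)
      have h4 : (δ * s) ^ 4 = δ ^ 4 * (1 + |u| ^ 2) := by rw [mul_pow, hs, sq_abs]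
      have h5 : 1 < (δ ^ 2 * |u|) ^ 2 := one_lt_pow₀ h1 (by norm_num)
      have h6 : 0 < δ ^ 4 := by positivity
      nlinarith
    nlinarith

theorem comparison {n : ℕ} (hn : 5 ≤ n) (ε : ℝ) (hε : 0 < ε) :
    ∃ (Q : ℕ) (η₀ : ℝ), 0 < Q ∧ 0 < η₀ ∧ ∀ (M D N N' : ℕ) (θ : Fin n → ℝ), 0 < M →
      (∀ q : ℕ, 0 < q → q ≤ Q → q ∣ D) → (D : ℤ) ∣ (N : ℤ) - N' →
      |(N : ℝ) - N'| ≤ η₀ * (M : ℝ) ^ 2 →
      ‖(Real.exp (-Real.pi * N / (M : ℝ) ^ 2) : ℂ) * TN N θ -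
        (Real.exp (-Real.pi * N' / (M : ℝ) ^ 2) : ℂ) * TN N' θ‖ ≤
        ε * ((M : ℝ) ^ n / (M : ℝ) ^ 2) := by
  obtain ⟨C, hC1, hth⟩ := th_bound
  have hC0 : 0 < C := by linarith
  have hpi : 0 < Real.pi := Real.pi_pos
  obtain ⟨Q, hQ0, hQ⟩ := compA_tail (ε / (2 * Real.pi * C ^ n)) (by positivity)
  have hA0 : 0 ≤ ∑' q, compA q := tsum_nonneg compA_nonneg
  obtain ⟨δ, hδ⟩ : ∃ δ : ℝ, δ = ε / (4 * Real.pi * C ^ n * (∑' q, compA q + 1)) := ⟨_, rfl⟩
  have hδ0 : 0 < δ := by rw [hδ]; positivity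
  refine ⟨Q, δ ^ 3, hQ0, by positivity, ?_⟩
  intro M D N N' θ hM hD hND hNN
  have hMr : (0 : ℝ) < M := by exact_mod_cast hM
  have hcont : Continuous fun α : ℝ => (∏ i, th M α (θ i)) *
      (e (-(N * α)) - e (-(N' * α))) := by
    refine Continuous.mul (continuous_finsetProd _ fun i _ => th_continuous hM (θ i)) ?_
    exact (comp_e_cont.comp (by fun_prop : Continuous fun α : ℝ => -((N : ℝ) * α))).sub
      (comp_e_cont.comp (by fun_prop : Continuous fun α : ℝ => -((N' : ℝ) * α)))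
  have hint : ∀ K : ℕ, IntervalIntegrable (fun α : ℝ => (∏ i, th M α (θ i)) * e (-(K * α)))
      volume 0 1 := by
    intro K
    refine Continuous.intervalIntegrable ?_ _ _
    refine Continuous.mul (continuous_finsetProd _ fun i _ => th_continuous hM (θ i)) ?_
    exact comp_e_cont.comp (by fun_prop : Continuous fun α : ℝ => -((K : ℝ) * α))
  rw [integral_formula hM N θ, integral_formula hM N' θ,
    ← intervalIntegral.integral_sub (hint N) (hint N')]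
  have h1 : ‖∫ α in (0 : ℝ)..1, ((∏ i, th M α (θ i)) * e (-(N * α)) -
      (∏ i, th M α (θ i)) * e (-(N' * α)))‖ ≤
      ∫ α in (0 : ℝ)..1, ‖(∏ i, th M α (θ i)) * (e (-(N * α)) - e (-(N' * α)))‖ := by
    refine (intervalIntegral.norm_integral_le_integral_norm zero_le_one).trans (le_of_eq ?_)
    refine intervalIntegral.integral_congr fun α _ => ?_
    show ‖(∏ i, th M α (θ i)) * e (-(N * α)) - (∏ i, th M α (θ i)) * e (-(N' * α))‖ =
      ‖(∏ i, th M α (θ i)) * (e (-(N * α)) - e (-(N' * α)))‖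
    rw [mul_sub]
  refine h1.trans ?_
  -- the majorant on the arcs
  set cq : ℕ → ℝ := fun q => if q ≤ Q then 4 * δ else 2 with hcq
  have hcq0 : ∀ q, 0 ≤ cq q := by
    intro q
    rw [hcq]
    show (0 : ℝ) ≤ if q ≤ Q then 4 * δ else 2
    split_ifs <;> positivity
  set G : ℕ → ℝ → ℝ := fun q β =>
    (C * M) ^ n * (Real.sqrt q ^ 5)⁻¹ * cq q * (1 + ((2 * (M : ℝ) ^ 2) * β) ^ 2)⁻¹ with hG
  have hc2 : (2 * (M : ℝ) ^ 2) ≠ 0 := by positivity
  have hGi : ∀ q, Integrable (G q) := fun q => (comp_int _ hc2).1.const_mul _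
  have hG0 : ∀ q β, 0 ≤ G q β := by
    intro q β
    have := hcq0 q
    rw [hG]
    show 0 ≤ (C * M) ^ n * (Real.sqrt q ^ 5)⁻¹ * cq q * (1 + ((2 * (M : ℝ) ^ 2) * β) ^ 2)⁻¹
    positivity
  have hGint : ∀ q, ∫ β, G q β = (C * M) ^ n * (Real.sqrt q ^ 5)⁻¹ * cq q *
      (Real.pi / (2 * (M : ℝ) ^ 2)) := by
    intro q
    rw [hG]
    show ∫ β : ℝ, (C * M) ^ n * (Real.sqrt q ^ 5)⁻¹ * cq q *
      (1 + ((2 * (M : ℝ) ^ 2) * β) ^ 2)⁻¹ = _
    rw [MeasureTheory.integral_const_mul, (comp_int _ hc2).2, abs_of_pos (by positivity)]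
    congr 1
    field_simp
  have harc : ∀ (q : ℕ) (r : ℤ) (β : ℝ), 0 < q → q ≤ M → IsCoprime r (q : ℤ) →
      |β| ≤ 1 / ((q : ℝ) * M) →
      ‖(∏ i, th M ((r : ℝ) / q + β) (θ i)) * (e (-(N * ((r : ℝ) / q + β))) -
        e (-(N' * ((r : ℝ) / q + β))))‖ ≤ G q β := by
    intro q r β hq hqM hr hβ
    have hqr : (0 : ℝ) < q := by exact_mod_cast hq
    have hqr1 : (1 : ℝ) ≤ q := by exact_mod_cast hq
    set u : ℝ := 2 * β * (M : ℝ) ^ 2 with hu
    set s : ℝ := (1 + u ^ 2) ^ (1 / 4 : ℝ) with hs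
    have hu1 : (1 : ℝ) ≤ 1 + u ^ 2 := by nlinarith [sq_nonneg u]
    have hs1 : 1 ≤ s := Real.one_le_rpow hu1 (by norm_num)
    have hs4 : s ^ 4 = 1 + u ^ 2 := by
      rw [hs, ← Real.rpow_natCast, ← Real.rpow_mul (by linarith)]
      norm_num
    have hw1 : 1 ≤ Real.sqrt q := Real.one_le_sqrt.2 hqr1
    have hprod : ‖∏ i, th M ((r : ℝ) / q + β) (θ i)‖ ≤ ((C * M) / (Real.sqrt q * s)) ^ n := by
      rw [norm_prod]
      refine (Finset.prod_le_prod (fun i _ => norm_nonneg _)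
        (fun i _ => hth M q r β (θ i) hM hq hqM hr hβ)).trans (le_of_eq ?_)
      rw [Finset.prod_const, Finset.card_univ, Fintype.card_fin]
    have hb2 : ‖e (-(N * ((r : ℝ) / q + β))) - e (-(N' * ((r : ℝ) / q + β)))‖ ≤ 2 := by
      refine (norm_sub_le _ _).trans ?_
      rw [comp_norm_e, comp_norm_e]
      norm_num
    have hbc : ‖e (-(N * ((r : ℝ) / q + β))) - e (-(N' * ((r : ℝ) / q + β)))‖ ≤ cq q * s := by
      rw [hcq]
      show _ ≤ (if q ≤ Q then 4 * δ else 2) * s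
      split_ifs with hqQ
      · refine comp_case δ u s _ hδ0 hs1 hs4 hb2 ?_
        obtain ⟨k, hk⟩ : (q : ℤ) ∣ (N : ℤ) - N' :=
          (Int.natCast_dvd_natCast.2 (hD q hq hqQ)).trans hND
        have hkr : (N : ℝ) - N' = q * k := by exact_mod_cast hk
        have e1 : -((N : ℝ) * ((r : ℝ) / q + β)) = -((N' : ℝ) * ((r : ℝ) / q + β)) +
            (((-(k * r) : ℤ) : ℝ) + (-(((N : ℝ) - N') * β))) := by
          have : (N : ℝ) = N' + q * k := by linarith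
          rw [this]
          push_cast
          field_simp
          ring
        rw [e1, comp_e_add, comp_e_add, comp_e_int, one_mul]
        have e2 : e (-((N' : ℝ) * ((r : ℝ) / q + β))) * e (-(((N : ℝ) - N') * β)) -
            e (-((N' : ℝ) * ((r : ℝ) / q + β))) =
            e (-((N' : ℝ) * ((r : ℝ) / q + β))) * (e (-(((N : ℝ) - N') * β)) - 1) := by ring
        rw [e2, norm_mul, comp_norm_e, one_mul]
        refine (comp_e_sub_one _).trans ?_
        rw [abs_neg, abs_mul]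
        have e3 : |u| = 2 * |β| * (M : ℝ) ^ 2 := by
          rw [hu, abs_mul, abs_mul, abs_two, abs_of_pos (by positivity : (0 : ℝ) < (M : ℝ) ^ 2)]
        rw [e3]
        calc 2 * Real.pi * (|(N : ℝ) - N'| * |β|) ≤ 2 * Real.pi * ((δ ^ 3 * (M : ℝ) ^ 2) * |β|) :=
              mul_le_mul_of_nonneg_left (mul_le_mul_of_nonneg_right hNN (abs_nonneg _))
                (by positivity)
          _ = Real.pi * δ ^ 3 * (2 * |β| * (M : ℝ) ^ 2) := by ring
      · nlinarith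
    rw [norm_mul]
    have hfin := comp_arc hn (‖∏ i, th M ((r : ℝ) / q + β) (θ i)‖)
      (‖e (-(N * ((r : ℝ) / q + β))) - e (-(N' * ((r : ℝ) / q + β)))‖) (C * M) (Real.sqrt q) s
      (cq q) (by positivity) hw1 hs1 (norm_nonneg _) hprod hbc
    refine hfin.trans (le_of_eq ?_)
    rw [hG, hs4, hu]
    show _ = (C * M) ^ n * (Real.sqrt q ^ 5)⁻¹ * cq q * (1 + ((2 * (M : ℝ) ^ 2) * β) ^ 2)⁻¹
    rw [show 2 * β * (M : ℝ) ^ 2 = 2 * (M : ℝ) ^ 2 * β by ring]
  have hmain := arcs hM (fun α => ‖(∏ i, th M α (θ i)) * (e (-(N * α)) - e (-(N' * α)))‖)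
    hcont.norm (fun α => norm_nonneg _) G hGi hG0 harc
  refine hmain.trans ?_
  -- the sum over the denominators
  have hsum : ∑ q ∈ Icc 1 M, compA q * cq q ≤ 4 * δ * ∑' q, compA q +
      2 * (ε / (2 * Real.pi * C ^ n)) := by
    rw [← Finset.sum_filter_add_sum_filter_not (Icc 1 M) (fun q => q ≤ Q)]
    refine add_le_add ?_ ?_
    · calc ∑ q ∈ (Icc 1 M).filter (fun q => q ≤ Q), compA q * cq q
          = ∑ q ∈ (Icc 1 M).filter (fun q => q ≤ Q), compA q * (4 * δ) := by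
            refine Finset.sum_congr rfl fun q hq => ?_
            rw [hcq]
            show compA q * (if q ≤ Q then 4 * δ else 2) = _
            rw [if_pos (Finset.mem_filter.1 hq).2]
        _ = (4 * δ) * ∑ q ∈ (Icc 1 M).filter (fun q => q ≤ Q), compA q := by
            rw [← Finset.sum_mul, mul_comm]
        _ ≤ _ := mul_le_mul_of_nonneg_left
            (compA_summable.sum_le_tsum _ fun q _ => compA_nonneg q) (by positivity)
    · calc ∑ q ∈ (Icc 1 M).filter (fun q => ¬ q ≤ Q), compA q * cq q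
          = ∑ q ∈ (Icc 1 M).filter (fun q => ¬ q ≤ Q), compA q * 2 := by
            refine Finset.sum_congr rfl fun q hq => ?_
            rw [hcq]
            show compA q * (if q ≤ Q then 4 * δ else 2) = _
            rw [if_neg (Finset.mem_filter.1 hq).2]
        _ = 2 * ∑ q ∈ (Icc 1 M).filter (fun q => ¬ q ≤ Q), compA q := by
            rw [← Finset.sum_mul, mul_comm]
        _ ≤ _ := mul_le_mul_of_nonneg_left
            (hQ _ fun q hq => not_le.1 (Finset.mem_filter.1 hq).2) (by norm_num)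
  have hfac : ∑ q ∈ Icc 1 M, ((q : ℝ) + 1) * ∫ β, G q β =
      (C ^ n * (Real.pi / 2) * ((M : ℝ) ^ n / (M : ℝ) ^ 2)) * ∑ q ∈ Icc 1 M, compA q * cq q := by
    rw [Finset.mul_sum]
    refine Finset.sum_congr rfl fun q _ => ?_
    rw [hGint]
    unfold compA
    rw [mul_pow]
    field_simp
  rw [hfac]
  have hMM : 0 ≤ (M : ℝ) ^ n / (M : ℝ) ^ 2 := by positivity
  have hstep : C ^ n * (Real.pi / 2) * (4 * δ * ∑' q, compA q +
      2 * (ε / (2 * Real.pi * C ^ n))) ≤ ε := by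
    have e1 : C ^ n * (Real.pi / 2) * (2 * (ε / (2 * Real.pi * C ^ n))) = ε / 2 := by
      field_simp
    have e2 : C ^ n * (Real.pi / 2) * (4 * δ * (∑' q, compA q + 1)) = ε / 2 := by
      have hne : (∑' q, compA q) + 1 ≠ 0 := by positivity
      rw [hδ]
      field_simp
    have e3 : C ^ n * (Real.pi / 2) * (4 * δ * ∑' q, compA q) ≤
        C ^ n * (Real.pi / 2) * (4 * δ * (∑' q, compA q + 1)) := by
      refine mul_le_mul_of_nonneg_left ?_ (by positivity)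
      refine mul_le_mul_of_nonneg_left ?_ (by positivity)
      linarith
    rw [mul_add, e1]
    linarith
  calc (C ^ n * (Real.pi / 2) * ((M : ℝ) ^ n / (M : ℝ) ^ 2)) * ∑ q ∈ Icc 1 M, compA q * cq q
      ≤ (C ^ n * (Real.pi / 2) * ((M : ℝ) ^ n / (M : ℝ) ^ 2)) *
        (4 * δ * ∑' q, compA q + 2 * (ε / (2 * Real.pi * C ^ n))) :=
        mul_le_mul_of_nonneg_left hsum (by positivity)
    _ = (C ^ n * (Real.pi / 2) * (4 * δ * ∑' q, compA q + 2 * (ε / (2 * Real.pi * C ^ n)))) *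
        ((M : ℝ) ^ n / (M : ℝ) ^ 2) := by ring
    _ ≤ ε * ((M : ℝ) ^ n / (M : ℝ) ^ 2) := mul_le_mul_of_nonneg_right hstep hMM

end Pool.Agent.H18.QR
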