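import Pool.Agent.H18.QR.Fin

/-!
# QR-22: compactness (de Bruijn - Erdos) and the result

If every finite configuration is `k`-colourable then `R^n` is
(`SimpleGraph.nonempty_hom_of_forall_finite_subgraph_hom` with the complete graph on `Fin k`).
The converse direction: compose with the inclusion `Q^n → R^n`.
-/

namespace Pool.Agent.H18.QR

open Finset

theorem compactness {n : ℕ} (k : ℕ)
    (h : ∀ (V : Type) [Fintype V] (h : V → (Fin n → ℝ)),
      ∃ col : V → Fin k, ∀ u v : V, ∑ i, (h u i - h v i) ^ 2 = 1 → col u ≠ col v) :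
    ∃ c : (Fin n → ℝ) → Fin k, ∀ x y : Fin n → ℝ, ∑ i, (x i - y i) ^ 2 = 1 → c x ≠ c y := by
  let G : SimpleGraph (Fin n → ℝ) :=
    { Adj := fun x y => ∑ i, (x i - y i) ^ 2 = 1
      symm := ⟨fun x y hxy => by
        rw [← hxy]
        exact Finset.sum_congr rfl fun i _ => by ring⟩
      loopless := ⟨fun x hx => by simp at hx⟩ }
  have key : Nonempty (G →g (⊤ : SimpleGraph (Fin k))) := by
    refine SimpleGraph.nonempty_hom_of_forall_finite_subgraph_hom fun G' hfin => ?_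
    haveI : Fintype G'.verts := hfin.fintype
    have h1 := h G'.verts (fun v => v.1)
    refine ⟨h1.choose, ?_⟩
    intro u v huv
    exact h1.choose_spec u v (G'.adj_sub huv)
  obtain ⟨φ⟩ := key
  refine ⟨φ, fun x y hxy => ?_⟩
  have h2 : G.Adj x y := hxy
  exact φ.map_rel h2

theorem rational_of_real {n : ℕ} (k : ℕ)
    (h : ∃ c : (Fin n → ℝ) → Fin k, ∀ x y : Fin n → ℝ, ∑ i, (x i - y i) ^ 2 = 1 → c x ≠ c y) :
    ∃ c : (Fin n → ℚ) → Fin k, ∀ x y : Fin n → ℚ, ∑ i, (x i - y i) ^ 2 = 1 → c x ≠ c y := by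
  obtain ⟨c, hc⟩ := h
  refine ⟨fun x => c fun i => (x i : ℝ), fun x y hxy => hc _ _ ?_⟩
  exact_mod_cast hxy

theorem main {n : ℕ} (hn : 5 ≤ n) (k : ℕ) :
    (∃ c : (Fin n → ℚ) → Fin k, ∀ x y, ∑ i, (x i - y i) ^ 2 = 1 → c x ≠ c y) ↔
    (∃ c : (Fin n → ℝ) → Fin k, ∀ x y, ∑ i, (x i - y i) ^ 2 = 1 → c x ≠ c y) :=
  ⟨fun ⟨c, hc⟩ => compactness k fun V _ h => finite_config hn k c hc V h, rational_of_real k⟩

end Pool.Agent.H18.QR
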