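import Pool.Agent.H18.QR.Defs

/-!
# QR-11: integer points in a small piece of a thin shell, with a congruence condition

Let `s' = s/(C_n)` with a large constant `C_n` (e.g. `C_n = 100 n^2`), `η₀ = s/C_n`. Let
`| |g|^2 - M^2 | ≤ (η/10) M^2`. Choose `i₀` with `g_{i₀}^2 ≥ |g|^2/n ≥ M^2/(2n)`. Fix `a₀` in `resid n D`.
For `j ≠ i₀` let `a_j = a₀_j mod D` be any integer with `|a_j - g_j| ≤ s' M`: at least
`2 s' M/D - 1 ≥ s' M/D` choices each. With `σ = sum_{j≠i₀} a_j^2` one has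
`|σ - sum_{j≠i₀} g_j^2| ≤ n s' M (2·1.1 M + s' M) ≤ 4 n s' M^2`. Let `a_{i₀}` have the sign of
`g_{i₀}` and `a_{i₀}^2` in `[(1 - 4η/5) M^2 - σ, (1 - η/5) M^2 - σ]` (a subset of
`[M^2/(4n), 4 M^2]`): an interval for `|a_{i₀}|` of length at least `(3η/5) M^2/(4M) ≥ η M/10`, so at
least `η M/(10 D) - 1 ≥ η M/(20 D)` choices congruent to `a₀_{i₀}` modulo `D`; and
`|a_{i₀} - g_{i₀}| ≤ |a_{i₀}^2 - g_{i₀}^2| / |g_{i₀}| ≤ (5 n s' + 2 η) M^2 / (M/(2n)) ≤ s M`.
All these `a` are different (different residues for different `a₀`), so the number of points is at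
least `#resid (s'M/D)^(n-1) (ηM/(20D))`.
-/

namespace Pool.Agent.H18.QR

open Finset

/-- integers in `[x, y]` congruent to `r` modulo `D` -/
noncomputable def ap (x y : ℝ) (r : ℤ) (D : ℕ) : Finset ℤ :=
  (Finset.Icc ⌈(x - r) / D⌉ ⌊(y - r) / D⌋).image (fun k => r + D * k)

theorem ap_mem {x y : ℝ} {r : ℤ} {D : ℕ} (hD : 0 < D) {t : ℤ} (h : t ∈ ap x y r D) :
    x ≤ t ∧ (t : ℝ) ≤ y ∧ (D : ℤ) ∣ t - r := by
  unfold ap at h
  rw [Finset.mem_image] at h
  obtain ⟨k, hk, rfl⟩ := h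
  rw [Finset.mem_Icc, Int.ceil_le, Int.le_floor] at hk
  have hD' : (0 : ℝ) < D := by exact_mod_cast hD
  obtain ⟨h1, h2⟩ := hk
  rw [div_le_iff₀ hD'] at h1
  rw [le_div_iff₀ hD'] at h2
  refine ⟨?_, ?_, ?_⟩
  · push_cast
    linarith
  · push_cast
    linarith
  · exact ⟨k, by ring⟩

theorem ap_card (x y : ℝ) (r : ℤ) {D : ℕ} (hD : 0 < D) :
    (y - x) / D - 1 ≤ ((ap x y r D).card : ℝ) := by
  have hD' : (0 : ℝ) < D := by exact_mod_cast hD
  unfold ap
  rw [Finset.card_image_of_injective, Int.card_Icc]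
  · have h1 : ((⌊(y - r) / D⌋ + 1 - ⌈(x - r) / D⌉ : ℤ) : ℝ) ≤
        (((⌊(y - r) / D⌋ + 1 - ⌈(x - r) / D⌉).toNat : ℕ) : ℝ) := by
      have := Int.self_le_toNat (⌊(y - r) / D⌋ + 1 - ⌈(x - r) / D⌉)
      exact_mod_cast this
    refine le_trans ?_ h1
    push_cast
    have h2 := Int.sub_one_lt_floor ((y - r) / D)
    have h3 := Int.ceil_lt_add_one ((x - r) / D)
    have h4 : (y - x) / D = (y - r) / D - (x - r) / D := by ring
    rw [h4]
    linarith
  · intro k l hkl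
    have h : (D : ℤ) * k = D * l := add_left_cancel hkl
    exact mul_left_cancel₀ (by exact_mod_cast hD.ne') h

theorem nsq_update {n : ℕ} (b : Fin n → ℤ) (i : Fin n) (t : ℤ) :
    nsq (Function.update b i t) = t ^ 2 + ∑ j ∈ univ.erase i, b j ^ 2 := by
  unfold nsq
  rw [← Finset.add_sum_erase univ _ (Finset.mem_univ i), Function.update_self]
  congr 1
  refine Finset.sum_congr rfl fun j hj => ?_
  rw [Function.update_of_ne (Finset.ne_of_mem_erase hj)]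

theorem nsq_modEq {n : ℕ} {D : ℤ} {a b : Fin n → ℤ} (h : ∀ i, D ∣ a i - b i) (hb : D ∣ nsq b) :
    D ∣ nsq a := by
  have h1 : nsq a = nsq b + ∑ i, (a i - b i) * (a i + b i) := by
    unfold nsq
    rw [← Finset.sum_add_distrib]
    exact Finset.sum_congr rfl fun i _ => by ring
  rw [h1]
  exact dvd_add hb (Finset.dvd_sum fun i _ => Dvd.dvd.mul_right (h i) _)

/-- the real inequalities for the last coordinate -/
theorem last_coord {n : ℕ} (hn : 1 ≤ n) {s η M G G0 σ : ℝ} (hs : 0 < s) (hs1 : s ≤ 1) (hη : 0 < η)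
    (hη0 : η ≤ s / (8 * n)) (hM : 0 < M) (hG : |G - M ^ 2| ≤ η / 10 * M ^ 2)
    (hG0 : G ≤ n * G0 ^ 2) (hσ : |σ - (G - G0 ^ 2)| ≤ s / (8 * n) * M ^ 2) (hσ0 : 0 ≤ σ) :
    0 < (1 - 4 / 5 * η) * M ^ 2 - σ ∧
    3 / 10 * η * M ≤ Real.sqrt ((1 - η / 5) * M ^ 2 - σ) -
      Real.sqrt ((1 - 4 / 5 * η) * M ^ 2 - σ) ∧
    ∀ t : ℝ, Real.sqrt ((1 - 4 / 5 * η) * M ^ 2 - σ) ≤ |t| →
      |t| ≤ Real.sqrt ((1 - η / 5) * M ^ 2 - σ) → 0 ≤ t * G0 →
      |t - G0| ≤ s * M ∧ |t| ≤ M ∧ (1 - 4 / 5 * η) * M ^ 2 - σ ≤ t ^ 2 ∧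
        t ^ 2 ≤ (1 - η / 5) * M ^ 2 - σ := by
  have hn' : (1 : ℝ) ≤ n := by exact_mod_cast hn
  have hnpos : (0 : ℝ) < n := by linarith
  have hM2 : 0 < M ^ 2 := by positivity
  rw [abs_le] at hG hσ
  have h8 : s / (8 * n) ≤ 1 / (8 * n) := by
    apply div_le_div_of_nonneg_right hs1
    positivity
  have h8n : 1 / (8 * (n : ℝ)) = 1 / 8 * (1 / n) := by
    field_simp
  have h1n : 1 / (n : ℝ) ≤ 1 := by
    rw [div_le_one hnpos]
    exact hn'
  have h1n0 : 0 < 1 / (n : ℝ) := by positivity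
  have hη1 : η ≤ 1 / 8 * (1 / n) := by
    rw [← h8n]
    linarith
  have hη2 : η ≤ 1 / 8 := by nlinarith
  have hδ : s / (8 * n) ≤ 1 / 8 * (1 / n) := by
    rw [← h8n]
    exact h8
  -- lower bound for `G0 ^ 2`
  have hG0' : 9 / 10 * (1 / n) * M ^ 2 ≤ G0 ^ 2 := by
    have h1 : 9 / 10 * M ^ 2 ≤ n * G0 ^ 2 := by nlinarith
    have h2 : 9 / 10 * (1 / (n : ℝ)) * M ^ 2 = 1 / n * (9 / 10 * M ^ 2) := by ring
    have h3 : G0 ^ 2 = 1 / n * (n * G0 ^ 2) := by field_simp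
    rw [h2, h3]
    exact mul_le_mul_of_nonneg_left h1 h1n0.le
  have hA : G0 ^ 2 - (η + s / (8 * n)) * M ^ 2 ≤ (1 - 4 / 5 * η) * M ^ 2 - σ := by nlinarith
  have hB : (1 - η / 5) * M ^ 2 - σ ≤ G0 ^ 2 + (η + s / (8 * n)) * M ^ 2 := by nlinarith
  have hsum : (η + s / (8 * n)) * M ^ 2 ≤ 1 / 4 * (1 / n) * M ^ 2 :=
    mul_le_mul_of_nonneg_right (by linarith) hM2.le
  have hnM : 0 < 1 / (n : ℝ) * M ^ 2 := by positivity
  have hApos : 0 < (1 - 4 / 5 * η) * M ^ 2 - σ := by nlinarith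
  have hBA : (1 - 4 / 5 * η) * M ^ 2 - σ ≤ (1 - η / 5) * M ^ 2 - σ := by nlinarith
  have hBM : (1 - η / 5) * M ^ 2 - σ ≤ M ^ 2 := by nlinarith
  set A := (1 - 4 / 5 * η) * M ^ 2 - σ with hAdef
  set B := (1 - η / 5) * M ^ 2 - σ with hBdef
  have hsA : Real.sqrt A ^ 2 = A := Real.sq_sqrt hApos.le
  have hsB : Real.sqrt B ^ 2 = B := Real.sq_sqrt (hApos.le.trans hBA)
  have hsA0 := Real.sqrt_nonneg A
  have hsB0 := Real.sqrt_nonneg B
  have hsBM : Real.sqrt B ≤ M := by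
    rw [← Real.sqrt_sq hM.le]
    exact Real.sqrt_le_sqrt hBM
  have hsAB : Real.sqrt A ≤ Real.sqrt B := Real.sqrt_le_sqrt hBA
  refine ⟨hApos, ?_, ?_⟩
  · have h1 : (Real.sqrt B - Real.sqrt A) * (Real.sqrt B + Real.sqrt A) = 3 / 5 * η * M ^ 2 := by
      have : (Real.sqrt B - Real.sqrt A) * (Real.sqrt B + Real.sqrt A) =
          Real.sqrt B ^ 2 - Real.sqrt A ^ 2 := by ring
      rw [this, hsA, hsB, hAdef, hBdef]
      ring
    have h2 : (Real.sqrt B - Real.sqrt A) * (Real.sqrt B + Real.sqrt A) ≤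
        (Real.sqrt B - Real.sqrt A) * (2 * M) :=
      mul_le_mul_of_nonneg_left (by linarith) (by linarith)
    have h3 : 3 / 10 * η * M * (2 * M) ≤ (Real.sqrt B - Real.sqrt A) * (2 * M) := by
      calc 3 / 10 * η * M * (2 * M) = 3 / 5 * η * M ^ 2 := by ring
        _ ≤ _ := by rw [← h1]; exact h2
    exact le_of_mul_le_mul_right h3 (by positivity)
  · intro t ht1 ht2 ht3
    have ht4 : A ≤ t ^ 2 := by
      rw [← hsA, ← sq_abs t]
      exact pow_le_pow_left₀ hsA0 ht1 2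
    have ht5 : t ^ 2 ≤ B := by
      rw [← hsB, ← sq_abs t]
      exact pow_le_pow_left₀ (abs_nonneg t) ht2 2
    refine ⟨?_, ht2.trans hsBM, ht4, ht5⟩
    have h1 : |t ^ 2 - G0 ^ 2| ≤ s / (4 * n) * M ^ 2 := by
      have h2 : (η + s / (8 * n)) ≤ s / (4 * n) := by
        have : s / (4 * n) = s / (8 * n) + s / (8 * n) := by
          field_simp
          ring
        linarith
      have h3 : (η + s / (8 * n)) * M ^ 2 ≤ s / (4 * n) * M ^ 2 :=
        mul_le_mul_of_nonneg_right h2 hM2.le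
      rw [abs_le]
      constructor <;> linarith
    have h2 : |t - G0| * |G0| ≤ |t ^ 2 - G0 ^ 2| := by
      have h3 : t ^ 2 - G0 ^ 2 = (t - G0) * (t + G0) := by ring
      rw [h3, abs_mul]
      refine mul_le_mul_of_nonneg_left ?_ (abs_nonneg _)
      rw [← sq_le_sq₀ (abs_nonneg _) (abs_nonneg _), sq_abs, sq_abs]
      nlinarith
    have h3 : M / (2 * n) ≤ |G0| := by
      rw [← sq_le_sq₀ (by positivity) (abs_nonneg _), sq_abs]
      refine le_trans ?_ hG0'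
      have h4 : (M / (2 * n)) ^ 2 = 1 / 4 * (1 / n) * (1 / n) * M ^ 2 := by
        field_simp
        ring
      rw [h4]
      refine mul_le_mul_of_nonneg_right ?_ hM2.le
      nlinarith
    have h4 : |t - G0| * (M / (2 * n)) ≤ s / (4 * n) * M ^ 2 :=
      (mul_le_mul_of_nonneg_left h3 (abs_nonneg _)).trans (h2.trans h1)
    have h5 : s / (4 * n) * M ^ 2 = (s / 2 * M) * (M / (2 * n)) := by
      field_simp
      ring
    rw [h5] at h4
    have h6 := le_of_mul_le_mul_right h4 (by positivity)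
    nlinarith

theorem count {n : ℕ} (hn : 1 ≤ n) (s : ℝ) (hs : 0 < s) (hs1 : s ≤ 1) :
    ∃ c η₀ : ℝ, 0 < c ∧ 0 < η₀ ∧ ∀ η : ℝ, 0 < η → η ≤ η₀ → ∀ D : ℕ, 0 < D →
      ∃ M₀ : ℕ, ∀ M ≥ M₀, ∀ g : Fin n → ℤ, |(nsq g : ℝ) - (M : ℝ) ^ 2| ≤ η / 10 * (M : ℝ) ^ 2 →
        c * η * ((resid n D).card : ℝ) * ((M : ℝ) ^ n / (D : ℝ) ^ n) ≤
          (((box n (2 * M)).filter fun a => (∀ i, |(a i : ℝ) - g i| ≤ s * M) ∧
            (1 - 4 / 5 * η) * (M : ℝ) ^ 2 ≤ (nsq a : ℝ) ∧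
            (nsq a : ℝ) ≤ (1 - η / 5) * (M : ℝ) ^ 2 ∧ (D : ℤ) ∣ nsq a).card : ℝ) := by
  classical
  have hn' : (1 : ℝ) ≤ n := by exact_mod_cast hn
  have hnpos : (0 : ℝ) < n := by linarith
  set s' : ℝ := s / (32 * n ^ 2) with hs'
  have hs'0 : 0 < s' := by positivity
  have hs'1 : s' ≤ 1 / 32 := by
    rw [hs', div_le_div_iff₀ (by positivity) (by norm_num)]
    nlinarith
  have hs's : s' ≤ s := by
    rw [hs']
    refine div_le_self hs.le ?_
    nlinarith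
  have h4ns : 4 * n * s' = s / (8 * n) := by
    rw [hs']
    field_simp
    ring
  refine ⟨s' ^ (n - 1) * (1 / 5), s / (8 * n), by positivity, by positivity, ?_⟩
  intro η hη hη0 D hD
  have hD' : (0 : ℝ) < D := by exact_mod_cast hD
  refine ⟨⌈(D : ℝ) / s'⌉₊ + ⌈10 * (D : ℝ) / η⌉₊ + 1, ?_⟩
  intro M hM g hg
  have hMr : ((⌈(D : ℝ) / s'⌉₊ : ℝ) + (⌈10 * (D : ℝ) / η⌉₊ : ℝ) + 1) ≤ (M : ℝ) := by
    exact_mod_cast hM
  have hM1 : (D : ℝ) / s' ≤ M := by
    have h1 := Nat.le_ceil ((D : ℝ) / s')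
    have h2 : (0 : ℝ) ≤ (⌈10 * (D : ℝ) / η⌉₊ : ℝ) := Nat.cast_nonneg _
    linarith
  have hM2 : 10 * (D : ℝ) / η ≤ M := by
    have h1 := Nat.le_ceil (10 * (D : ℝ) / η)
    have h2 : (0 : ℝ) ≤ (⌈(D : ℝ) / s'⌉₊ : ℝ) := Nat.cast_nonneg _
    linarith
  have hMpos : (0 : ℝ) < M := lt_of_lt_of_le (by positivity) hM1
  rw [div_le_iff₀ hs'0] at hM1
  rw [div_le_iff₀ hη] at hM2
  haveI : Nonempty (Fin n) := ⟨⟨0, hn⟩⟩
  obtain ⟨i₀, -, hi₀⟩ := Finset.exists_max_image univ (fun i => (g i : ℝ) ^ 2)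
    Finset.univ_nonempty
  have hGs : (nsq g : ℝ) = ∑ i, (g i : ℝ) ^ 2 := by
    unfold nsq
    push_cast
    rfl
  have hGn : (nsq g : ℝ) ≤ n * (g i₀ : ℝ) ^ 2 := by
    rw [hGs]
    calc ∑ i, (g i : ℝ) ^ 2 ≤ ∑ _i : Fin n, (g i₀ : ℝ) ^ 2 :=
          Finset.sum_le_sum fun i _ => hi₀ i (Finset.mem_univ i)
      _ = _ := by simp
  have hη1 : η ≤ 1 / 8 := by
    refine hη0.trans ?_
    rw [div_le_div_iff₀ (by positivity) (by norm_num)]
    nlinarith
  have hgj : ∀ j, |(g j : ℝ)| ≤ 21 / 20 * M := by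
    intro j
    rw [← sq_le_sq₀ (abs_nonneg _) (by positivity), sq_abs]
    have h1 : (g j : ℝ) ^ 2 ≤ (nsq g : ℝ) := by
      rw [hGs]
      exact Finset.single_le_sum (f := fun i => (g i : ℝ) ^ 2) (fun i _ => sq_nonneg _)
        (Finset.mem_univ j)
    rw [abs_le] at hg
    nlinarith [sq_nonneg (M : ℝ)]
  have hGe : ∑ j ∈ univ.erase i₀, (g j : ℝ) ^ 2 = (nsq g : ℝ) - (g i₀ : ℝ) ^ 2 := by
    rw [hGs, ← Finset.add_sum_erase univ _ (Finset.mem_univ i₀)]
    ring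
  -- the sets
  let P : (Fin n → ℤ) → Finset (Fin n → ℤ) := fun a₀ => Fintype.piFinset fun j =>
    if j = i₀ then {g i₀} else ap ((g j : ℝ) - s' * M) ((g j : ℝ) + s' * M) (a₀ j) D
  let sg : (Fin n → ℤ) → ℝ := fun b => ∑ j ∈ univ.erase i₀, (b j : ℝ) ^ 2
  let Lo : (Fin n → ℤ) → ℝ := fun b => Real.sqrt ((1 - 4 / 5 * η) * (M : ℝ) ^ 2 - sg b)
  let Up : (Fin n → ℤ) → ℝ := fun b => Real.sqrt ((1 - η / 5) * (M : ℝ) ^ 2 - sg b)
  let T : (Fin n → ℤ) → (Fin n → ℤ) → Finset ℤ := fun a₀ b =>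
    if 0 ≤ g i₀ then ap (Lo b) (Up b) (a₀ i₀) D else ap (-Up b) (-Lo b) (a₀ i₀) D
  have hPj : ∀ a₀ b, b ∈ P a₀ → ∀ j, j ≠ i₀ →
      |(b j : ℝ) - g j| ≤ s' * M ∧ (D : ℤ) ∣ b j - a₀ j := by
    intro a₀ b hb j hj
    have h1 := Fintype.mem_piFinset.1 hb j
    rw [if_neg hj] at h1
    obtain ⟨h2, h3, h4⟩ := ap_mem hD h1
    refine ⟨?_, h4⟩
    rw [abs_le]
    constructor <;> linarith
  have hPi : ∀ a₀ b, b ∈ P a₀ → b i₀ = g i₀ := by
    intro a₀ b hb
    have h1 := Fintype.mem_piFinset.1 hb i₀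
    rw [if_pos rfl] at h1
    exact Finset.mem_singleton.1 h1
  have hsg : ∀ a₀ b, b ∈ P a₀ →
      |sg b - ((nsq g : ℝ) - (g i₀ : ℝ) ^ 2)| ≤ s / (8 * n) * (M : ℝ) ^ 2 := by
    intro a₀ b hb
    rw [← hGe, ← Finset.sum_sub_distrib]
    refine (Finset.abs_sum_le_sum_abs _ _).trans ?_
    have h1 : ∀ j ∈ univ.erase i₀, |(b j : ℝ) ^ 2 - (g j : ℝ) ^ 2| ≤ 4 * s' * (M : ℝ) ^ 2 := by
      intro j hj
      have hj' := Finset.ne_of_mem_erase hj
      have h2 := (hPj a₀ b hb j hj').1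
      have h3 : (b j : ℝ) ^ 2 - (g j : ℝ) ^ 2 = ((b j : ℝ) - g j) * ((b j : ℝ) - g j + 2 * g j) := by
        ring
      rw [h3, abs_mul]
      have h4 : |(b j : ℝ) - g j + 2 * g j| ≤ s' * M + 2 * (21 / 20 * M) := by
        refine (abs_add_le _ _).trans ?_
        rw [abs_mul, abs_of_pos (by norm_num : (0 : ℝ) < 2)]
        have := hgj j
        linarith
      calc |(b j : ℝ) - g j| * |(b j : ℝ) - g j + 2 * g j|
          ≤ (s' * M) * (s' * M + 2 * (21 / 20 * M)) :=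
            mul_le_mul h2 h4 (abs_nonneg _) (by positivity)
        _ = s' * (M : ℝ) ^ 2 * (s' + 21 / 10) := by ring
        _ ≤ s' * (M : ℝ) ^ 2 * 4 := mul_le_mul_of_nonneg_left (by linarith) (by positivity)
        _ = _ := by ring
    refine (Finset.sum_le_sum h1).trans ?_
    rw [Finset.sum_const, nsmul_eq_mul, ← h4ns]
    have h5 : ((univ.erase i₀).card : ℝ) ≤ n := by
      have : (univ.erase i₀).card ≤ n := by
        rw [Finset.card_erase_of_mem (Finset.mem_univ _), Finset.card_univ, Fintype.card_fin]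
        omega
      exact_mod_cast this
    calc ((univ.erase i₀).card : ℝ) * (4 * s' * (M : ℝ) ^ 2) ≤ n * (4 * s' * (M : ℝ) ^ 2) :=
          mul_le_mul_of_nonneg_right h5 (by positivity)
      _ = _ := by ring
  have hsg0 : ∀ b, 0 ≤ sg b := fun b => Finset.sum_nonneg fun j _ => sq_nonneg _
  have hlast : ∀ a₀ b, b ∈ P a₀ → _ := fun a₀ b hb =>
    last_coord hn hs hs1 hη hη0 hMpos hg hGn (hsg a₀ b hb) (hsg0 b)
  have hT : ∀ a₀ b, b ∈ P a₀ → ∀ t ∈ T a₀ b, |(t : ℝ) - g i₀| ≤ s * M ∧ |(t : ℝ)| ≤ M ∧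
      (1 - 4 / 5 * η) * (M : ℝ) ^ 2 - sg b ≤ (t : ℝ) ^ 2 ∧
      (t : ℝ) ^ 2 ≤ (1 - η / 5) * (M : ℝ) ^ 2 - sg b ∧ (D : ℤ) ∣ t - a₀ i₀ := by
    intro a₀ b hb t ht
    obtain ⟨-, -, h3⟩ := hlast a₀ b hb
    have hLo : 0 ≤ Lo b := Real.sqrt_nonneg _
    have hUp : 0 ≤ Up b := Real.sqrt_nonneg _
    by_cases h0 : 0 ≤ g i₀
    · simp only [T, if_pos h0] at ht
      obtain ⟨h4, h5, h6⟩ := ap_mem hD ht
      have ht0 : (0 : ℝ) ≤ t := hLo.trans h4
      have h0' : (0 : ℝ) ≤ g i₀ := by exact_mod_cast h0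
      have h7 := h3 t (by rw [abs_of_nonneg ht0]; exact h4) (by rw [abs_of_nonneg ht0]; exact h5)
        (mul_nonneg ht0 h0')
      exact ⟨h7.1, h7.2.1, h7.2.2.1, h7.2.2.2, h6⟩
    · simp only [T, if_neg h0] at ht
      obtain ⟨h4, h5, h6⟩ := ap_mem hD ht
      have ht0 : (t : ℝ) ≤ 0 := by linarith
      have h0' : (g i₀ : ℝ) ≤ 0 := by
        have : g i₀ ≤ 0 := by omega
        exact_mod_cast this
      have h7 := h3 t (by rw [abs_of_nonpos ht0]; change Lo b ≤ -(t : ℝ); linarith)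
        (by rw [abs_of_nonpos ht0]; change -(t : ℝ) ≤ Up b; linarith)
        (mul_nonneg_of_nonpos_of_nonpos ht0 h0')
      exact ⟨h7.1, h7.2.1, h7.2.2.1, h7.2.2.2, h6⟩
  have hTcard : ∀ a₀ b, b ∈ P a₀ → 1 / 5 * η * (M / D) ≤ ((T a₀ b).card : ℝ) := by
    intro a₀ b hb
    obtain ⟨-, h2, -⟩ := hlast a₀ b hb
    have h3 : (3 / 10 * η * M) / D - 1 ≤ ((T a₀ b).card : ℝ) := by
      have h4 : (Up b - Lo b) / D - 1 ≤ ((T a₀ b).card : ℝ) := by
        by_cases h0 : 0 ≤ g i₀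
        · simp only [T, if_pos h0]
          exact ap_card _ _ _ hD
        · simp only [T, if_neg h0]
          have := ap_card (-Up b) (-Lo b) (a₀ i₀) hD
          have h5 : -Lo b - -Up b = Up b - Lo b := by ring
          rw [h5] at this
          exact this
      refine le_trans ?_ h4
      have h6 : (3 / 10 * η * M) / D ≤ (Up b - Lo b) / D :=
        div_le_div_of_nonneg_right h2 hD'.le
      linarith
    refine le_trans ?_ h3
    have h7 : 1 ≤ 1 / 10 * η * (M / D) := by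
      have h8 : 1 / 10 * η * (M / D) = (M * η) / (10 * D) := by
        field_simp
      rw [h8, le_div_iff₀ (by positivity)]
      linarith
    have h9 : (3 / 10 * η * M) / D = 3 / 10 * η * (M / D) := by ring
    rw [h9]
    linarith
  have hPcard : ∀ a₀, (s' * (M / D)) ^ (n - 1) ≤ ((P a₀).card : ℝ) := by
    intro a₀
    have h1 : ((P a₀).card : ℝ) = ∏ j, (((if j = i₀ then ({g i₀} : Finset ℤ) else
        ap ((g j : ℝ) - s' * M) ((g j : ℝ) + s' * M) (a₀ j) D)).card : ℝ) := by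
      have h2 : (P a₀).card = ∏ j, ((if j = i₀ then ({g i₀} : Finset ℤ) else
        ap ((g j : ℝ) - s' * M) ((g j : ℝ) + s' * M) (a₀ j) D)).card := Fintype.card_piFinset _
      rw [h2]
      push_cast
      rfl
    rw [h1]
    have h2 : (s' * (M / D)) ^ (n - 1) = ∏ j : Fin n, (if j = i₀ then (1 : ℝ) else s' * (M / D)) := by
      rw [← Finset.mul_prod_erase univ _ (Finset.mem_univ i₀), if_pos rfl, one_mul]
      rw [Finset.prod_congr rfl (g := fun _ => s' * ((M : ℝ) / D))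
        (fun j hj => if_neg (Finset.ne_of_mem_erase hj)), Finset.prod_const,
        Finset.card_erase_of_mem (Finset.mem_univ _), Finset.card_univ, Fintype.card_fin]
    rw [h2]
    refine Finset.prod_le_prod (fun j _ => ?_) (fun j _ => ?_)
    · split_ifs <;> positivity
    · by_cases hj : j = i₀
      · rw [if_pos hj, if_pos hj]
        simp
      · rw [if_neg hj, if_neg hj]
        refine le_trans ?_ (ap_card _ _ _ hD)
        have h3 : ((g j : ℝ) + s' * M - ((g j : ℝ) - s' * M)) / D = 2 * (s' * (M / D)) := by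
          ring
        rw [h3]
        have h4 : 1 ≤ s' * (M / D) := by
          have h5 : s' * ((M : ℝ) / D) = (M * s') / D := by ring
          rw [h5, le_div_iff₀ hD']
          linarith
        linarith
  -- the big set
  let S : Finset (Σ _ : Fin n → ℤ, Σ _ : Fin n → ℤ, ℤ) :=
    (resid n D).sigma fun a₀ => (P a₀).sigma fun b => T a₀ b
  let F : (Σ _ : Fin n → ℤ, Σ _ : Fin n → ℤ, ℤ) → (Fin n → ℤ) := fun x =>
    Function.update x.2.1 i₀ x.2.2
  set Z := (box n (2 * M)).filter fun a => (∀ i, |(a i : ℝ) - g i| ≤ s * M) ∧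
            (1 - 4 / 5 * η) * (M : ℝ) ^ 2 ≤ (nsq a : ℝ) ∧
            (nsq a : ℝ) ≤ (1 - η / 5) * (M : ℝ) ^ 2 ∧ (D : ℤ) ∣ nsq a with hZ
  have hmod : ∀ x ∈ S, ∀ i, (D : ℤ) ∣ F x i - x.1 i := by
    rintro ⟨a₀, b, t⟩ hx i
    simp only [S, Finset.mem_sigma] at hx
    obtain ⟨h1, h2, h3⟩ := hx
    by_cases hi : i = i₀
    · subst hi
      simp only [F, Function.update_self]
      exact (hT a₀ b h2 t h3).2.2.2.2
    · simp only [F, Function.update_of_ne hi]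
      exact (hPj a₀ b h2 i hi).2
  have hmaps : ∀ x ∈ S, F x ∈ Z := by
    intro x hx
    have hm := hmod x hx
    obtain ⟨a₀, b, t⟩ := x
    simp only [S, Finset.mem_sigma] at hx
    obtain ⟨h1, h2, h3⟩ := hx
    obtain ⟨t1, t2, t3, t4, t5⟩ := hT a₀ b h2 t h3
    have hF : F ⟨a₀, b, t⟩ = Function.update b i₀ t := rfl
    have hnear : ∀ i, |((F ⟨a₀, b, t⟩ i : ℤ) : ℝ) - g i| ≤ s * M := by
      intro i
      rw [hF]
      by_cases hi : i = i₀
      · subst hi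
        rw [Function.update_self]
        exact t1
      · rw [Function.update_of_ne hi]
        refine (hPj a₀ b h2 i hi).1.trans ?_
        exact mul_le_mul_of_nonneg_right hs's hMpos.le
    have hbox : ∀ i, |((F ⟨a₀, b, t⟩ i : ℤ) : ℝ)| ≤ 2 * M := by
      intro i
      rw [hF]
      by_cases hi : i = i₀
      · subst hi
        rw [Function.update_self]
        linarith
      · rw [Function.update_of_ne hi]
        have h5 := (hPj a₀ b h2 i hi).1
        have h6 := hgj i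
        have h7 : |(b i : ℝ)| ≤ |(b i : ℝ) - g i| + |(g i : ℝ)| := by
          have := abs_add_le ((b i : ℝ) - g i) (g i)
          rwa [sub_add_cancel] at this
        nlinarith
    have hnsq : ((nsq (F ⟨a₀, b, t⟩) : ℤ) : ℝ) = (t : ℝ) ^ 2 + sg b := by
      rw [hF, nsq_update]
      push_cast
      rfl
    rw [hZ, Finset.mem_filter]
    refine ⟨?_, hnear, ?_, ?_, ?_⟩
    · unfold box
      rw [Fintype.mem_piFinset]
      intro i
      rw [Finset.mem_Icc]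
      have h8 := abs_le.1 (hbox i)
      constructor
      · have : -((2 * M : ℕ) : ℝ) ≤ ((F ⟨a₀, b, t⟩ i : ℤ) : ℝ) := by
          push_cast
          linarith [h8.1]
        exact_mod_cast this
      · have : ((F ⟨a₀, b, t⟩ i : ℤ) : ℝ) ≤ ((2 * M : ℕ) : ℝ) := by
          push_cast
          linarith [h8.2]
        exact_mod_cast this
    · rw [hnsq]
      linarith
    · rw [hnsq]
      linarith
    · refine nsq_modEq hm ?_
      unfold resid at h1
      exact (Finset.mem_filter.1 h1).2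
  have hinj : Set.InjOn F S := by
    intro x hx y hy hxy
    have hmx := hmod x (Finset.mem_coe.1 hx)
    have hmy := hmod y (Finset.mem_coe.1 hy)
    obtain ⟨a₀, b, t⟩ := x
    obtain ⟨a₁, b', t'⟩ := y
    simp only [S, Finset.mem_coe, Finset.mem_sigma] at hx hy
    have ha : a₀ = a₁ := by
      funext i
      have h1 : (D : ℤ) ∣ a₀ i - a₁ i := by
        have h2 := dvd_sub (hmy i) (hmx i)
        rw [← hxy] at h2
        have h3 : F ⟨a₀, b, t⟩ i - a₁ i - (F ⟨a₀, b, t⟩ i - a₀ i) = a₀ i - a₁ i := by ring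
        simp only at h2
        rw [h3] at h2
        exact h2
      have h4 := Fintype.mem_piFinset.1 (Finset.mem_filter.1 (show a₀ ∈ resid n D from hx.1)).1 i
      have h5 := Fintype.mem_piFinset.1 (Finset.mem_filter.1 (show a₁ ∈ resid n D from hy.1)).1 i
      rw [Finset.mem_Ico] at h4 h5
      have h6 : |a₀ i - a₁ i| < D := by
        rw [abs_lt]
        constructor <;> omega
      have h7 := Int.eq_zero_of_abs_lt_dvd h1 h6
      omega
    subst ha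
    have hb : b = b' := by
      funext i
      by_cases hi : i = i₀
      · rw [hi, hPi a₀ b hx.2.1, hPi a₀ b' hy.2.1]
      · have := congrFun hxy i
        simp only [F, Function.update_of_ne hi] at this
        exact this
    subst hb
    have ht : t = t' := by
      have := congrFun hxy i₀
      simp only [F, Function.update_self] at this
      exact this
    rw [ht]
  have hcard : S.card ≤ Z.card := Finset.card_le_card_of_injOn F (fun x hx => hmaps x hx) hinj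
  have hcard' : (S.card : ℝ) ≤ (Z.card : ℝ) := by exact_mod_cast hcard
  refine le_trans ?_ hcard'
  have hS : (S.card : ℝ) = ∑ a₀ ∈ resid n D, ∑ b ∈ P a₀, ((T a₀ b).card : ℝ) := by
    have : S.card = ∑ a₀ ∈ resid n D, ∑ b ∈ P a₀, (T a₀ b).card := by
      simp only [S, Finset.card_sigma]
    rw [this]
    push_cast
    rfl
  rw [hS]
  have h1 : ∑ _a₀ ∈ resid n D, (s' * ((M : ℝ) / D)) ^ (n - 1) * (1 / 5 * η * (M / D)) ≤
      ∑ a₀ ∈ resid n D, ∑ b ∈ P a₀, ((T a₀ b).card : ℝ) := by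
    refine Finset.sum_le_sum fun a₀ _ => ?_
    calc (s' * ((M : ℝ) / D)) ^ (n - 1) * (1 / 5 * η * (M / D))
        ≤ ((P a₀).card : ℝ) * (1 / 5 * η * (M / D)) :=
          mul_le_mul_of_nonneg_right (hPcard a₀) (by positivity)
      _ = ∑ _b ∈ P a₀, (1 / 5 * η * ((M : ℝ) / D)) := by rw [Finset.sum_const, nsmul_eq_mul]
      _ ≤ _ := Finset.sum_le_sum fun b hb => hTcard a₀ b hb
  refine le_trans (le_of_eq ?_) h1
  rw [Finset.sum_const, nsmul_eq_mul]
  have h2 : (M : ℝ) ^ n / (D : ℝ) ^ n = ((M : ℝ) / D) ^ (n - 1) * (M / D) := by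
    rw [← div_pow, ← pow_succ, Nat.sub_add_cancel hn]
  rw [h2, mul_pow]
  ring

end Pool.Agent.H18.QR
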