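import Mathlib

/-!
# Project QR (MP_79d6cb_co): basic definitions

`e x = exp(2 pi i x)`, integer boxes and spheres in `Z^n`, the point `a / L` of `Q^n`,
unitary actions of `Q^n` and box averages.
-/

namespace Pool.Agent.H18.QR

open Finset

/-- `e(x) = exp(2 pi i x)`. -/
noncomputable def e (x : ℝ) : ℂ := Complex.exp (2 * Real.pi * Complex.I * x)

/-- Squared length of an integer vector. -/
def nsq {n : ℕ} (a : Fin n → ℤ) : ℤ := ∑ i, a i ^ 2

/-- Dot product of an integer vector and a real vector. -/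
def dotR {n : ℕ} (a : Fin n → ℤ) (θ : Fin n → ℝ) : ℝ := ∑ i, (a i : ℝ) * θ i

/-- The box of all integer vectors with coordinates of absolute value at most `R`. -/
noncomputable def box (n R : ℕ) : Finset (Fin n → ℤ) := Fintype.piFinset fun _ => Finset.Icc (-(R : ℤ)) R

/-- The integer vectors of squared length `N`. -/
noncomputable def sph (n N : ℕ) : Finset (Fin n → ℤ) := (box n N).filter fun a => nsq a = N

/-- Representatives in `[0, D)^n` of the residue classes modulo `D` whose squared length is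
divisible by `D`. -/
noncomputable def resid (n D : ℕ) : Finset (Fin n → ℤ) :=
  (Fintype.piFinset fun _ => Finset.Ico (0 : ℤ) D).filter fun a => (D : ℤ) ∣ nsq a

/-- Bounded real functions on `Q^n`. -/
def BF (n : ℕ) : Subalgebra ℝ ((Fin n → ℚ) → ℝ) where
  carrier := {f | ∃ C : ℝ, ∀ x, |f x| ≤ C}
  mul_mem' := by
    rintro f g ⟨C, hC⟩ ⟨C', hC'⟩
    refine ⟨C * C', fun x => ?_⟩
    rw [Pi.mul_apply, abs_mul]
    exact mul_le_mul (hC x) (hC' x) (abs_nonneg _) ((abs_nonneg _).trans (hC x))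
  add_mem' := by
    rintro f g ⟨C, hC⟩ ⟨C', hC'⟩
    exact ⟨C + C', fun x => (abs_add_le _ _).trans (add_le_add (hC x) (hC' x))⟩
  algebraMap_mem' := fun r => ⟨|r|, fun x => le_of_eq rfl⟩

/-- Translation of a bounded function. -/
def BF.shift {n : ℕ} (v : Fin n → ℚ) (f : BF n) : BF n :=
  ⟨fun x => f.1 (x + v), f.2.imp fun _ hC x => hC (x + v)⟩

/-- The trigonometric polynomial `sum of e(a . θ)` over the integer vectors `a` with `|a|^2 = N`. -/
noncomputable def TN {n : ℕ} (N : ℕ) (θ : Fin n → ℝ) : ℂ := ∑ a ∈ sph n N, e (dotR a θ)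

/-- The theta sum `sum over a in Z of exp(-pi a^2/M^2) e(α a^2 + θ a)`. -/
noncomputable def th (M : ℕ) (α θ : ℝ) : ℂ :=
  ∑' a : ℤ, Complex.exp (-(Real.pi : ℂ) * (a : ℂ) ^ 2 / (M : ℂ) ^ 2 +
    2 * Real.pi * Complex.I * (α * (a : ℂ) ^ 2 + θ * a))

/-- The point `a / L` of `Q^n`. -/
def pt {n : ℕ} (L : ℕ) (a : Fin n → ℤ) : Fin n → ℚ := fun i => (a i : ℚ) / L

/-- A unitary action of the group `Q^n` on a real (semi-)inner product space, with the
operator norm bound for trigonometric polynomials (this bound holds for every such action, but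
we only prove it for the action we use, and therefore keep it as a field). -/
structure Act (n : ℕ) (H : Type*) [SeminormedAddCommGroup H] [InnerProductSpace ℝ H] where
  T : (Fin n → ℚ) → H →ₗ[ℝ] H
  zero : ∀ f, T 0 f = f
  add : ∀ u v f, T (u + v) f = T u (T v f)
  norm : ∀ v f, ‖T v f‖ = ‖f‖
  herg : ∀ (M : ℕ), 0 < M → ∀ (S : Finset (Fin n → ℤ)) (c : (Fin n → ℤ) → ℝ) (ε : ℝ),
    (∀ θ : Fin n → ℝ, ‖∑ a ∈ S, (c a : ℂ) * e (dotR a θ)‖ ≤ ε) →
    ∀ f : H, |∑ a ∈ S, c a * inner ℝ (T (pt M a) f) f| ≤ ε * ‖f‖ ^ 2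

variable {n : ℕ} {H : Type*} [SeminormedAddCommGroup H] [InnerProductSpace ℝ H]

/-- Average of the translations `T (b / L)` over the box `|b| ≤ R`. -/
noncomputable def Act.B (A : Act n H) (L R : ℕ) : H →ₗ[ℝ] H :=
  (((2 * R + 1 : ℕ) : ℝ) ^ n)⁻¹ • ∑ b ∈ box n R, A.T (pt L b)

/-- The square of the box average. -/
noncomputable def Act.W (A : Act n H) (L R : ℕ) : H →ₗ[ℝ] H := (A.B L R) ∘ₗ (A.B L R)

end Pool.Agent.H18.QR
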