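import Pool.Agent.H18.QR.Tower

/-!
# QR-13: a scale at which smoothing changes nothing

For `N | L`, `N > 0` put `E N L = sum_i ‖B L (L/N) (f i)‖^2` (in `[0,k]`) and let `e_N` be the infimum of
`E N L` over all `L > 0` with `N | L`.
(T) If `N | L`, `N' | L'`, `L | L'`, `0 < N' ≤ N`, then with `B = B L (L/N)`, `B' = B L' (L'/N')`, `L' = L t`,
`B_tower` gives `‖B' B f - B' f‖ ≤ 2 n (L/N) t/(2 L'/N' + 1) ≤ n N'/N =: τ` for `‖f‖ ≤ 1`.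
So `‖B' f‖ ≤ ‖B f‖ + τ` and `E N' L' ≤ E N L + 3 k τ` (if `τ ≤ 1`).
(D) `‖W f - W' f‖^2 ≤ ‖B f‖^2 - ‖B' f‖^2 + 4 τ` where `W = B B`, `W' = B' B'`: indeed
`‖Wf‖ ≤ ‖Bf‖`, `‖W'f‖ ≤ ‖B'f‖` and `inner (Wf) (W'f) = inner (W' W f) f`, `‖W' W f - W' f‖ ≤ 2 τ` (apply
`B_tower` twice, using that all `B` commute and are contractions), `inner (W' f) f = ‖B' f‖^2`.
Let `N_0 = 1`, `N_{j+1} ≥ max(Φ N_j, N_j, C n k N_j/ε^2)` with `C` large (so that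
`3kτ, 4kτ ≤ ε^2/8` for consecutive ones). By pigeonhole (`e_{N_{2J}} ≤ k`, all `e ≥ 0`)
there is `j` with `e_{N_{j+2}} ≤ e_{N_j} + ε^2/8`. Put `N' = N_j`, `N = N_{j+1}`; choose `L₀` divisible by
`N_j N_{j+1} N_{j+2}` with `E N_{j+2} L₀ ≤ e_{N_{j+2}} + ε^2/4` [take `L₁` with `N_{j+2} | L₁` nearly
attaining the infimum; multiples are only slightly worse by (T)... simply use `L₁` itself in (T) and
let `L₀ = L₁ N_j N_{j+1}`]. For `L₀ | L | M`: by (T) (with `N_{j+1}`, `L` against `N_{j+2}`, `L₁`)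
`E N L ≤ E N_{j+2} L₁ + ε^2/8 ≤ e_{N_j} + ε^2/2`, and `E N' M ≥ e_{N'}`; sum (D) over `i`:
`sum_i ‖W f_i - W' f_i‖^2 ≤ E N L - E N' M + 4kτ ≤ ε^2`.
-/

namespace Pool.Agent.H18.QR

open Finset

variable {n : ℕ} {H : Type*} [SeminormedAddCommGroup H] [InnerProductSpace ℝ H]

theorem en_tower (A : Act n H) {N L N' L' : ℕ} (hN' : 0 < N') (hL' : 0 < L') (hNL : N ∣ L)
    (hN'L' : N' ∣ L') (hLL' : L ∣ L') (f : H) :
    ‖A.B L' (L' / N') (A.B L (L / N) f) - A.B L' (L' / N') f‖ ≤ (n : ℝ) * N' / N * ‖f‖ := by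
  obtain ⟨t, rfl⟩ := hLL'
  have hL : 0 < L := Nat.pos_of_ne_zero (by
    rintro rfl
    simp at hL')
  have ht : 0 < t := Nat.pos_of_ne_zero (by
    rintro rfl
    simp at hL')
  obtain ⟨a, rfl⟩ := hNL
  have hN : 0 < N := Nat.pos_of_ne_zero (by
    rintro rfl
    simp at hL)
  obtain ⟨b, hb⟩ := hN'L'
  have hR : N * a / N = a := Nat.mul_div_cancel_left a hN
  have hR' : N * a * t / N' = b := by
    rw [hb]
    exact Nat.mul_div_cancel_left b hN'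
  rw [hR, hR']
  refine (B_tower A (N * a) t a b hL ht f).trans ?_
  apply mul_le_mul_of_nonneg_right _ (norm_nonneg _)
  have hNr : (0 : ℝ) < N := by exact_mod_cast hN
  have hbr : (N : ℝ) * a * t = N' * b := by exact_mod_cast hb
  rw [div_le_div_iff₀ (by positivity) hNr]
  calc 2 * (n : ℝ) * (a * t) * N = 2 * n * (N * a * t) := by ring
    _ = 2 * n * (N' * b) := by rw [hbr]
    _ ≤ n * N' * (2 * b + 1) := by
      have : (0 : ℝ) ≤ n * N' := by positivity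
      nlinarith

/-- (T) for one vector -/
theorem en_T (A : Act n H) {N L N' L' : ℕ} (hN' : 0 < N') (hL' : 0 < L') (hNL : N ∣ L)
    (hN'L' : N' ∣ L') (hLL' : L ∣ L') {f : H} (hf : ‖f‖ ≤ 1) {τ : ℝ} (hτ0 : 0 ≤ τ)
    (hτ : (n : ℝ) * N' / N ≤ τ) (hτ1 : τ ≤ 1) :
    ‖A.B L' (L' / N') f‖ ^ 2 ≤ ‖A.B L (L / N) f‖ ^ 2 + 3 * τ := by
  have h1 := en_tower A hN' hL' hNL hN'L' hLL' f
  have h2 : (n : ℝ) * N' / N * ‖f‖ ≤ τ := by
    calc (n : ℝ) * N' / N * ‖f‖ ≤ τ * 1 := mul_le_mul hτ hf (norm_nonneg _) hτ0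
      _ = τ := mul_one τ
  have h3 : ‖A.B L' (L' / N') f‖ ≤ ‖A.B L (L / N) f‖ + τ := by
    have h4 := norm_sub_norm_le (A.B L' (L' / N') f) (A.B L' (L' / N') (A.B L (L / N) f))
    rw [norm_sub_rev] at h4
    have h5 := norm_B_le A L' (L' / N') (A.B L (L / N) f)
    linarith
  have h6 : ‖A.B L (L / N) f‖ ≤ 1 := (norm_B_le A L (L / N) f).trans hf
  have h7 := norm_nonneg (A.B L' (L' / N') f)
  have h8 := norm_nonneg (A.B L (L / N) f)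
  nlinarith

/-- (D) for one vector -/
theorem en_D (A : Act n H) {N L N' L' : ℕ} (hN' : 0 < N') (hL' : 0 < L') (hNL : N ∣ L)
    (hN'L' : N' ∣ L') (hLL' : L ∣ L') {f : H} (hf : ‖f‖ ≤ 1) {τ : ℝ} (hτ0 : 0 ≤ τ)
    (hτ : (n : ℝ) * N' / N ≤ τ) :
    ‖A.W L (L / N) f - A.W L' (L' / N') f‖ ^ 2 ≤
      ‖A.B L (L / N) f‖ ^ 2 - ‖A.B L' (L' / N') f‖ ^ 2 + 4 * τ := by
  set B := A.B L (L / N) with hB
  set B' := A.B L' (L' / N') with hB'
  have hW : A.W L (L / N) f = B (B f) := rfl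
  have hW' : A.W L' (L' / N') f = B' (B' f) := rfl
  rw [hW, hW', norm_sub_sq_real]
  have c1 : ∀ g, ‖B g‖ ≤ ‖g‖ := norm_B_le A _ _
  have c2 : ∀ g, ‖B' g‖ ≤ ‖g‖ := norm_B_le A _ _
  have s1 : ∀ g h, inner ℝ (B g) h = inner ℝ g (B h) := inner_B A _ _
  have s2 : ∀ g h, inner ℝ (B' g) h = inner ℝ g (B' h) := inner_B A _ _
  have cm : ∀ g, B (B' g) = B' (B g) := B_comm A _ _ _ _
  set X := B' (B f) - B' f with hX
  have hXn : ‖X‖ ≤ τ := by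
    have h1 := en_tower A hN' hL' hNL hN'L' hLL' f
    rw [← hB, ← hB', ← hX] at h1
    calc ‖X‖ ≤ (n : ℝ) * N' / N * ‖f‖ := h1
      _ ≤ τ * 1 := mul_le_mul hτ hf (norm_nonneg _) hτ0
      _ = τ := mul_one τ
  have hBB : B' (B f) = B' f + X := by
    rw [hX]
    abel
  have h1 : inner ℝ (B (B f)) (B' (B' f)) = inner ℝ f (B' (B' f)) +
      (inner ℝ f (B' X) + inner ℝ f (B' (B X))) := by
    have e1 : B (B (B' (B' f))) = B' (B' f) + (B' X + B' (B X)) := by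
      rw [cm (B' f), cm f, hBB, cm (B' f + X), map_add B, cm f, hBB, map_add B', map_add B']
      abel
    rw [s1, s1, e1, inner_add_right, inner_add_right]
  have h2 : inner ℝ f (B' (B' f)) = ‖B' f‖ ^ 2 := by
    rw [← s2, real_inner_self_eq_norm_sq]
  have h3 : -τ ≤ inner ℝ f (B' X) := by
    have h := abs_real_inner_le_norm f (B' X)
    have h' : ‖f‖ * ‖B' X‖ ≤ 1 * τ :=
      mul_le_mul hf ((c2 X).trans hXn) (norm_nonneg _) (by norm_num)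
    have := neg_abs_le (inner ℝ f (B' X))
    linarith
  have h4 : -τ ≤ inner ℝ f (B' (B X)) := by
    have h := abs_real_inner_le_norm f (B' (B X))
    have h' : ‖f‖ * ‖B' (B X)‖ ≤ 1 * τ :=
      mul_le_mul hf ((c2 _).trans ((c1 X).trans hXn)) (norm_nonneg _) (by norm_num)
    have := neg_abs_le (inner ℝ f (B' (B X)))
    linarith
  have h5 : ‖B (B f)‖ ^ 2 ≤ ‖B f‖ ^ 2 := pow_le_pow_left₀ (norm_nonneg _) (c1 _) 2
  have h6 : ‖B' (B' f)‖ ^ 2 ≤ ‖B' f‖ ^ 2 := pow_le_pow_left₀ (norm_nonneg _) (c2 _) 2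
  rw [h1, h2]
  linarith

/-- the energy -/
noncomputable def En (A : Act n H) {k : ℕ} (f : Fin k → H) (N L : ℕ) : ℝ :=
  ∑ i, ‖A.B L (L / N) (f i)‖ ^ 2

theorem En_nonneg (A : Act n H) {k : ℕ} (f : Fin k → H) (N L : ℕ) : 0 ≤ En A f N L :=
  Finset.sum_nonneg fun _ _ => sq_nonneg _

theorem En_le (A : Act n H) {k : ℕ} (f : Fin k → H) (hf : ∀ i, ‖f i‖ ≤ 1) (N L : ℕ) :
    En A f N L ≤ k := by
  unfold En
  calc ∑ i, ‖A.B L (L / N) (f i)‖ ^ 2 ≤ ∑ _i : Fin k, (1 : ℝ) := by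
        refine Finset.sum_le_sum fun i _ => ?_
        have h1 : ‖A.B L (L / N) (f i)‖ ≤ 1 := (norm_B_le A _ _ _).trans (hf i)
        exact pow_le_one₀ (norm_nonneg _) h1
    _ = k := by simp

/-- the infimum of the energy -/
noncomputable def eN (A : Act n H) {k : ℕ} (f : Fin k → H) (N : ℕ) : ℝ :=
  sInf {x : ℝ | ∃ L : ℕ, 0 < L ∧ N ∣ L ∧ x = En A f N L}

theorem eN_le (A : Act n H) {k : ℕ} (f : Fin k → H) {N L : ℕ} (hL : 0 < L) (hNL : N ∣ L) :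
    eN A f N ≤ En A f N L := by
  refine csInf_le ⟨0, ?_⟩ ⟨L, hL, hNL, rfl⟩
  rintro x ⟨L', _, _, rfl⟩
  exact En_nonneg A f N L'

theorem eN_nonneg (A : Act n H) {k : ℕ} (f : Fin k → H) {N : ℕ} (hN : 0 < N) : 0 ≤ eN A f N := by
  refine le_csInf ⟨_, N, hN, dvd_rfl, rfl⟩ ?_
  rintro x ⟨L', _, _, rfl⟩
  exact En_nonneg A f N L'

theorem eN_attain (A : Act n H) {k : ℕ} (f : Fin k → H) {N : ℕ} (hN : 0 < N) {δ : ℝ} (hδ : 0 < δ) :
    ∃ L : ℕ, 0 < L ∧ N ∣ L ∧ En A f N L ≤ eN A f N + δ := by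
  obtain ⟨x, ⟨L, hL, hNL, rfl⟩, hx⟩ := exists_lt_of_csInf_lt
    (s := {x : ℝ | ∃ L : ℕ, 0 < L ∧ N ∣ L ∧ x = En A f N L}) ⟨_, N, hN, dvd_rfl, rfl⟩
    (show sInf {x : ℝ | ∃ L : ℕ, 0 < L ∧ N ∣ L ∧ x = En A f N L} < eN A f N + δ by
      change eN A f N < eN A f N + δ
      linarith)
  exact ⟨L, hL, hNL, hx.le⟩

/-- iteration of a function -/
def seqN (g : ℕ → ℕ) : ℕ → ℕ
  | 0 => 1
  | j + 1 => g (seqN g j)

theorem energy (A : Act n H) (k : ℕ) (f : Fin k → H) (hf : ∀ i, ‖f i‖ ≤ 1) (ε : ℝ)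
    (hε : 0 < ε) (Φ : ℕ → ℕ) :
    ∃ N' N L₀ : ℕ, 0 < N' ∧ 0 < N ∧ 0 < L₀ ∧ Φ N' ≤ N ∧ N ∣ L₀ ∧ N' ∣ L₀ ∧
      ∀ L M : ℕ, 0 < M → L₀ ∣ L → L ∣ M → ∀ i,
        ‖A.W L (L / N) (f i) - A.W M (M / N') (f i)‖ ≤ ε := by
  -- the step size
  set δ : ℝ := min 1 (ε ^ 2 / (32 * (k + 1))) with hδ
  have hk1 : (0 : ℝ) < k + 1 := by positivity
  have hδ0 : 0 < δ := lt_min one_pos (by positivity)
  have hδ1 : δ ≤ 1 := min_le_left _ _
  have hδk : 4 * k * δ ≤ ε ^ 2 / 8 := by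
    have h1 : δ ≤ ε ^ 2 / (32 * (k + 1)) := min_le_right _ _
    have h2 : 4 * (k : ℝ) * δ ≤ 4 * (k + 1) * (ε ^ 2 / (32 * (k + 1))) :=
      mul_le_mul (by linarith) h1 hδ0.le (by positivity)
    refine h2.trans (le_of_eq ?_)
    field_simp
    norm_num
  have hδk3 : 3 * k * δ ≤ ε ^ 2 / 8 := by
    have : (0 : ℝ) ≤ k * δ := by positivity
    linarith
  -- the sequence
  obtain ⟨g, hg⟩ : ∃ g : ℕ → ℕ, ∀ m : ℕ, g m = max (Φ m) (max 1 ⌈(n : ℝ) * (m : ℝ) / δ⌉₊) :=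
    ⟨_, fun _ => rfl⟩
  obtain ⟨s, hs1, hs2⟩ : ∃ s : ℕ → ℕ, s 0 = 1 ∧ ∀ j, s (j + 1) = g (s j) :=
    ⟨seqN g, rfl, fun _ => rfl⟩
  have hs0 : ∀ j, 0 < s j := by
    intro j
    cases j with
    | zero =>
      rw [hs1]
      exact Nat.one_pos
    | succ j =>
      rw [hs2, hg]
      exact lt_of_lt_of_le Nat.one_pos ((le_max_left _ _).trans (le_max_right _ _))
  have hsΦ : ∀ j, Φ (s j) ≤ s (j + 1) := by
    intro j
    rw [hs2, hg]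
    exact le_max_left _ _
  have hsδ : ∀ j : ℕ, (n : ℝ) * ((s j : ℕ) : ℝ) / ((s (j + 1) : ℕ) : ℝ) ≤ δ := by
    intro j
    have h1 : (n : ℝ) * ((s j : ℕ) : ℝ) / δ ≤ ((s (j + 1) : ℕ) : ℝ) := by
      refine (Nat.le_ceil _).trans ?_
      rw [hs2, hg]
      exact_mod_cast (le_max_right 1 ⌈(n : ℝ) * ((s j : ℕ) : ℝ) / δ⌉₊).trans
        (le_max_right (Φ (s j)) (max 1 ⌈(n : ℝ) * ((s j : ℕ) : ℝ) / δ⌉₊))
    have h2 : (0 : ℝ) < ((s (j + 1) : ℕ) : ℝ) := by exact_mod_cast hs0 (j + 1)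
    rw [div_le_iff₀ hδ0] at h1
    rw [div_le_iff₀ h2]
    linarith
  -- pigeonhole
  have hpig : ∃ j, eN A f (s (j + 2)) ≤ eN A f (s j) + ε ^ 2 / 8 := by
    by_contra hcon
    push Not at hcon
    have hind : ∀ i : ℕ, (i : ℝ) * (ε ^ 2 / 8) ≤ eN A f (s (2 * i)) := by
      intro i
      induction i with
      | zero => simpa using eN_nonneg A f (hs0 0)
      | succ i ih =>
        have h1 := hcon (2 * i)
        rw [show 2 * (i + 1) = 2 * i + 2 by ring]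
        push_cast
        linarith
    obtain ⟨i, hi⟩ := exists_nat_gt ((k : ℝ) / (ε ^ 2 / 8))
    have h1 := hind i
    have h2 : eN A f (s (2 * i)) ≤ k :=
      (eN_le A f (hs0 (2 * i)) dvd_rfl).trans (En_le A f hf _ _)
    rw [div_lt_iff₀ (by positivity)] at hi
    linarith
  obtain ⟨j, hj⟩ := hpig
  obtain ⟨L₁, hL₁, hdvd, hE⟩ := eN_attain A f (hs0 (j + 2)) (show (0 : ℝ) < ε ^ 2 / 4 by positivity)
  refine ⟨s j, s (j + 1), L₁ * s j * s (j + 1), hs0 j, hs0 (j + 1), ?_, hsΦ j,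
    dvd_mul_left _ _, ?_, ?_⟩
  · exact Nat.mul_pos (Nat.mul_pos hL₁ (hs0 j)) (hs0 (j + 1))
  · exact (dvd_mul_left _ _).trans (dvd_mul_right _ _)
  intro L M hM hL₀ hLM i
  have hL : 0 < L := Nat.pos_of_dvd_of_pos hLM hM
  have d1 : L₁ ∣ L := ((dvd_mul_right _ _).trans (dvd_mul_right _ _)).trans hL₀
  have d2 : s (j + 1) ∣ L := (dvd_mul_left _ _).trans hL₀
  have d3 : s j ∣ L := ((dvd_mul_left _ _).trans (dvd_mul_right _ _)).trans hL₀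
  have d4 : s j ∣ M := d3.trans hLM
  -- energies
  have t1 : En A f (s (j + 1)) L ≤ En A f (s (j + 2)) L₁ + 3 * k * δ := by
    unfold En
    have h1 : ∀ i ∈ (Finset.univ : Finset (Fin k)), ‖A.B L (L / s (j + 1)) (f i)‖ ^ 2 ≤
        ‖A.B L₁ (L₁ / s (j + 2)) (f i)‖ ^ 2 + 3 * δ := by
      intro i _
      exact en_T A (hs0 (j + 1)) hL hdvd d2 d1 (hf i) hδ0.le (hsδ (j + 1)) hδ1
    refine (Finset.sum_le_sum h1).trans (le_of_eq ?_)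
    rw [Finset.sum_add_distrib, Finset.sum_const, Finset.card_univ, Fintype.card_fin, nsmul_eq_mul]
    ring
  have t2 : eN A f (s j) ≤ En A f (s j) M := eN_le A f hM d4
  have t3 : ∑ i, ‖A.W L (L / s (j + 1)) (f i) - A.W M (M / s j) (f i)‖ ^ 2 ≤
      En A f (s (j + 1)) L - En A f (s j) M + 4 * k * δ := by
    unfold En
    have h1 : ∀ i ∈ (Finset.univ : Finset (Fin k)),
        ‖A.W L (L / s (j + 1)) (f i) - A.W M (M / s j) (f i)‖ ^ 2 ≤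
        (‖A.B L (L / s (j + 1)) (f i)‖ ^ 2 - ‖A.B M (M / s j) (f i)‖ ^ 2) + 4 * δ := by
      intro i _
      exact en_D A (hs0 j) hM d2 d4 hLM (hf i) hδ0.le (hsδ j)
    refine (Finset.sum_le_sum h1).trans (le_of_eq ?_)
    rw [Finset.sum_add_distrib, Finset.sum_sub_distrib, Finset.sum_const, Finset.card_univ,
      Fintype.card_fin, nsmul_eq_mul]
    ring
  have t4 : ‖A.W L (L / s (j + 1)) (f i) - A.W M (M / s j) (f i)‖ ^ 2 ≤
      ∑ i, ‖A.W L (L / s (j + 1)) (f i) - A.W M (M / s j) (f i)‖ ^ 2 :=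
    Finset.single_le_sum (f := fun i => ‖A.W L (L / s (j + 1)) (f i) - A.W M (M / s j) (f i)‖ ^ 2)
      (fun _ _ => sq_nonneg _) (Finset.mem_univ i)
  have t5 : ‖A.W L (L / s (j + 1)) (f i) - A.W M (M / s j) (f i)‖ ^ 2 ≤ ε ^ 2 := by
    have hε2 : 0 < ε ^ 2 := by positivity
    linarith
  exact (pow_le_pow_iff_left₀ (norm_nonneg _) hε.le two_ne_zero).1 t5

end Pool.Agent.H18.QR
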