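import Pool.Agent.H18.QR.Main
import Pool.Agent.H18.QR.Energy
import Pool.Agent.H18.QR.ActEx

/-!
# QR-21: finite unit distance graphs in `R^n`

Let `c` be a proper colouring of `Q^n` with `k` colours and `h : V → R^n` a finite point configuration.
If no colouring of `V` is proper for the unit distance graph of `h`, then `k ≥ 1`..., and with
`δ = 1/(2 k^3 |V|^2)` (or smaller):
take `H, A, ι, m` from `exists_act`, `f_i = ι (1_{c = i})`: `‖f_i‖^2 = m (1_{c=i}) ≤ 1`,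
`inner (T v f_i) f_i = m (1_{c(x+v) = i} 1_{c(x) = i}) ≥ 0`, and `= 0` if `|v| = 1`.
For each `N'` let `N₁(N'), D(N'), η(N')` be given by `main_est` (choice); apply `energy` with
`ε = δ/10`, `Φ = N₁` (or `max`): `N', N, L₀`. With `D = D(N')`, take `L` a large multiple of `L₀`,
`M = D L`. Let `W' = W M (M/N')`; `F_i = W'`-average of `1_{c=i}` as a function on `Q^n`:
nonnegative, `sum_i F_i = 1`, `W' f_i = ι F_i`. Put `g_v = floor (M h_v)` (coordinatewise). For `x` in `Q^n`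
colour `v` by an `i` with `F_i (x + g_v/M) ≥ 1/k`. This is not proper: for some `u, v` at distance
`1` and some `i`, `F_i (x+g_u/M) F_i (x+g_v/M) ≥ 1/k^2`. So
`1/k^2 ≤ sum_{(u,v)} sum_i F_i (x+g_u/M) F_i (x+g_v/M)` for every `x`; apply `m`:
`1/k^2 ≤ sum_{(u,v)} sum_i inner (T (g_u/M) ι F_i) (T (g_v/M) ι F_i) = sum sum inner (T ((g_u-g_v)/M) ι F_i) (ι F_i)`
`< |V|^2 k δ` by `main_est`, because `| |g_u - g_v|^2 - M^2 | ≤ η M^2` for large `M`. Contradiction.
-/

namespace Pool.Agent.H18.QR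

open Finset

/-- Box average of a bounded function. -/
noncomputable def avg {n : ℕ} (L R : ℕ) (f : BF n) : BF n :=
  (((2 * R + 1 : ℕ) : ℝ) ^ n)⁻¹ • ∑ b ∈ box n R, BF.shift (pt L b) f

theorem coe_sum_BF {n : ℕ} {α : Type*} (S : Finset α) (f : α → BF n) (x : Fin n → ℚ) :
    (∑ a ∈ S, f a : BF n).1 x = ∑ a ∈ S, (f a).1 x := by
  classical
  induction S using Finset.induction_on with
  | empty => simp
  | insert a S ha ih =>
    rw [Finset.sum_insert ha, Finset.sum_insert ha, ← ih]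
    rfl

theorem avg_apply {n : ℕ} (L R : ℕ) (f : BF n) (x : Fin n → ℚ) :
    (avg L R f).1 x = (((2 * R + 1 : ℕ) : ℝ) ^ n)⁻¹ * ∑ b ∈ box n R, f.1 (x + pt L b) := by
  have h1 : (avg L R f).1 x = (((2 * R + 1 : ℕ) : ℝ) ^ n)⁻¹ *
      (∑ b ∈ box n R, BF.shift (pt L b) f : BF n).1 x := rfl
  rw [h1, coe_sum_BF]
  rfl

theorem avg_partition {n k : ℕ} (L R : ℕ) (f : Fin k → BF n)
    (h0 : ∀ i x, 0 ≤ (f i).1 x) (h1 : ∀ x, ∑ i, (f i).1 x = 1) :
    (∀ i x, 0 ≤ (avg L R (f i)).1 x) ∧ ∀ x, ∑ i, (avg L R (f i)).1 x = 1 := by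
  refine ⟨fun i x => ?_, fun x => ?_⟩
  · rw [avg_apply]
    exact mul_nonneg (by positivity) (Finset.sum_nonneg fun b _ => h0 i _)
  · simp_rw [avg_apply]
    rw [← Finset.mul_sum, Finset.sum_comm]
    simp_rw [h1]
    rw [Finset.sum_const, card_box, nsmul_eq_mul, mul_one]
    push_cast
    rw [inv_mul_cancel₀]
    positivity

theorem pt_sub_add {n : ℕ} (M : ℕ) (a b : Fin n → ℤ) : pt M a = pt M b + pt M (a - b) := by
  funext i
  simp only [pt, Pi.add_apply, Pi.sub_apply]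
  push_cast
  ring

theorem finite_config {n : ℕ} (hn : 5 ≤ n) (k : ℕ) (c : (Fin n → ℚ) → Fin k)
    (hc : ∀ x y : Fin n → ℚ, ∑ i, (x i - y i) ^ 2 = 1 → c x ≠ c y)
    (V : Type) [Fintype V] (h : V → (Fin n → ℝ)) :
    ∃ col : V → Fin k, ∀ u v : V, ∑ i, (h u i - h v i) ^ 2 = 1 → col u ≠ col v := by
  classical
  by_contra hno
  push Not at hno
  have hk : 0 < k := Fin.pos (c 0)
  have hkR : (0 : ℝ) < k := by exact_mod_cast hk
  obtain ⟨u₀, -⟩ := hno fun _ => c 0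
  have hK : 0 < Fintype.card V := Fintype.card_pos_iff.2 ⟨u₀⟩
  obtain ⟨K, hKdef⟩ : ∃ K : ℕ, K = Fintype.card V := ⟨_, rfl⟩
  have hKR : (0 : ℝ) < K := by rw [hKdef]; exact_mod_cast hK
  obtain ⟨δ, hδdef⟩ : ∃ δ : ℝ, δ = 1 / (2 * (k : ℝ) ^ 3 * (K : ℝ) ^ 2) := ⟨_, rfl⟩
  have hδ : 0 < δ := by rw [hδdef]; positivity
  obtain ⟨H, i1, i2, A, ι, m, hmpos, hm1, hinner, hT⟩ := exists_act n
  -- monotonicity of m
  have hmono : ∀ f g : BF n, (∀ x, f.1 x ≤ g.1 x) → m f ≤ m g := by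
    intro f g hfg
    have h1 := hmpos (g - f) fun x => sub_nonneg.2 (hfg x)
    rw [map_sub] at h1
    linarith
  -- the indicators
  let fi : Fin k → BF n := fun i => ⟨fun x => if c x = i then 1 else 0, 1, fun x => by
    dsimp only
    split_ifs <;> simp⟩
  have hfi0 : ∀ i x, 0 ≤ (fi i).1 x := by
    intro i x
    show (0 : ℝ) ≤ if c x = i then 1 else 0
    split_ifs <;> norm_num
  have hfi1 : ∀ x, ∑ i, (fi i).1 x = 1 := by
    intro x
    show ∑ i, (if c x = i then (1 : ℝ) else 0) = 1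
    simp
  have hnorm : ∀ i, ‖ι (fi i)‖ ≤ 1 := by
    intro i
    have h1 : ‖ι (fi i)‖ ^ 2 = m (fi i * fi i) := by
      rw [← hinner, real_inner_self_eq_norm_sq]
    have h2 : m (fi i * fi i) ≤ m 1 := by
      refine hmono _ _ fun x => ?_
      show (if c x = i then (1 : ℝ) else 0) * (if c x = i then (1 : ℝ) else 0) ≤ 1
      split_ifs <;> norm_num
    rw [hm1, ← h1] at h2
    have h3 := norm_nonneg (ι (fi i))
    nlinarith
  have hnonneg : ∀ i v, 0 ≤ inner ℝ (A.T v (ι (fi i))) (ι (fi i)) := by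
    intro i v
    rw [hT, hinner]
    exact hmpos _ fun x => mul_nonneg (hfi0 i _) (hfi0 i x)
  have hzero : ∀ i (v : Fin n → ℚ), ∑ j, v j ^ 2 = 1 →
      inner ℝ (A.T v (ι (fi i))) (ι (fi i)) = 0 := by
    intro i v hv
    rw [hT, hinner]
    have h1 : BF.shift v (fi i) * fi i = 0 := by
      apply Subtype.ext
      funext x
      show (if c (x + v) = i then (1 : ℝ) else 0) * (if c x = i then (1 : ℝ) else 0) = 0
      by_cases hx : c x = i
      · have h2 : c (x + v) ≠ i := by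
          rw [← hx]
          apply hc
          simpa using hv
        rw [if_neg h2, zero_mul]
      · rw [if_neg hx, mul_zero]
    rw [h1, map_zero]
  -- the main estimate
  have hme := fun (N' : ℕ) (hN' : 0 < N') => main_est hn δ hδ N' hN'
  choose N₁ D η hD hη hmain using hme
  obtain ⟨N', N, L₀, hN', hN, hL₀, hΦ, hNL, hN'L, hen⟩ := energy A k (fun i => ι (fi i)) hnorm
    (δ / 10) (by positivity) (fun N' => if h : 0 < N' then N₁ N' h else 0)
  rw [dif_pos hN'] at hΦ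
  obtain ⟨M₀, hM₀⟩ := hmain N' hN' N hΦ hN
  have hηR := hη N' hN'
  obtain ⟨L, hLdef⟩ : ∃ L : ℕ, L = L₀ * (M₀ + Nat.ceil (3 * n / η N' hN') + 1) := ⟨_, rfl⟩
  have hLL₀ : L₀ ∣ L := by rw [hLdef]; exact dvd_mul_right _ _
  have hLbig : M₀ + Nat.ceil (3 * n / η N' hN') + 1 ≤ L := by
    rw [hLdef]; exact Nat.le_mul_of_pos_left _ hL₀
  have hDpos := hD N' hN'
  obtain ⟨M, hM⟩ : ∃ M : ℕ, M = D N' hN' * L := ⟨_, rfl⟩
  have hLM : L ≤ M := by rw [hM]; exact Nat.le_mul_of_pos_left L hDpos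
  have hM0 : 0 < M := by omega
  have hMR : (0 : ℝ) < M := by exact_mod_cast hM0
  have hM3 : 3 * n / η N' hN' ≤ M := by
    refine (Nat.le_ceil _).trans ?_
    have : Nat.ceil (3 * n / η N' hN') ≤ M := by omega
    exact_mod_cast this
  have hLdvdM : L ∣ M := by rw [hM]; exact dvd_mul_left _ _
  have hkey : ∀ i (g : Fin n → ℤ), |(nsq g : ℝ) - (M : ℝ) ^ 2| ≤ η N' hN' * (M : ℝ) ^ 2 →
      inner ℝ (A.T (pt M g) (A.W M (M / N') (ι (fi i)))) (A.W M (M / N') (ι (fi i))) < δ := by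
    intro i g hg
    have h1 := hM₀ L (by omega) (hNL.trans hLL₀) (by rw [← hM]; exact (hN'L.trans hLL₀).trans hLdvdM)
      H A (ι (fi i)) (hnorm i) (hnonneg i) (hzero i)
    rw [← hM] at h1
    exact h1 (hen L M hM0 hLL₀ hLdvdM i) g hg
  -- the smoothed indicators
  obtain ⟨F, hFdef⟩ : ∃ F : Fin k → BF n, ∀ i, F i = avg M (M / N') (avg M (M / N') (fi i)) :=
    ⟨_, fun _ => rfl⟩
  have hιavg : ∀ (R : ℕ) (f : BF n), ι (avg M R f) = A.B M R (ι f) := by
    intro R f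
    unfold avg Act.B
    rw [map_smul, map_sum, LinearMap.smul_apply, LinearMap.sum_apply]
    congr 1
    exact Finset.sum_congr rfl fun b _ => (hT _ _).symm
  have hιF : ∀ i, ι (F i) = A.W M (M / N') (ι (fi i)) := by
    intro i
    rw [hFdef, hιavg, hιavg]
    rfl
  have hF1 := avg_partition M (M / N') fi hfi0 hfi1
  have hF : (∀ i x, 0 ≤ (F i).1 x) ∧ ∀ x, ∑ i, (F i).1 x = 1 := by
    have h1 := avg_partition M (M / N') (fun i => avg M (M / N') (fi i)) hF1.1 hF1.2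
    have h2 : F = fun i => avg M (M / N') (avg M (M / N') (fi i)) := funext hFdef
    rw [h2]
    exact h1
  -- approximating integer points
  obtain ⟨g, hgdef⟩ : ∃ g : V → Fin n → ℤ, ∀ v i, g v i = ⌊(M : ℝ) * h v i⌋ :=
    ⟨fun v i => ⌊(M : ℝ) * h v i⌋, fun _ _ => rfl⟩
  have hgdist : ∀ u v : V, ∑ i, (h u i - h v i) ^ 2 = 1 →
      |(nsq (g u - g v) : ℝ) - (M : ℝ) ^ 2| ≤ η N' hN' * (M : ℝ) ^ 2 := by
    intro u v huv
    have h1 : (nsq (g u - g v) : ℝ) - (M : ℝ) ^ 2 =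
        ∑ i, (((g u i : ℝ) - g v i) ^ 2 - ((M : ℝ) * (h u i - h v i)) ^ 2) := by
      rw [Finset.sum_sub_distrib]
      congr 1
      · unfold nsq; push_cast; simp
      · simp_rw [mul_pow]
        rw [← Finset.mul_sum, huv, mul_one]
    have hd : ∀ i, |h u i - h v i| ≤ 1 := by
      intro i
      apply abs_le_of_sq_le_sq _ zero_le_one
      rw [one_pow, ← huv]
      exact Finset.single_le_sum (f := fun i => (h u i - h v i) ^ 2)
        (fun j _ => sq_nonneg _) (Finset.mem_univ i)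
    have h2 : ∀ i, |((g u i : ℝ) - g v i) ^ 2 - ((M : ℝ) * (h u i - h v i)) ^ 2| ≤ 3 * M := by
      intro i
      have e1 : (g u i : ℝ) ≤ M * h u i := by rw [hgdef]; exact Int.floor_le _
      have e2 : (M : ℝ) * h u i < g u i + 1 := by rw [hgdef]; exact Int.lt_floor_add_one _
      have e3 : (g v i : ℝ) ≤ M * h v i := by rw [hgdef]; exact Int.floor_le _
      have e4 : (M : ℝ) * h v i < g v i + 1 := by rw [hgdef]; exact Int.lt_floor_add_one _
      have hM1 : (1 : ℝ) ≤ M := by exact_mod_cast hM0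
      have e5 : |((g u i : ℝ) - g v i) - M * (h u i - h v i)| ≤ 1 := by
        rw [abs_le]; constructor <;> linarith
      have e6 : |((g u i : ℝ) - g v i) + M * (h u i - h v i)| ≤ 3 * M := by
        have e7 := abs_le.1 (hd i)
        have e8 := abs_le.1 e5
        have e9 : |(M : ℝ) * (h u i - h v i)| ≤ M := by
          rw [abs_mul, abs_of_pos hMR]
          exact mul_le_of_le_one_right hMR.le (hd i)
        have e10 := abs_le.1 e9
        rw [abs_le]; constructor <;> linarith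
      rw [sq_sub_sq, abs_mul, mul_comm]
      calc _ ≤ 1 * (3 * (M : ℝ)) := mul_le_mul e5 e6 (abs_nonneg _) zero_le_one
        _ = 3 * M := one_mul _
    rw [h1]
    refine (Finset.abs_sum_le_sum_abs _ _).trans ((Finset.sum_le_sum fun i _ => h2 i).trans ?_)
    rw [Finset.sum_const, Finset.card_univ, Fintype.card_fin, nsmul_eq_mul]
    rw [div_le_iff₀ hηR] at hM3
    nlinarith [mul_le_mul_of_nonneg_right hM3 hMR.le]
  -- pointwise inequality
  obtain ⟨E, hEdef⟩ : ∃ E : Finset (V × V), E = Finset.univ.filter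
      fun p => ∑ i, (h p.1 i - h p.2 i) ^ 2 = 1 := ⟨_, rfl⟩
  obtain ⟨G, hGdef⟩ : ∃ G : BF n, G = ∑ p ∈ E, ∑ i, BF.shift (pt M (g p.1)) (F i) *
      BF.shift (pt M (g p.2)) (F i) := ⟨_, rfl⟩
  have hG : ∀ x, (1 / (k : ℝ) ^ 2) ≤ G.1 x := by
    intro x
    have h1 : ∀ v : V, ∃ i, 1 / (k : ℝ) ≤ (F i).1 (x + pt M (g v)) := by
      intro v
      by_contra hlt
      push Not at hlt
      have h2 : ∑ i, (F i).1 (x + pt M (g v)) < ∑ _i : Fin k, 1 / (k : ℝ) :=
        Finset.sum_lt_sum_of_nonempty ⟨⟨0, hk⟩, Finset.mem_univ _⟩ fun i _ => hlt i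
      rw [hF.2, Finset.sum_const, Finset.card_univ, Fintype.card_fin, nsmul_eq_mul,
        mul_one_div_cancel hkR.ne'] at h2
      exact lt_irrefl _ h2
    choose col hcol using h1
    obtain ⟨u, v, huv, hcuv⟩ := hno col
    have h3 : G.1 x = ∑ p ∈ E, ∑ i, (F i).1 (x + pt M (g p.1)) * (F i).1 (x + pt M (g p.2)) := by
      rw [hGdef, coe_sum_BF]
      refine Finset.sum_congr rfl fun p _ => ?_
      rw [coe_sum_BF]
      rfl
    rw [h3]
    have hnn : ∀ p : V × V, ∀ i, 0 ≤ (F i).1 (x + pt M (g p.1)) * (F i).1 (x + pt M (g p.2)) :=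
      fun p i => mul_nonneg (hF.1 i _) (hF.1 i _)
    have hmem : (u, v) ∈ E := by
      rw [hEdef]; exact Finset.mem_filter.2 ⟨Finset.mem_univ _, huv⟩
    have h4 : ∑ i, (F i).1 (x + pt M (g u)) * (F i).1 (x + pt M (g v)) ≤
        ∑ p ∈ E, ∑ i, (F i).1 (x + pt M (g p.1)) * (F i).1 (x + pt M (g p.2)) :=
      Finset.single_le_sum (f := fun p : V × V => ∑ i, (F i).1 (x + pt M (g p.1)) *
        (F i).1 (x + pt M (g p.2))) (fun p _ => Finset.sum_nonneg fun i _ => hnn p i) hmem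
    have h5 : (F (col u)).1 (x + pt M (g u)) * (F (col u)).1 (x + pt M (g v)) ≤
        ∑ i, (F i).1 (x + pt M (g u)) * (F i).1 (x + pt M (g v)) :=
      Finset.single_le_sum (f := fun i => (F i).1 (x + pt M (g u)) * (F i).1 (x + pt M (g v)))
        (fun i _ => hnn (u, v) i) (Finset.mem_univ _)
    have h6 : 1 / (k : ℝ) * (1 / (k : ℝ)) ≤
        (F (col u)).1 (x + pt M (g u)) * (F (col u)).1 (x + pt M (g v)) := by
      refine mul_le_mul (hcol u) ?_ (by positivity) (hF.1 _ _)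
      rw [hcuv]; exact hcol v
    calc 1 / (k : ℝ) ^ 2 = 1 / (k : ℝ) * (1 / (k : ℝ)) := by ring
      _ ≤ _ := h6.trans (h5.trans h4)
  have hmG : 1 / (k : ℝ) ^ 2 ≤ m G := by
    have h1 := hmono ((1 / (k : ℝ) ^ 2) • (1 : BF n)) G fun x => by
      show 1 / (k : ℝ) ^ 2 * 1 ≤ G.1 x
      rw [mul_one]; exact hG x
    rwa [map_smul, hm1, smul_eq_mul, mul_one] at h1
  have hmG2 : m G ≤ (E.card : ℝ) * (k * δ) := by
    have h1 : m G = ∑ p ∈ E, ∑ i, inner ℝ (A.T (pt M (g p.1 - g p.2)) (ι (F i))) (ι (F i)) := by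
      rw [hGdef, map_sum]
      refine Finset.sum_congr rfl fun p _ => ?_
      rw [map_sum]
      refine Finset.sum_congr rfl fun i _ => ?_
      rw [← hinner, ← hT, ← hT, pt_sub_add M (g p.1) (g p.2), A.add, inner_TT]
    rw [h1, ← nsmul_eq_mul]
    refine Finset.sum_le_card_nsmul _ _ _ fun p hp => ?_
    rw [hEdef] at hp
    have h2 : ∀ i, inner ℝ (A.T (pt M (g p.1 - g p.2)) (ι (F i))) (ι (F i)) ≤ δ := by
      intro i
      rw [hιF]
      exact (hkey i _ (hgdist p.1 p.2 (Finset.mem_filter.1 hp).2)).le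
    refine (Finset.sum_le_sum fun i _ => h2 i).trans (le_of_eq ?_)
    rw [Finset.sum_const, Finset.card_univ, Fintype.card_fin, nsmul_eq_mul]
  have hEc : (E.card : ℝ) ≤ (K : ℝ) ^ 2 := by
    have h1 : E.card ≤ Fintype.card (V × V) := Finset.card_le_univ _
    rw [Fintype.card_prod, ← hKdef] at h1
    calc (E.card : ℝ) ≤ ((K * K : ℕ) : ℝ) := by exact_mod_cast h1
      _ = (K : ℝ) ^ 2 := by push_cast; ring
  have hfin : 1 / (k : ℝ) ^ 2 ≤ (K : ℝ) ^ 2 * (k * δ) :=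
    hmG.trans (hmG2.trans (mul_le_mul_of_nonneg_right hEc (by positivity)))
  rw [hδdef] at hfin
  have h7 : (K : ℝ) ^ 2 * (k * (1 / (2 * (k : ℝ) ^ 3 * (K : ℝ) ^ 2))) = 1 / (k : ℝ) ^ 2 / 2 := by
    field_simp
  rw [h7] at hfin
  have h8 : (0 : ℝ) < 1 / (k : ℝ) ^ 2 := by positivity
  linarith

end Pool.Agent.H18.QR
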