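import Pool.Agent.H18.QR.Defs

/-!
# QR-01: quadratic Gauss sums

Weyl differencing. Put `G = sum over s mod q of e((r s^2 + l s)/q)`. The summand is `q`-periodic in
`s`. `|G|^2 = sum_{s,t} e((r (s^2 - t^2) + l (s - t))/q)`; with `s = t + h` (mod `q`) this is
`sum_h e((r h^2 + l h)/q) sum_t e(2 r t h / q)`, and the inner sum is `q` if `q | 2 r h` and `0`
otherwise. As `r` is coprime to `q`, `q | 2 r h` iff `q | 2 h`, which holds for at most two
residues `h` (only one if `q` is odd). Hence `|G|^2 ≤ 2 q` (`≤ q` for odd `q`).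
-/

namespace Pool.Agent.H18.QR

open Finset

theorem gqr_e (q : ℕ) [NeZero q] (j : ℤ) :
    e ((j : ℝ) / q) = (ZMod.stdAddChar (N := q)) ((j : ZMod q)) := by
  rw [ZMod.stdAddChar_coe]
  unfold e
  congr 1
  push_cast
  ring

theorem gqr_range (q : ℕ) [NeZero q] (F : ZMod q → ℂ) :
    ∑ s ∈ range q, F (s : ZMod q) = ∑ x : ZMod q, F x := by
  refine Finset.sum_nbij' (fun s => (s : ZMod q)) (fun x => x.val) ?_ ?_ ?_ ?_ ?_
  · intro s _
    exact Finset.mem_univ _
  · intro x _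
    exact Finset.mem_range.2 (ZMod.val_lt x)
  · intro s hs
    exact ZMod.val_cast_of_lt (Finset.mem_range.1 hs)
  · intro x _
    exact ZMod.natCast_zmod_val x
  · intro s _
    rfl

theorem gqr_norm_sq (q : ℕ) [NeZero q] (r l : ZMod q) :
    ‖∑ x : ZMod q, (ZMod.stdAddChar (N := q)) (r * x ^ 2 + l * x)‖ ^ 2 ≤
      q * ((Finset.univ : Finset (ZMod q)).filter (fun h => 2 * r * h = 0)).card := by
  classical
  set ψ := (ZMod.stdAddChar (N := q)) with hψ
  have hprim : ψ.IsPrimitive := ZMod.isPrimitive_stdAddChar q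
  set G := ∑ x : ZMod q, ψ (r * x ^ 2 + l * x) with hG
  have h1 : ((‖G‖ ^ 2 : ℝ) : ℂ) = ∑ h : ZMod q, ψ (r * h ^ 2 + l * h) *
      (if 2 * r * h = 0 then (q : ℂ) else 0) := by
    have e1 : ((‖G‖ ^ 2 : ℝ) : ℂ) = G * (starRingEnd ℂ) G := by
      rw [Complex.mul_conj, Complex.normSq_eq_norm_sq]
    have e2 : (starRingEnd ℂ) G = ∑ t : ZMod q, ψ (-(r * t ^ 2 + l * t)) := by
      rw [hG, map_sum]
      refine Finset.sum_congr rfl fun t _ => ?_
      exact (AddChar.map_neg_eq_conj ψ _).symm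
    rw [e1, e2, hG, Finset.sum_mul_sum, Finset.sum_comm]
    have e3 : ∀ t : ZMod q, ∑ x : ZMod q, ψ (r * x ^ 2 + l * x) * ψ (-(r * t ^ 2 + l * t)) =
        ∑ h : ZMod q, ψ (r * h ^ 2 + l * h) * ψ (t * (2 * r * h)) := by
      intro t
      rw [← Equiv.sum_comp (Equiv.addLeft t)]
      refine Finset.sum_congr rfl fun h _ => ?_
      rw [← AddChar.map_add_eq_mul, ← AddChar.map_add_eq_mul]
      congr 1
      simp only [Equiv.coe_addLeft]
      ring
    rw [Finset.sum_congr rfl fun t _ => e3 t, Finset.sum_comm]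
    refine Finset.sum_congr rfl fun h _ => ?_
    rw [← Finset.mul_sum, AddChar.sum_mulShift (2 * r * h) hprim, ZMod.card]
    congr 1
    split_ifs <;> simp
  have h2 : (‖G‖ ^ 2 : ℝ) = ‖((‖G‖ ^ 2 : ℝ) : ℂ)‖ := by
    rw [Complex.norm_real, Real.norm_eq_abs, abs_of_nonneg (by positivity)]
  rw [h2, h1]
  refine (norm_sum_le _ _).trans ?_
  have h3 : ∀ h : ZMod q, ‖ψ (r * h ^ 2 + l * h) * (if 2 * r * h = 0 then (q : ℂ) else 0)‖ =
      if 2 * r * h = 0 then (q : ℝ) else 0 := by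
    intro h
    rw [norm_mul]
    have : ‖ψ (r * h ^ 2 + l * h)‖ = 1 := by
      rw [hψ, ZMod.stdAddChar_apply]
      exact Circle.norm_coe _
    rw [this, one_mul]
    split_ifs
    · exact Complex.norm_natCast q
    · exact norm_zero
  rw [Finset.sum_congr rfl fun h _ => h3 h, ← Finset.sum_filter, Finset.sum_const, nsmul_eq_mul,
    mul_comm]

theorem gqr_unit {q : ℕ} [NeZero q] {r : ℤ} (hr : IsCoprime r (q : ℤ)) (h : ZMod q)
    (h0 : 2 * (r : ZMod q) * h = 0) : 2 * h = 0 := by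
  obtain ⟨a, b, hab⟩ := hr
  have h1 : (a : ZMod q) * (r : ZMod q) = 1 := by
    have h2 := congrArg (fun z : ℤ => (z : ZMod q)) hab
    push_cast at h2
    rw [ZMod.natCast_self, mul_zero, add_zero] at h2
    exact h2
  calc 2 * h = (a : ZMod q) * (r : ZMod q) * (2 * h) := by rw [h1, one_mul]
    _ = a * (2 * (r : ZMod q) * h) := by ring
    _ = 0 := by rw [h0, mul_zero]

theorem gqr_two {q : ℕ} [NeZero q] (h : ZMod q) (h0 : 2 * h = 0) :
    h.val = 0 ∨ 2 * h.val = q := by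
  have h1 : ((2 * h.val : ℕ) : ZMod q) = 0 := by
    push_cast
    rw [ZMod.natCast_zmod_val]
    exact h0
  rw [ZMod.natCast_eq_zero_iff] at h1
  obtain ⟨k, hk⟩ := h1
  have h2 := ZMod.val_lt h
  have h3 : q * k < q * 2 := by omega
  have h4 : k < 2 := lt_of_mul_lt_mul_left h3 (Nat.zero_le q)
  interval_cases k
  · left
    omega
  · right
    omega

theorem gauss_bound {q : ℕ} (hq : 0 < q) {r : ℤ} (hr : IsCoprime r (q : ℤ)) (l : ℤ) :
    ‖∑ s ∈ range q, e (((r : ℝ) * (s : ℝ) ^ 2 + (l : ℝ) * s) / q)‖ ^ 2 ≤ 2 * q := by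
  haveI : NeZero q := ⟨hq.ne'⟩
  have h1 : ∑ s ∈ range q, e (((r : ℝ) * (s : ℝ) ^ 2 + (l : ℝ) * s) / q) =
      ∑ x : ZMod q, (ZMod.stdAddChar (N := q)) ((r : ZMod q) * x ^ 2 + (l : ZMod q) * x) := by
    rw [← gqr_range]
    refine Finset.sum_congr rfl fun s _ => ?_
    have h2 := gqr_e q (r * (s : ℤ) ^ 2 + l * (s : ℤ))
    push_cast at h2
    exact h2
  rw [h1]
  refine (gqr_norm_sq q _ _).trans ?_
  rw [mul_comm]
  refine mul_le_mul_of_nonneg_right ?_ (Nat.cast_nonneg q)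
  have h3 : (Finset.univ : Finset (ZMod q)).filter (fun h => 2 * (r : ZMod q) * h = 0) ⊆
      {0, ((q / 2 : ℕ) : ZMod q)} := by
    intro h hh
    rw [Finset.mem_filter] at hh
    rw [Finset.mem_insert, Finset.mem_singleton]
    rcases gqr_two h (gqr_unit hr h hh.2) with h4 | h4
    · left
      exact (ZMod.val_eq_zero h).1 h4
    · right
      have h5 : q / 2 = h.val := by omega
      rw [h5, ZMod.natCast_zmod_val]
  have h4 := (Finset.card_le_card h3).trans Finset.card_le_two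
  exact_mod_cast h4

theorem gauss_bound_odd {q : ℕ} (hq : Odd q) {r : ℤ} (hr : IsCoprime r (q : ℤ)) :
    ‖∑ s ∈ range q, e (((r : ℝ) * (s : ℝ) ^ 2) / q)‖ ^ 2 ≤ q := by
  haveI : NeZero q := ⟨by rintro rfl; simp at hq⟩
  have h1 : ∑ s ∈ range q, e (((r : ℝ) * (s : ℝ) ^ 2) / q) =
      ∑ x : ZMod q, (ZMod.stdAddChar (N := q)) ((r : ZMod q) * x ^ 2 + (0 : ZMod q) * x) := by
    rw [← gqr_range]
    refine Finset.sum_congr rfl fun s _ => ?_
    have h2 := gqr_e q (r * (s : ℤ) ^ 2)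
    push_cast at h2
    rw [h2, zero_mul, add_zero]
  rw [h1]
  refine (gqr_norm_sq q _ _).trans ?_
  have h3 : (Finset.univ : Finset (ZMod q)).filter (fun h => 2 * (r : ZMod q) * h = 0) ⊆ {0} := by
    intro h hh
    rw [Finset.mem_filter] at hh
    rw [Finset.mem_singleton]
    rcases gqr_two h (gqr_unit hr h hh.2) with h4 | h4
    · exact (ZMod.val_eq_zero h).1 h4
    · exfalso
      obtain ⟨k, hk⟩ := hq
      omega
  have h4 := (Finset.card_le_card h3)
  rw [Finset.card_singleton] at h4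
  have h5 : (((Finset.univ : Finset (ZMod q)).filter
      (fun h => 2 * (r : ZMod q) * h = 0)).card : ℝ) ≤ 1 := by exact_mod_cast h4
  calc (q : ℝ) * _ ≤ q * 1 := mul_le_mul_of_nonneg_left h5 (Nat.cast_nonneg q)
    _ = q := mul_one _

end Pool.Agent.H18.QR
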