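import Pool.Agent.H18.QR.Defs

/-!
# QR-14: trigonometric polynomials bounded by `ε` (finite version)

Choose an integer `P > 0` larger than all `|x_i - y_i + a_i|` for `x, y` in `X`, `a` in `S`. For
`k : Fin n → ZMod P` (or `k` in `[0,P)^n`) let `F(k) = sum_{x in X} h(x) e(x.k/P)` and
`p(k) = sum_{a in S} c_a e(a.k/P)`, `|p(k)| ≤ ε`. Then
`sum_k p(k) F(k) conj(F(k)) ... = sum_{a,x,y} c_a h(x) h(y) sum_k e((a + x - y).k/P)
 = P^n sum_{a,x} c_a h(x) h(x+a)` (the sum over `k` is `P^n` if `P` divides all coordinates of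
`a + x - y`, i.e. `y = x + a`, and `0` otherwise; `h = 0` outside `X`), and
`sum_k |F(k)|^2 = P^n sum_x h(x)^2` by the same computation.
-/

namespace Pool.Agent.H18.QR

open Finset

private lemma e_add' (x y : ℝ) : e (x + y) = e x * e y := by
  unfold e
  rw [← Complex.exp_add]
  push_cast
  ring_nf

private lemma e_zero' : e 0 = 1 := by simp [e]

private lemma e_nat_mul' (k : ℕ) (x : ℝ) : e (k * x) = e x ^ k := by
  unfold e
  rw [← Complex.exp_nat_mul]
  push_cast
  ring_nf

private lemma e_conj' (x : ℝ) : (starRingEnd ℂ) (e x) = e (-x) := by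
  unfold e
  rw [← Complex.exp_conj]
  congr 1
  simp only [map_mul, Complex.conj_ofReal, Complex.conj_I, map_ofNat]
  push_cast
  ring

private lemma sum_e_one (P : ℕ) (hP : 0 < P) (d : ℤ) (hd : |d| < P) :
    ∑ j ∈ range P, e ((d : ℝ) * ((j : ℝ) / P)) = if d = 0 then (P : ℂ) else 0 := by
  have hP' : (P : ℝ) ≠ 0 := by positivity
  have h1 : ∀ j ∈ range P, e ((d : ℝ) * ((j : ℝ) / P)) = (e ((d : ℝ) / P)) ^ j := by
    intro j _
    rw [← e_nat_mul']
    congr 1
    field_simp
  rw [sum_congr rfl h1]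
  split_ifs with h
  · subst h
    simp [e_zero']
  · set z := e ((d : ℝ) / P) with hz
    have hz1 : z ≠ 1 := by
      intro hz1
      rw [hz] at hz1
      unfold e at hz1
      rw [Complex.exp_eq_one_iff] at hz1
      obtain ⟨m, hm⟩ := hz1
      have h2 : (2 * Real.pi * Complex.I : ℂ) ≠ 0 := Complex.two_pi_I_ne_zero
      have h3 : ((d : ℝ) / P : ℝ) = (m : ℝ) := by
        have : (((d : ℝ) / P : ℝ) : ℂ) = ((m : ℝ) : ℂ) := by
          apply mul_left_cancel₀ h2
          rw [hm]
          push_cast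
          ring
        exact_mod_cast this
      have h4 : (d : ℝ) = m * P := by
        field_simp at h3
        linarith
      have h5 : d = m * P := by exact_mod_cast h4
      have hm0 : m ≠ 0 := by
        rintro rfl
        simp at h5
        exact h h5
      have : (P : ℤ) ≤ |d| := by
        rw [h5, abs_mul, Nat.abs_cast]
        have : 1 ≤ |m| := Int.one_le_abs hm0
        nlinarith
      omega
    have hzP : z ^ P = 1 := by
      rw [hz, ← e_nat_mul']
      have : (P : ℝ) * ((d : ℝ) / P) = d := by field_simp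
      rw [this]
      unfold e
      rw [Complex.exp_eq_one_iff]
      exact ⟨d, by push_cast; ring⟩
    have := mul_geom_sum z P
    rw [hzP, sub_self] at this
    rcases mul_eq_zero.1 this with h' | h'
    · exact absurd (sub_eq_zero.1 h') hz1
    · exact h'

private lemma e_sum' {ι : Type*} (s : Finset ι) (f : ι → ℝ) :
    e (∑ i ∈ s, f i) = ∏ i ∈ s, e (f i) := by
  classical
  induction s using Finset.induction_on with
  | empty => simp [e_zero']
  | insert a s ha ih => rw [sum_insert ha, prod_insert ha, e_add', ih]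

private lemma sum_e_box {n : ℕ} (P : ℕ) (hP : 0 < P) (d : Fin n → ℤ) (hd : ∀ i, |d i| < P) :
    ∑ k ∈ Fintype.piFinset (fun _ : Fin n => range P), e (dotR d fun i => (k i : ℝ) / P)
      = if d = 0 then (P : ℂ) ^ n else 0 := by
  unfold dotR
  simp_rw [e_sum']
  rw [← Finset.prod_univ_sum (fun _ : Fin n => range P)
    (fun i j => e ((d i : ℝ) * ((j : ℝ) / P)))]
  rw [prod_congr rfl (fun i _ => sum_e_one P hP (d i) (hd i))]
  split_ifs with h
  · subst h
    simp
  · obtain ⟨i, hi⟩ := Function.ne_iff.1 h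
    apply prod_eq_zero (mem_univ i)
    exact if_neg hi

private lemma dotR_add' {n : ℕ} (a b : Fin n → ℤ) (θ : Fin n → ℝ) :
    dotR (a + b) θ = dotR a θ + dotR b θ := by
  simp [dotR, add_mul, sum_add_distrib]

private lemma dotR_neg' {n : ℕ} (a : Fin n → ℤ) (θ : Fin n → ℝ) :
    dotR (-a) θ = - dotR a θ := by
  simp [dotR]

theorem herg_finite {n : ℕ} (S : Finset (Fin n → ℤ)) (c : (Fin n → ℤ) → ℝ) (ε : ℝ)
    (hp : ∀ θ : Fin n → ℝ, ‖∑ a ∈ S, (c a : ℂ) * e (dotR a θ)‖ ≤ ε)
    (X : Finset (Fin n → ℤ)) (h : (Fin n → ℤ) → ℝ) (hX : ∀ x, x ∉ X → h x = 0) :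
    |∑ a ∈ S, c a * ∑ x ∈ X, h x * h (x + a)| ≤ ε * ∑ x ∈ X, h x ^ 2 := by
  classical
  -- choose P
  obtain ⟨P, hP, hPS⟩ : ∃ P : ℕ, 0 < P ∧
      ∀ a ∈ insert 0 S, ∀ x ∈ X, ∀ y ∈ X, ∀ i, |(a + x + -y) i| < P := by
    refine ⟨(∑ a ∈ insert 0 S, ∑ x ∈ X, ∑ y ∈ X, ∑ i, |(a + x + -y) i|).toNat + 1,
      Nat.succ_pos _, ?_⟩
    intro a ha x hx y hy i
    have h1 : |(a + x + -y) i| ≤ ∑ i, |(a + x + -y) i| :=
      single_le_sum (f := fun i => |(a + x + -y) i|) (fun _ _ => abs_nonneg _) (mem_univ i)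
    have h2 : ∑ i, |(a + x + -y) i| ≤ ∑ y ∈ X, ∑ i, |(a + x + -y) i| :=
      single_le_sum (f := fun y => ∑ i, |(a + x + -y) i|)
        (fun _ _ => sum_nonneg fun _ _ => abs_nonneg _) hy
    have h3 : ∑ y ∈ X, ∑ i, |(a + x + -y) i| ≤ ∑ x ∈ X, ∑ y ∈ X, ∑ i, |(a + x + -y) i| :=
      single_le_sum (f := fun x => ∑ y ∈ X, ∑ i, |(a + x + -y) i|)
        (fun _ _ => sum_nonneg fun _ _ => sum_nonneg fun _ _ => abs_nonneg _) hx
    have h4 : ∑ x ∈ X, ∑ y ∈ X, ∑ i, |(a + x + -y) i| ≤
        ∑ a ∈ insert 0 S, ∑ x ∈ X, ∑ y ∈ X, ∑ i, |(a + x + -y) i| :=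
      single_le_sum (f := fun a => ∑ x ∈ X, ∑ y ∈ X, ∑ i, |(a + x + -y) i|)
        (fun _ _ => sum_nonneg fun _ _ => sum_nonneg fun _ _ => sum_nonneg fun _ _ =>
          abs_nonneg _) ha
    push_cast
    have h5 := Int.self_le_toNat (∑ a ∈ insert 0 S, ∑ x ∈ X, ∑ y ∈ X, ∑ i, |(a + x + -y) i|)
    linarith
  set K := Fintype.piFinset (fun _ : Fin n => range P) with hK
  let θ : (Fin n → ℕ) → Fin n → ℝ := fun k i => (k i : ℝ) / P
  let F : (Fin n → ℕ) → ℂ := fun k => ∑ x ∈ X, (h x : ℂ) * e (dotR x (θ k))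
  have hFc : ∀ k, (starRingEnd ℂ) (F k) = ∑ y ∈ X, (h y : ℂ) * e (dotR (-y) (θ k)) := by
    intro k
    simp only [F, map_sum, map_mul, Complex.conj_ofReal, e_conj', dotR_neg']
  -- correlation for a
  have hcor : ∀ a ∈ insert 0 S, ∑ k ∈ K, e (dotR a (θ k)) * (F k * (starRingEnd ℂ) (F k)) =
      (P : ℂ) ^ n * ∑ x ∈ X, ((h x * h (x + a) : ℝ) : ℂ) := by
    intro a ha
    calc ∑ k ∈ K, e (dotR a (θ k)) * (F k * (starRingEnd ℂ) (F k))
        = ∑ k ∈ K, ∑ x ∈ X, ∑ y ∈ X, ((h x : ℂ) * (h y : ℂ)) * e (dotR (a + x + -y) (θ k)) := by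
          refine sum_congr rfl fun k _ => ?_
          rw [hFc]
          simp only [F]
          rw [sum_mul_sum, mul_sum]
          refine sum_congr rfl fun x _ => ?_
          rw [mul_sum]
          refine sum_congr rfl fun y _ => ?_
          rw [dotR_add', dotR_add', e_add', e_add']
          ring
      _ = ∑ x ∈ X, ∑ y ∈ X, ((h x : ℂ) * (h y : ℂ)) * ∑ k ∈ K, e (dotR (a + x + -y) (θ k)) := by
          rw [sum_comm]
          refine sum_congr rfl fun x _ => ?_
          rw [sum_comm]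
          refine sum_congr rfl fun y _ => ?_
          rw [mul_sum]
      _ = ∑ x ∈ X, ∑ y ∈ X, (if a + x + -y = 0 then ((h x : ℂ) * (h y : ℂ)) * (P : ℂ) ^ n
            else 0) := by
          refine sum_congr rfl fun x hx => sum_congr rfl fun y hy => ?_
          rw [sum_e_box P hP _ (hPS a ha x hx y hy)]
          split_ifs <;> simp
      _ = (P : ℂ) ^ n * ∑ x ∈ X, ((h x * h (x + a) : ℝ) : ℂ) := by
          rw [mul_sum]
          refine sum_congr rfl fun x hx => ?_
          by_cases hxa : x + a ∈ X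
          · rw [sum_eq_single (x + a)]
            · rw [if_pos (by abel)]
              push_cast
              ring
            · intro y _ hy
              rw [if_neg]
              intro h0
              apply hy
              have : a + x = y := by
                have := add_eq_zero_iff_eq_neg.1 h0
                rw [neg_neg] at this
                exact this
              rw [← this, add_comm]
            · intro h0
              exact absurd hxa h0
          · rw [hX _ hxa]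
            simp only [mul_zero, Complex.ofReal_zero]
            apply sum_eq_zero
            intro y hy
            rw [if_neg]
            intro h0
            have : a + x = y := by
              have := add_eq_zero_iff_eq_neg.1 h0
              rw [neg_neg] at this
              exact this
            apply hxa
            rw [add_comm, this]
            exact hy
  have hmain : ∑ k ∈ K, (∑ a ∈ S, (c a : ℂ) * e (dotR a (θ k))) * (F k * (starRingEnd ℂ) (F k)) =
      (P : ℂ) ^ n * ((∑ a ∈ S, c a * ∑ x ∈ X, h x * h (x + a) : ℝ) : ℂ) := by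
    calc ∑ k ∈ K, (∑ a ∈ S, (c a : ℂ) * e (dotR a (θ k))) * (F k * (starRingEnd ℂ) (F k))
        = ∑ a ∈ S, (c a : ℂ) * ∑ k ∈ K, e (dotR a (θ k)) * (F k * (starRingEnd ℂ) (F k)) := by
          simp_rw [sum_mul]
          rw [sum_comm]
          refine sum_congr rfl fun a _ => ?_
          rw [mul_sum]
          refine sum_congr rfl fun k _ => ?_
          ring
      _ = ∑ a ∈ S, (c a : ℂ) * ((P : ℂ) ^ n * ∑ x ∈ X, ((h x * h (x + a) : ℝ) : ℂ)) := by
          refine sum_congr rfl fun a ha => ?_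
          rw [hcor a (mem_insert_of_mem ha)]
      _ = _ := by
          push_cast
          rw [mul_sum]
          refine sum_congr rfl fun a _ => ?_
          ring
  have hsq : ∑ k ∈ K, ‖F k‖ ^ 2 = (P : ℝ) ^ n * ∑ x ∈ X, h x ^ 2 := by
    have h0 := hcor 0 (mem_insert_self _ _)
    have h1 : ∀ k ∈ K, e (dotR (0 : Fin n → ℤ) (θ k)) * (F k * (starRingEnd ℂ) (F k)) =
        ((‖F k‖ ^ 2 : ℝ) : ℂ) := by
      intro k _
      have : dotR (0 : Fin n → ℤ) (θ k) = 0 := by simp [dotR]
      rw [this, e_zero', one_mul, Complex.mul_conj, Complex.normSq_eq_norm_sq]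
    rw [sum_congr rfl h1] at h0
    have h2 : ((∑ k ∈ K, ‖F k‖ ^ 2 : ℝ) : ℂ) = (((P : ℝ) ^ n * ∑ x ∈ X, h x ^ 2 : ℝ) : ℂ) := by
      push_cast at h0 ⊢
      rw [h0]
      congr 1
      refine sum_congr rfl fun x _ => ?_
      rw [add_zero]
      ring
    exact_mod_cast h2
  have hPn : (0 : ℝ) < (P : ℝ) ^ n := by positivity
  have hnorm : ‖(P : ℂ) ^ n * ((∑ a ∈ S, c a * ∑ x ∈ X, h x * h (x + a) : ℝ) : ℂ)‖ ≤
      ε * ((P : ℝ) ^ n * ∑ x ∈ X, h x ^ 2) := by
    rw [← hmain, ← hsq, mul_sum]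
    refine (norm_sum_le _ _).trans (sum_le_sum fun k _ => ?_)
    rw [norm_mul, norm_mul, RCLike.norm_conj, ← sq]
    exact mul_le_mul_of_nonneg_right (hp (θ k)) (sq_nonneg _)
  rw [norm_mul, norm_pow, Complex.norm_natCast, Complex.norm_real, Real.norm_eq_abs] at hnorm
  have h3 : (P : ℝ) ^ n * |∑ a ∈ S, c a * ∑ x ∈ X, h x * h (x + a)| ≤
      (P : ℝ) ^ n * (ε * ∑ x ∈ X, h x ^ 2) := by
    calc _ ≤ _ := hnorm
      _ = _ := by ring
  exact le_of_mul_le_mul_left h3 hPn

end Pool.Agent.H18.QR
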