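import Pool.Agent.H18.QR.Tower

/-!
# QR-19: every correlation near a bad vector is large

Let `W = W L (L/N)`, `W' = W M (M/N')`, `M = D L`, and assume `‖W f - W' f‖ ≤ δ/10`, `‖f‖ ≤ 1`,
`inner (T (g/M) W' f) (W' f) ≥ δ`, and `|a_i - g_i| ≤ K` with `8 n K N' ≤ δ M/ ...` (see the hypothesis).
Then
`inner (T (a/M) W f) f ≥ inner (T (a/M) W' f) f - δ/10`,
`‖T (a/M) W' f - T (g/M) W' f‖ ≤ 2 n K/(2 M/N' + 1) ≤ n K N'/M ≤ δ/10` (`B_shift` for `b = a - g`;
`W' f = B' (B' f)`, `‖B' f‖ ≤ 1`; `T (a/M) = T (g/M) T ((a-g)/M)`),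
`‖W' W f - W' f‖ ≤ 2 n N'/N ≤ δ/10` (`B_tower` twice, `M = L D`), so
`inner (T (g/M) W' f) f ≥ inner (T (g/M) W' W f) f - δ/10 = inner (T (g/M) W' f) (W f) - δ/10`
(`W` is self-adjoint and commutes with `T` and `W'`)
`≥ inner (T (g/M) W' f) (W' f) - 2δ/10 ≥ δ - 2δ/10`. Altogether `≥ δ - 4δ/10 ≥ δ/2`.
-/

namespace Pool.Agent.H18.QR

open Finset

variable {n : ℕ} {H : Type*} [SeminormedAddCommGroup H] [InnerProductSpace ℝ H]

theorem norm_W_le (A : Act n H) (L R : ℕ) (f : H) : ‖A.W L R f‖ ≤ ‖f‖ :=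
  (norm_B_le A L R _).trans (norm_B_le A L R f)

theorem inner_ge_of_norm {x y : H} {ε : ℝ} (hx : ‖x‖ ≤ ε) (hy : ‖y‖ ≤ 1) (hε : 0 ≤ ε) :
    -ε ≤ inner ℝ x y := by
  have h := abs_real_inner_le_norm x y
  have h2 : ‖x‖ * ‖y‖ ≤ ε * 1 := mul_le_mul hx hy (norm_nonneg _) hε
  have h3 := neg_abs_le (inner ℝ x y)
  linarith

theorem corr_lower (A : Act n H) (f : H) (hf : ‖f‖ ≤ 1) (δ : ℝ) (hδ : 0 < δ)
    (D L N N' K : ℕ) (hD : 0 < D) (hL : 0 < L) (hN : 0 < N) (hN' : 0 < N')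
    (hNL : N ∣ L) (hNM : N' ∣ D * L)
    (h1 : (20 : ℝ) * n * N' ≤ δ * N) (h2 : (10 : ℝ) * n * K * N' ≤ δ * (D * L))
    (hW : ‖A.W L (L / N) f - A.W (D * L) (D * L / N') f‖ ≤ δ / 10)
    (g a : Fin n → ℤ) (hag : ∀ i, |a i - g i| ≤ (K : ℤ))
    (hg : δ ≤ inner ℝ (A.T (pt (D * L) g) (A.W (D * L) (D * L / N') f))
      (A.W (D * L) (D * L / N') f)) :
    δ / 2 ≤ inner ℝ (A.T (pt (D * L) a) (A.W L (L / N) f)) f := by
  obtain ⟨M, hM⟩ : ∃ M, M = D * L := ⟨_, rfl⟩
  have hM0 : 0 < M := hM ▸ Nat.mul_pos hD hL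
  obtain ⟨R, hR⟩ : ∃ R, R = L / N := ⟨_, rfl⟩
  obtain ⟨R', hR'⟩ : ∃ R', R' = M / N' := ⟨_, rfl⟩
  rw [← hM] at hNM hW hg ⊢
  rw [← hR'] at hW hg
  rw [← hR] at hW ⊢
  have hRL : R * N = L := by rw [hR]; exact Nat.div_mul_cancel hNL
  have hRM : R' * N' = M := by rw [hR']; exact Nat.div_mul_cancel hNM
  have hR'0 : 0 < R' := by
    rcases Nat.eq_zero_or_pos R' with h | h
    · rw [h, Nat.zero_mul] at hRM; omega
    · exact h
  have hR'r : (0 : ℝ) < R' := by exact_mod_cast hR'0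
  have hN'r : (0 : ℝ) < N' := by exact_mod_cast hN'
  have hNr : (0 : ℝ) < N := by exact_mod_cast hN
  obtain ⟨F, hF⟩ : ∃ F, F = A.W M R' f := ⟨_, rfl⟩
  rw [← hF] at hW hg
  have hF1 : ‖F‖ ≤ 1 := by rw [hF]; exact (norm_W_le A M R' f).trans hf
  have hTg : ∀ (v : Fin n → ℚ) (x : H), ‖A.T v x‖ = ‖x‖ := A.norm
  -- step 0
  have s0 : -(δ / 10) ≤ inner ℝ (A.T (pt M a) (A.W L R f)) f - inner ℝ (A.T (pt M a) F) f := by
    rw [← inner_sub_left, ← map_sub]
    exact inner_ge_of_norm (by rw [hTg]; exact hW) hf (by positivity)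
  -- step 1
  have s1 : -(δ / 10) ≤ inner ℝ (A.T (pt M a) F) f - inner ℝ (A.T (pt M g) F) f := by
    rw [← inner_sub_left]
    refine inner_ge_of_norm ?_ hf (by positivity)
    have e1 : (pt M a : Fin n → ℚ) = pt M g + pt M (fun i => a i - g i) := by
      funext i
      simp only [pt, Pi.add_apply]
      push_cast
      ring
    rw [e1, A.add, ← map_sub, hTg]
    have e2 : F = A.B M R' (A.B M R' f) := by rw [hF]; rfl
    rw [e2, T_B]
    have h := B_shift A M R' K (fun i => a i - g i) hag (A.B M R' f)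
    refine h.trans ?_
    have hb : ‖A.B M R' f‖ ≤ 1 := (norm_B_le A M R' f).trans hf
    have hc : (2 : ℝ) * n * K / (2 * R' + 1) ≤ δ / 10 := by
      rw [div_le_div_iff₀ (by positivity) (by norm_num)]
      have e3 : (D : ℝ) * L = R' * N' := by
        have : D * L = R' * N' := by rw [hRM, hM]
        exact_mod_cast this
      rw [e3] at h2
      have h4 : (10 : ℝ) * n * K ≤ δ * R' := by
        have : (10 : ℝ) * n * K * N' ≤ δ * R' * N' := by linarith
        exact le_of_mul_le_mul_right this hN'r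
      nlinarith
    calc 2 * (n : ℝ) * K / (2 * R' + 1) * ‖A.B M R' f‖ ≤ (δ / 10) * 1 :=
          mul_le_mul hc hb (norm_nonneg _) (by positivity)
      _ = δ / 10 := mul_one _
  -- step 2
  have tower : ∀ x : H, ‖x‖ ≤ 1 → ‖A.B M R' (A.B L R x) - A.B M R' x‖ ≤ δ / 20 := by
    intro x hx
    have h := B_tower A L D R R' hL hD x
    rw [show L * D = M by rw [hM, Nat.mul_comm]] at h
    refine h.trans ?_
    have hc : (2 : ℝ) * n * (R * D) / (2 * R' + 1) ≤ δ / 20 := by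
      rw [div_le_div_iff₀ (by positivity) (by norm_num)]
      have e3 : (D : ℝ) * (R * N) = R' * N' := by
        have : D * (R * N) = R' * N' := by rw [hRM, hM, hRL]
        exact_mod_cast this
      have h4 : (20 : ℝ) * n * (R * D) ≤ δ * R' := by
        have : (20 : ℝ) * n * (R * D) * N ≤ δ * R' * N := by
          calc (20 : ℝ) * n * (R * D) * N = 20 * n * (D * (R * N)) := by ring
            _ = (20 * n * N') * R' := by rw [e3]; ring
            _ ≤ (δ * N) * R' := mul_le_mul_of_nonneg_right h1 hR'r.le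
            _ = δ * R' * N := by ring
        exact le_of_mul_le_mul_right this hNr
      nlinarith
    calc 2 * (n : ℝ) * (R * D) / (2 * R' + 1) * ‖x‖ ≤ (δ / 20) * 1 :=
          mul_le_mul hc hx (norm_nonneg _) (by positivity)
      _ = δ / 20 := mul_one _
  have s2 : ‖A.W M R' (A.W L R f) - F‖ ≤ δ / 10 := by
    have e2 : A.W M R' (A.W L R f) - F =
        A.B M R' (A.B M R' (A.B L R (A.B L R f)) - A.B M R' (A.B L R f)) +
        A.B M R' (A.B M R' (A.B L R f) - A.B M R' f) := by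
      rw [hF]
      show A.B M R' (A.B M R' (A.B L R (A.B L R f))) - A.B M R' (A.B M R' f) = _
      rw [map_sub, map_sub]
      abel
    rw [e2]
    refine (norm_add_le _ _).trans ?_
    have t1 := (norm_B_le A M R' (A.B M R' (A.B L R (A.B L R f)) - A.B M R' (A.B L R f))).trans
      (tower _ ((norm_B_le A L R f).trans hf))
    have t2 := (norm_B_le A M R' (A.B M R' (A.B L R f) - A.B M R' f)).trans (tower f hf)
    linarith
  -- step 3
  have s3 : -(δ / 10) ≤ inner ℝ (A.T (pt M g) F) f -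
      inner ℝ (A.T (pt M g) (A.W M R' (A.W L R f))) f := by
    rw [← inner_sub_left, ← map_sub]
    refine inner_ge_of_norm ?_ hf (by positivity)
    rw [hTg, norm_sub_rev]
    exact s2
  have e4 : inner ℝ (A.T (pt M g) (A.W M R' (A.W L R f))) f =
      inner ℝ (A.T (pt M g) F) (A.W L R f) := by
    have : A.T (pt M g) (A.W M R' (A.W L R f)) = A.B L R (A.B L R (A.T (pt M g) F)) := by
      rw [hF]
      show A.T (pt M g) (A.B M R' (A.B M R' (A.B L R (A.B L R f)))) =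
        A.B L R (A.B L R (A.T (pt M g) (A.B M R' (A.B M R' f))))
      rw [B_comm A M R' L R (A.B L R f), B_comm A M R' L R f,
        B_comm A M R' L R (A.B L R (A.B M R' f)),
        B_comm A M R' L R (A.B M R' f), T_B, T_B]
    rw [this, inner_B, inner_B]
    rfl
  have s5 : -(δ / 10) ≤ inner ℝ (A.T (pt M g) F) (A.W L R f) - inner ℝ (A.T (pt M g) F) F := by
    rw [← inner_sub_right, real_inner_comm]
    exact inner_ge_of_norm hW (by rw [hTg]; exact hF1) (by positivity)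
  rw [e4] at s3
  linarith

end Pool.Agent.H18.QR
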