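import Pool.Agent.H18.QR.Gauss

/-!
# QR-09: solutions of `|a|^2 = 0` modulo `D`, `D` without prime factors below 17

`#resid n D = D^(-1) sum_{r mod D} (sum_{s mod D} e(r s^2/D))^n` (orthogonality, and the sum over
`a mod D` of `e(r |a|^2/D)` is a product). `r = 0` gives `D^(n-1)`. For `r ≠ 0` let `gcd(r,D) = D/q`,
`r/D = r'/q` with `gcd(r',q) = 1`, `q | D`, `q > 1`, so `q ≥ 17` and `q` is odd; the inner sum is
`(D/q)` times a Gauss sum modulo `q`, of absolute value at most `D/sqrt q` by `gauss_bound_odd`, and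
there are at most `q` such `r` for each `q`. Hence
`#resid n D ≥ D^(n-1) - D^(-1) sum_{q | D, q ≥ 17} q (D/sqrt q)^n ≥ D^(n-1) (1 - sum_{q ≥ 17} q^(-3/2))`
and `sum_{q ≥ 17} q^(-3/2) ≤ 1/2` (`q^(-3/2) ≤ 2/sqrt(q-1) - 2/sqrt q`, telescoping).
-/

namespace Pool.Agent.H18.QR

open Finset

private theorem rg_e_add (x y : ℝ) : e (x + y) = e x * e y := by
  unfold e
  rw [← Complex.exp_add]
  congr 1
  push_cast
  ring

private theorem rg_e_int (m : ℤ) : e (m : ℝ) = 1 := by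
  unfold e
  rw [Complex.exp_eq_one_iff]
  exact ⟨m, by push_cast; ring⟩

private theorem rg_e_sum {ι : Type*} (s : Finset ι) (f : ι → ℝ) :
    e (∑ i ∈ s, f i) = ∏ i ∈ s, e (f i) := by
  unfold e
  rw [← Complex.exp_sum]
  congr 1
  push_cast
  rw [Finset.mul_sum]

private theorem rg_e_nat_mul (r : ℕ) (x : ℝ) : e ((r : ℝ) * x) = e x ^ r := by
  unfold e
  rw [← Complex.exp_nat_mul]
  congr 1
  push_cast
  ring

private theorem rg_e_eq_one {D : ℕ} (hD : 0 < D) (m : ℤ) :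
    e ((m : ℝ) / D) = 1 ↔ (D : ℤ) ∣ m := by
  have hD' : (D : ℝ) ≠ 0 := by exact_mod_cast hD.ne'
  constructor
  · intro h
    unfold e at h
    rw [Complex.exp_eq_one_iff] at h
    obtain ⟨k, hk⟩ := h
    have h2 : (((m : ℝ) / D : ℝ) : ℂ) = ((k : ℝ) : ℂ) := by
      have h3 : (2 * Real.pi * Complex.I : ℂ) ≠ 0 := by
        simp [Real.pi_ne_zero]
      have h4 : (2 * Real.pi * Complex.I : ℂ) * (((m : ℝ) / D : ℝ) : ℂ) =
          (2 * Real.pi * Complex.I : ℂ) * ((k : ℝ) : ℂ) := by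
        rw [hk]
        push_cast
        ring
      exact mul_left_cancel₀ h3 h4
    have h5 : (m : ℝ) / D = k := by exact_mod_cast h2
    rw [div_eq_iff hD'] at h5
    refine ⟨k, ?_⟩
    have h6 : (m : ℝ) = ((D * k : ℤ) : ℝ) := by
      rw [h5]
      push_cast
      ring
    exact_mod_cast h6
  · rintro ⟨k, rfl⟩
    have : (((D : ℤ) * k : ℤ) : ℝ) / D = (k : ℝ) := by
      push_cast
      field_simp
    rw [this, rg_e_int]

private theorem rg_orth {D : ℕ} (hD : 0 < D) (m : ℤ) :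
    ∑ r ∈ range D, e ((r : ℝ) * ((m : ℝ) / D)) = if (D : ℤ) ∣ m then (D : ℂ) else 0 := by
  simp_rw [rg_e_nat_mul]
  have hD' : (D : ℝ) ≠ 0 := by exact_mod_cast hD.ne'
  split_ifs with h
  · rw [(rg_e_eq_one hD m).2 h]
    simp
  · have h1 : e ((m : ℝ) / D) ≠ 1 := fun h' => h ((rg_e_eq_one hD m).1 h')
    have h2 := geom_sum_mul (e ((m : ℝ) / D)) D
    have h3 : e ((m : ℝ) / D) ^ D = 1 := by
      rw [← rg_e_nat_mul]
      have : (D : ℝ) * ((m : ℝ) / D) = m := by field_simp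
      rw [this, rg_e_int]
    rw [h3, sub_self] at h2
    exact (mul_eq_zero.1 h2).resolve_right (sub_ne_zero.2 h1)

private theorem rg_box {n D : ℕ} (r : ℕ) :
    ∑ a ∈ Fintype.piFinset (fun _ : Fin n => Finset.Ico (0 : ℤ) D),
      e ((r : ℝ) * ((nsq a : ℝ) / D)) = (∑ s ∈ range D, e (((r : ℝ) * (s : ℝ) ^ 2) / D)) ^ n := by
  have h1 : ∀ a : Fin n → ℤ, e ((r : ℝ) * ((nsq a : ℝ) / D)) =
      ∏ i, e (((r : ℝ) * (a i : ℝ) ^ 2) / D) := by
    intro a
    rw [← rg_e_sum]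
    congr 1
    unfold nsq
    push_cast
    rw [Finset.sum_div, Finset.mul_sum]
    refine Finset.sum_congr rfl fun i _ => ?_
    ring
  simp_rw [h1]
  rw [Finset.sum_prod_piFinset (Finset.Ico (0 : ℤ) D)
    (fun (_ : Fin n) (s : ℤ) => e (((r : ℝ) * (s : ℝ) ^ 2) / D))]
  rw [Finset.prod_const, Finset.card_univ, Fintype.card_fin]
  congr 1
  refine Finset.sum_nbij' (fun s : ℤ => s.toNat) (fun s : ℕ => (s : ℤ)) ?_ ?_ ?_ ?_ ?_
  · intro s hs
    rw [Finset.mem_Ico] at hs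
    rw [Finset.mem_range]
    omega
  · intro s hs
    rw [Finset.mem_range] at hs
    rw [Finset.mem_Ico]
    omega
  · intro s hs
    rw [Finset.mem_Ico] at hs
    exact Int.toNat_of_nonneg hs.1
  · intro s hs
    exact Int.toNat_natCast s
  · intro s hs
    rw [Finset.mem_Ico] at hs
    have h3 : ((s.toNat : ℤ) : ℝ) = (s : ℝ) := by rw [Int.toNat_of_nonneg hs.1]
    have h2 : ((s.toNat : ℕ) : ℝ) = (s : ℝ) := by
      rw [← h3]
      push_cast
      rfl
    rw [h2]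

private theorem rg_per (f : ℕ → ℂ) (q : ℕ) (hf : ∀ s, f (s + q) = f s) (g : ℕ) :
    ∑ s ∈ range (g * q), f s = g * ∑ s ∈ range q, f s := by
  have hper : Function.Periodic f q := hf
  induction g with
  | zero => simp
  | succ g ih =>
    rw [Nat.succ_mul, Finset.sum_range_add, ih]
    have : ∀ x ∈ range q, f (g * q + x) = f x := by
      intro x _
      have := hper.nat_mul g x
      rw [add_comm]
      simpa using this
    rw [Finset.sum_congr rfl this]
    push_cast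
    ring

private theorem rg_gauss {D : ℕ} (hD : 0 < D) (h : ∀ q : ℕ, q ∣ D → q ≠ 1 → 17 ≤ q)
    {r : ℕ} (hr0 : 0 < r) (hrD : r < D) :
    ‖∑ s ∈ range D, e (((r : ℝ) * (s : ℝ) ^ 2) / D)‖ ≤
      (D : ℝ) / Real.sqrt ((D / Nat.gcd r D : ℕ) : ℝ) ∧ 17 ≤ D / Nat.gcd r D := by
  obtain ⟨g, hg⟩ : ∃ g, g = Nat.gcd r D := ⟨_, rfl⟩
  have hgpos : 0 < g := hg ▸ Nat.gcd_pos_of_pos_left _ hr0
  obtain ⟨q, hq⟩ : g ∣ D := hg ▸ Nat.gcd_dvd_right r D
  obtain ⟨r', hr'⟩ : g ∣ r := hg ▸ Nat.gcd_dvd_left r D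
  have hDq : D / Nat.gcd r D = q := by
    rw [← hg, hq]
    exact Nat.mul_div_cancel_left q hgpos
  have hcop : Nat.Coprime r' q := by
    have h1 : Nat.gcd r D = g * Nat.gcd r' q := by
      rw [hr', hq, Nat.gcd_mul_left]
    rw [← hg] at h1
    have h2 : g * 1 = g * Nat.gcd r' q := by rw [mul_one]; exact h1
    exact (Nat.eq_of_mul_eq_mul_left hgpos h2).symm
  have hq1 : q ≠ 1 := by
    rintro rfl
    rw [mul_one] at hq
    have : g ≤ r := hg ▸ Nat.gcd_le_left D hr0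
    omega
  have hqD : q ∣ D := ⟨g, by rw [hq, mul_comm]⟩
  have hq17 : 17 ≤ q := h q hqD hq1
  have hodd : Odd q := by
    rw [← Nat.not_even_iff_odd]
    intro he
    have h2 : 2 ∣ D := he.two_dvd.trans hqD
    have := h 2 h2 (by norm_num)
    omega
  have hqR : (0 : ℝ) < q := by exact_mod_cast (by omega : 0 < q)
  have hgR : (0 : ℝ) < g := by exact_mod_cast hgpos
  have hDR : (D : ℝ) = g * q := by rw [hq]; push_cast; ring
  refine ⟨?_, hDq ▸ hq17⟩
  rw [hDq]
  have h1 : ∀ s : ℕ, e (((r : ℝ) * (s : ℝ) ^ 2) / D) = e ((((r' : ℤ) : ℝ) * (s : ℝ) ^ 2) / q) := by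
    intro s
    congr 1
    rw [hDR, hr']
    push_cast
    field_simp
  simp_rw [h1]
  have h2 : ∑ s ∈ range D, e ((((r' : ℤ) : ℝ) * (s : ℝ) ^ 2) / q) =
      g * ∑ s ∈ range q, e ((((r' : ℤ) : ℝ) * (s : ℝ) ^ 2) / q) := by
    conv_lhs => rw [hq]
    refine rg_per (fun s : ℕ => e ((((r' : ℤ) : ℝ) * (s : ℝ) ^ 2) / q)) q (fun s => ?_) g
    show e ((((r' : ℤ) : ℝ) * ((s + q : ℕ) : ℝ) ^ 2) / q) = e ((((r' : ℤ) : ℝ) * (s : ℝ) ^ 2) / q)
    have h3 : (((r' : ℤ) : ℝ) * ((s + q : ℕ) : ℝ) ^ 2) / q =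
        (((r' : ℤ) : ℝ) * (s : ℝ) ^ 2) / q + ((r' * (2 * s + q) : ℤ) : ℝ) := by
      push_cast
      field_simp
      ring
    rw [h3, rg_e_add, rg_e_int, mul_one]
  rw [h2, norm_mul]
  have h4 := gauss_bound_odd hodd (r := (r' : ℤ)) (Nat.isCoprime_iff_coprime.2 hcop)
  have h5 : ‖∑ s ∈ range q, e ((((r' : ℤ) : ℝ) * (s : ℝ) ^ 2) / q)‖ ≤ Real.sqrt q := by
    rw [← Real.sqrt_sq (norm_nonneg (∑ s ∈ range q, e ((((r' : ℤ) : ℝ) * (s : ℝ) ^ 2) / q)))]
    exact Real.sqrt_le_sqrt h4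
  have h6 : ‖(g : ℂ)‖ = g := by simp
  rw [h6]
  have hsq : 0 < Real.sqrt q := Real.sqrt_pos.2 hqR
  rw [le_div_iff₀ hsq, hDR, mul_assoc]
  refine mul_le_mul_of_nonneg_left ?_ hgR.le
  calc _ ≤ Real.sqrt q * Real.sqrt q := mul_le_mul_of_nonneg_right h5 hsq.le
    _ = q := Real.mul_self_sqrt hqR.le

private theorem rg_tele (q : ℕ) (hq : 2 ≤ q) :
    (q : ℝ) * (1 / Real.sqrt q) ^ 5 ≤ 2 / Real.sqrt ((q - 1 : ℕ) : ℝ) - 2 / Real.sqrt q := by
  have hq' : ((q - 1 : ℕ) : ℝ) = (q : ℝ) - 1 := by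
    rw [Nat.cast_sub (by omega)]
    simp
  rw [hq']
  have hqR : (2 : ℝ) ≤ q := by exact_mod_cast hq
  obtain ⟨b, hb⟩ : ∃ b, b = Real.sqrt q := ⟨_, rfl⟩
  obtain ⟨a, ha⟩ : ∃ a, a = Real.sqrt ((q : ℝ) - 1) := ⟨_, rfl⟩
  have hb2 : b ^ 2 = q := by rw [hb]; exact Real.sq_sqrt (by linarith)
  have ha2 : a ^ 2 = (q : ℝ) - 1 := by rw [ha]; exact Real.sq_sqrt (by linarith)
  have hapos : 0 < a := by rw [ha]; exact Real.sqrt_pos.2 (by linarith)
  have hbpos : 0 < b := by rw [hb]; exact Real.sqrt_pos.2 (by linarith)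
  rw [← ha, ← hb, ← hb2]
  have hab : a ≤ b := by
    rw [ha, hb]
    exact Real.sqrt_le_sqrt (by linarith)
  have h1 : b ^ 2 * (1 / b) ^ 5 = 1 / b ^ 3 := by
    field_simp
  have h2 : 2 / a - 2 / b = 2 / (a * b * (a + b)) := by
    have h3 : (b - a) * (a + b) = 1 := by nlinarith
    have h4 : a + b ≠ 0 := by positivity
    rw [div_sub_div _ _ hapos.ne' hbpos.ne', div_eq_div_iff (by positivity) (by positivity)]
    calc (2 * b - a * 2) * (a * b * (a + b)) = 2 * (a * b) * ((b - a) * (a + b)) := by ring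
      _ = 2 * (a * b) := by rw [h3, mul_one]
  rw [h1, h2, div_le_div_iff₀ (by positivity) (by positivity)]
  nlinarith [mul_pos hapos hbpos, mul_le_mul_of_nonneg_left hab hapos.le,
    mul_le_mul_of_nonneg_left hab (mul_pos hapos hbpos).le, mul_le_mul_of_nonneg_left hab hbpos.le,
    mul_le_mul_of_nonneg_left hab (mul_pos hbpos hbpos).le]

private theorem rg_sum (N : ℕ) :
    ∑ q ∈ Finset.Ico 17 (17 + N), (q : ℝ) * (1 / Real.sqrt q) ^ 5 ≤
      1 / 2 - 2 / Real.sqrt ((17 + N - 1 : ℕ) : ℝ) := by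
  induction N with
  | zero =>
    simp only [add_zero, Finset.Ico_self, Finset.sum_empty]
    have : Real.sqrt ((17 - 1 : ℕ) : ℝ) = 4 := by
      rw [show ((17 - 1 : ℕ) : ℝ) = 4 ^ 2 by norm_num]
      exact Real.sqrt_sq (by norm_num)
    rw [this]
    norm_num
  | succ N ih =>
    rw [← add_assoc, Finset.sum_Ico_succ_top (by omega)]
    have h := rg_tele (17 + N) (by omega)
    have h2 : 17 + N + 1 - 1 = 17 + N := by omega
    rw [h2]
    linarith

private theorem rg_fiber {D : ℕ} (hD : 0 < D) (q : ℕ) :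
    (((range D).erase 0).filter fun r => D / Nat.gcd r D = q).card ≤ q := by
  classical
  rcases Nat.eq_zero_or_pos q with hq0 | hq0
  · subst hq0
    rw [Nat.le_zero, Finset.card_eq_zero, Finset.filter_eq_empty_iff]
    intro r hr h0
    have h1 : 0 < D / Nat.gcd r D :=
      Nat.div_pos (Nat.gcd_le_right r hD) (Nat.gcd_pos_of_pos_right r hD)
    omega
  · have h1 : (((range D).erase 0).filter fun r => D / Nat.gcd r D = q) ⊆
        (range q).image (fun j => (D / q) * j) := by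
      intro r hr
      rw [Finset.mem_filter, Finset.mem_erase, Finset.mem_range] at hr
      obtain ⟨⟨hr0, hrD⟩, hq⟩ := hr
      obtain ⟨k, hk⟩ := Nat.gcd_dvd_right r D
      obtain ⟨j, hj⟩ := Nat.gcd_dvd_left r D
      have hg : 0 < Nat.gcd r D := Nat.gcd_pos_of_pos_right r hD
      obtain ⟨g, hgg⟩ : ∃ g, g = Nat.gcd r D := ⟨_, rfl⟩
      rw [← hgg] at hk hj hg hq
      have hkq : k = q := by
        rw [← hq, hk]
        exact (Nat.mul_div_cancel_left k hg).symm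
      subst hkq
      have hDg : D / k = g := by
        rw [hk]
        exact Nat.mul_div_cancel g hq0
      rw [Finset.mem_image]
      refine ⟨j, ?_, ?_⟩
      · rw [Finset.mem_range]
        by_contra hcon
        push Not at hcon
        have : g * k ≤ g * j := Nat.mul_le_mul_left g hcon
        omega
      · rw [hDg]
        exact hj.symm
    exact (Finset.card_le_card h1).trans (Finset.card_image_le.trans (by rw [Finset.card_range]))

theorem rho_large {n D : ℕ} (hn : 5 ≤ n) (hD : 0 < D)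
    (h : ∀ q : ℕ, q ∣ D → q ≠ 1 → 17 ≤ q) :
    (D : ℝ) ^ (n - 1) / 2 ≤ ((resid n D).card : ℝ) := by
  classical
  have hDR : (0 : ℝ) < D := by exact_mod_cast hD
  set S : ℕ → ℂ := fun r => ∑ s ∈ range D, e (((r : ℝ) * (s : ℝ) ^ 2) / D) with hS
  -- the exact formula
  have h1 : (D : ℂ) * ((resid n D).card : ℂ) = ∑ r ∈ range D, (S r) ^ n := by
    have h2 : ∑ r ∈ range D, (S r) ^ n =
        ∑ a ∈ Fintype.piFinset (fun _ : Fin n => Finset.Ico (0 : ℤ) D),
          ∑ r ∈ range D, e ((r : ℝ) * ((nsq a : ℝ) / D)) := by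
      rw [Finset.sum_comm]
      refine Finset.sum_congr rfl fun r _ => ?_
      exact (rg_box r).symm
    rw [h2]
    simp_rw [rg_orth hD]
    rw [← Finset.sum_filter, Finset.sum_const, nsmul_eq_mul]
    rw [mul_comm]
    rfl
  have h0 : S 0 = D := by
    simp only [hS, Nat.cast_zero, zero_mul, zero_div]
    have : e 0 = 1 := by simpa using rg_e_int 0
    rw [this]
    simp
  have h3 : ∑ r ∈ range D, (S r) ^ n = (D : ℂ) ^ n + ∑ r ∈ (range D).erase 0, (S r) ^ n := by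
    rw [← Finset.add_sum_erase (range D) (fun r => (S r) ^ n) (Finset.mem_range.2 hD), h0]
  have h4 : ‖∑ r ∈ (range D).erase 0, (S r) ^ n‖ ≤ (D : ℝ) ^ n * (1 / 2) := by
    calc ‖∑ r ∈ (range D).erase 0, (S r) ^ n‖
        ≤ ∑ r ∈ (range D).erase 0, (D : ℝ) ^ n * (1 / Real.sqrt ((D / Nat.gcd r D : ℕ) : ℝ)) ^ 5 := by
          refine norm_sum_le_of_le _ fun r hr => ?_
          rw [Finset.mem_erase, Finset.mem_range] at hr
          obtain ⟨hb, h17⟩ := rg_gauss hD h (Nat.pos_of_ne_zero hr.1) hr.2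
          rw [norm_pow]
          have hq1 : (1 : ℝ) ≤ ((D / Nat.gcd r D : ℕ) : ℝ) := by
            exact_mod_cast (by omega : 1 ≤ D / Nat.gcd r D)
          have hsq1 : 1 ≤ Real.sqrt ((D / Nat.gcd r D : ℕ) : ℝ) := Real.one_le_sqrt.2 hq1
          have hsq0 : 0 < Real.sqrt ((D / Nat.gcd r D : ℕ) : ℝ) := lt_of_lt_of_le one_pos hsq1
          calc ‖S r‖ ^ n ≤ ((D : ℝ) / Real.sqrt ((D / Nat.gcd r D : ℕ) : ℝ)) ^ n :=
                pow_le_pow_left₀ (norm_nonneg _) hb n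
            _ = (D : ℝ) ^ n * (1 / Real.sqrt ((D / Nat.gcd r D : ℕ) : ℝ)) ^ n := by
                rw [div_eq_mul_one_div, mul_pow]
            _ ≤ (D : ℝ) ^ n * (1 / Real.sqrt ((D / Nat.gcd r D : ℕ) : ℝ)) ^ 5 := by
                refine mul_le_mul_of_nonneg_left ?_ (by positivity)
                refine pow_le_pow_of_le_one (by positivity) ?_ hn
                rw [div_le_one hsq0]
                exact hsq1
      _ = (D : ℝ) ^ n * ∑ r ∈ (range D).erase 0, (1 / Real.sqrt ((D / Nat.gcd r D : ℕ) : ℝ)) ^ 5 := by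
          rw [Finset.mul_sum]
      _ ≤ (D : ℝ) ^ n * (1 / 2) := by
          refine mul_le_mul_of_nonneg_left ?_ (by positivity)
          rw [Finset.sum_comp (fun q : ℕ => (1 / Real.sqrt (q : ℝ)) ^ 5) (fun r => D / Nat.gcd r D)]
          have hsub : ((range D).erase 0).image (fun r => D / Nat.gcd r D) ⊆
              Finset.Ico 17 (17 + D) := by
            intro q hq
            rw [Finset.mem_image] at hq
            obtain ⟨r, hr, rfl⟩ := hq
            rw [Finset.mem_erase, Finset.mem_range] at hr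
            obtain ⟨hb, h17⟩ := rg_gauss hD h (Nat.pos_of_ne_zero hr.1) hr.2
            rw [Finset.mem_Ico]
            refine ⟨h17, ?_⟩
            have := Nat.div_le_self D (Nat.gcd r D)
            omega
          calc ∑ b ∈ ((range D).erase 0).image (fun r => D / Nat.gcd r D),
                (((range D).erase 0).filter fun r => D / Nat.gcd r D = b).card •
                  (1 / Real.sqrt (b : ℝ)) ^ 5
              ≤ ∑ b ∈ ((range D).erase 0).image (fun r => D / Nat.gcd r D),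
                  (b : ℝ) * (1 / Real.sqrt (b : ℝ)) ^ 5 := by
                refine Finset.sum_le_sum fun b _ => ?_
                rw [nsmul_eq_mul]
                refine mul_le_mul_of_nonneg_right ?_ (by positivity)
                exact_mod_cast rg_fiber hD b
            _ ≤ ∑ b ∈ Finset.Ico 17 (17 + D), (b : ℝ) * (1 / Real.sqrt (b : ℝ)) ^ 5 := by
                refine Finset.sum_le_sum_of_subset_of_nonneg hsub fun b _ _ => by positivity
            _ ≤ 1 / 2 - 2 / Real.sqrt ((17 + D - 1 : ℕ) : ℝ) := rg_sum D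
            _ ≤ 1 / 2 := by
                have : (0 : ℝ) ≤ 2 / Real.sqrt ((17 + D - 1 : ℕ) : ℝ) := by positivity
                linarith
  have h5 : (D : ℝ) ^ n / 2 ≤ (D : ℝ) * ((resid n D).card : ℝ) := by
    have h6 : ((D : ℝ) * ((resid n D).card : ℝ) - (D : ℝ) ^ n : ℝ) =
        (∑ r ∈ (range D).erase 0, (S r) ^ n : ℂ).re := by
      have h7 : (∑ r ∈ (range D).erase 0, (S r) ^ n : ℂ) =
          (((D : ℝ) * ((resid n D).card : ℝ) - (D : ℝ) ^ n : ℝ) : ℂ) := by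
        push_cast
        rw [h1, h3]
        ring
      rw [h7, Complex.ofReal_re]
    have h8 : -((D : ℝ) ^ n * (1 / 2)) ≤ (∑ r ∈ (range D).erase 0, (S r) ^ n : ℂ).re := by
      have := Complex.abs_re_le_norm (∑ r ∈ (range D).erase 0, (S r) ^ n : ℂ)
      have h9 := neg_abs_le (∑ r ∈ (range D).erase 0, (S r) ^ n : ℂ).re
      linarith
    rw [← h6] at h8
    linarith
  have h10 : (D : ℝ) ^ n = D * (D : ℝ) ^ (n - 1) := by
    rw [← pow_succ']
    congr 1
    omega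
  rw [h10] at h5
  have h11 : (D : ℝ) * ((D : ℝ) ^ (n - 1) / 2) ≤ (D : ℝ) * ((resid n D).card : ℝ) := by
    linarith
  exact le_of_mul_le_mul_left h11 hDR

end Pool.Agent.H18.QR
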