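import Pool.Agent.H18.QR.RhoS
import Pool.Agent.H18.QR.RhoG

/-!
# QR-10: many solutions of `|a|^2 = 0` modulo a suitable highly divisible `D`

`resid_mul`: Chinese remainder theorem (the map `a ↦ (a mod D₁, a mod D₂)` on `[0,D₁D₂)^n`).
`rho`: given `Q`, put `K = Q + 2`, `D₁ = 4 * 30030^K`, `D₂ = (product of the primes p with
17 ≤ p ≤ Q)^K`, `D = D₁ D₂`. They are coprime, every divisor `≠ 1` of `D₂` is `≥ 17`, and every
`q ≤ Q`, `q > 0` divides `D` (each prime power of `q` has exponent `≤ K`).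
`#resid = #resid(D₁) #resid(D₂) ≥ (D₁/120120)^(n-1) D₂^(n-1)/2`.
-/

namespace Pool.Agent.H18.QR

open Finset

private theorem rho_mem {n D : ℕ} (a : Fin n → ℤ) :
    a ∈ resid n D ↔ (∀ i, 0 ≤ a i ∧ a i < D) ∧ (D : ℤ) ∣ nsq a := by
  simp [resid, Fintype.mem_piFinset, Finset.mem_filter]

private theorem rho_nsq_emod {n : ℕ} (a : Fin n → ℤ) (D : ℤ) :
    D ∣ nsq (fun i => a i % D) ↔ D ∣ nsq a := by
  have h : (nsq (fun i => a i % D)) % D = (nsq a) % D := by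
    unfold nsq
    rw [Finset.sum_int_mod, Finset.sum_int_mod (s := univ) (n := D) (f := fun i => a i ^ 2)]
    congr 1
    refine Finset.sum_congr rfl (fun i _ => ?_)
    rw [pow_two, pow_two, ← Int.mul_emod]
  rw [Int.dvd_iff_emod_eq_zero, Int.dvd_iff_emod_eq_zero, h]

theorem resid_mul {n D₁ D₂ : ℕ} (h₁ : 0 < D₁) (h₂ : 0 < D₂) (h : Nat.Coprime D₁ D₂) :
    (resid n (D₁ * D₂)).card = (resid n D₁).card * (resid n D₂).card := by
  rw [← Finset.card_product]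
  have hcop : IsCoprime (D₁ : ℤ) (D₂ : ℤ) := Nat.isCoprime_iff_coprime.2 h
  have hD1 : (0 : ℤ) < D₁ := by exact_mod_cast h₁
  have hD2 : (0 : ℤ) < D₂ := by exact_mod_cast h₂
  have hD : (0 : ℤ) < (D₁ * D₂ : ℕ) := by positivity
  have hcast : ((D₁ * D₂ : ℕ) : ℤ) = (D₁ : ℤ) * D₂ := by push_cast; ring
  refine Finset.card_bij (fun a _ => (fun i => a i % (D₁ : ℤ), fun i => a i % (D₂ : ℤ))) ?_ ?_ ?_
  · intro a ha
    rw [rho_mem] at ha
    rw [Finset.mem_product, rho_mem, rho_mem]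
    refine ⟨⟨fun i => ⟨Int.emod_nonneg _ hD1.ne', Int.emod_lt_of_pos _ hD1⟩, ?_⟩,
      ⟨fun i => ⟨Int.emod_nonneg _ hD2.ne', Int.emod_lt_of_pos _ hD2⟩, ?_⟩⟩
    · exact (rho_nsq_emod a D₁).2 ((Dvd.intro _ hcast.symm).trans ha.2)
    · exact (rho_nsq_emod a D₂).2 ((Dvd.intro_left _ hcast.symm).trans ha.2)
  · intro a ha b hb hab
    rw [rho_mem] at ha hb
    funext i
    have e1 : a i % (D₁ : ℤ) = b i % (D₁ : ℤ) := congrFun (congrArg Prod.fst hab) i
    have e2 : a i % (D₂ : ℤ) = b i % (D₂ : ℤ) := congrFun (congrArg Prod.snd hab) i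
    have d1 : (D₁ : ℤ) ∣ b i - a i := Int.ModEq.dvd e1
    have d2 : (D₂ : ℤ) ∣ b i - a i := Int.ModEq.dvd e2
    have d3 : ((D₁ * D₂ : ℕ) : ℤ) ∣ b i - a i := by
      rw [hcast]
      exact hcop.mul_dvd d1 d2
    have e3 : a i % ((D₁ * D₂ : ℕ) : ℤ) = b i % ((D₁ * D₂ : ℕ) : ℤ) :=
      (Int.modEq_iff_dvd.2 d3)
    rwa [Int.emod_eq_of_lt (ha.1 i).1 (ha.1 i).2, Int.emod_eq_of_lt (hb.1 i).1 (hb.1 i).2] at e3
  · rintro ⟨b, c⟩ hbc
    rw [Finset.mem_product, rho_mem, rho_mem] at hbc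
    obtain ⟨⟨hb, hb'⟩, ⟨hc, hc'⟩⟩ := hbc
    obtain ⟨u, v, huv⟩ := hcop
    have key1 : ∀ i, ((b i * (v * D₂) + c i * (u * D₁)) % ((D₁ * D₂ : ℕ) : ℤ)) % (D₁ : ℤ) = b i := by
      intro i
      rw [Int.emod_emod_of_dvd _ (Dvd.intro _ hcast.symm)]
      have : b i * (v * D₂) + c i * (u * D₁) = b i + D₁ * ((c i - b i) * u) := by
        have : v * (D₂ : ℤ) = 1 - u * D₁ := by linarith
        rw [this]; ring
      rw [this, Int.add_mul_emod_self_left]
      exact Int.emod_eq_of_lt (hb i).1 (hb i).2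
    have key2 : ∀ i, ((b i * (v * D₂) + c i * (u * D₁)) % ((D₁ * D₂ : ℕ) : ℤ)) % (D₂ : ℤ) = c i := by
      intro i
      rw [Int.emod_emod_of_dvd _ (Dvd.intro_left _ hcast.symm)]
      have : b i * (v * D₂) + c i * (u * D₁) = c i + D₂ * ((b i - c i) * v) := by
        have : u * (D₁ : ℤ) = 1 - v * D₂ := by linarith
        rw [this]; ring
      rw [this, Int.add_mul_emod_self_left]
      exact Int.emod_eq_of_lt (hc i).1 (hc i).2
    refine ⟨fun i => (b i * (v * D₂) + c i * (u * D₁)) % ((D₁ * D₂ : ℕ) : ℤ), ?_, ?_⟩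
    · rw [rho_mem]
      refine ⟨fun i => ⟨Int.emod_nonneg _ hD.ne', Int.emod_lt_of_pos _ hD⟩, ?_⟩
      rw [hcast]
      refine IsCoprime.mul_dvd ⟨u, v, huv⟩ ?_ ?_
      · rw [← rho_nsq_emod]
        convert hb' using 2
        funext i
        exact key1 i
      · rw [← rho_nsq_emod]
        convert hc' using 2
        funext i
        exact key2 i
    · refine Prod.ext ?_ ?_
      · funext i
        exact key1 i
      · funext i
        exact key2 i

private theorem rho_prime_lt {p : ℕ} (hp : p.Prime) (h : p < 17) : p ∣ 30030 := by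
  interval_cases p <;> first | (norm_num; done) | (exfalso; revert hp; norm_num; done)

private theorem rho_prime_ge {p : ℕ} (hp : p.Prime) (h : 17 ≤ p) : ¬ p ∣ 30030 := by
  intro hd
  have e : (30030 : ℕ) = 2 * (3 * (5 * (7 * (11 * 13)))) := by norm_num
  rw [e] at hd
  have aux : ∀ {q : ℕ}, 0 < q → q < 17 → ¬ p ∣ q := fun hq hq' hpq => by
    have := Nat.le_of_dvd hq hpq
    omega
  rcases hp.dvd_mul.1 hd with h1 | hd
  · exact aux (by norm_num) (by norm_num) h1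
  rcases hp.dvd_mul.1 hd with h1 | hd
  · exact aux (by norm_num) (by norm_num) h1
  rcases hp.dvd_mul.1 hd with h1 | hd
  · exact aux (by norm_num) (by norm_num) h1
  rcases hp.dvd_mul.1 hd with h1 | hd
  · exact aux (by norm_num) (by norm_num) h1
  rcases hp.dvd_mul.1 hd with h1 | h1
  · exact aux (by norm_num) (by norm_num) h1
  · exact aux (by norm_num) (by norm_num) h1

theorem rho {n : ℕ} (hn : 5 ≤ n) : ∃ ρ : ℝ, 0 < ρ ∧ ∀ Q : ℕ, ∃ D : ℕ, 0 < D ∧
    (∀ q : ℕ, 0 < q → q ≤ Q → q ∣ D) ∧ ρ * (D : ℝ) ^ (n - 1) ≤ ((resid n D).card : ℝ) := by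
  refine ⟨1 / (2 * 120120 ^ (n - 1)), by positivity, fun Q => ?_⟩
  set S : Finset ℕ := (Finset.range (Q + 1)).filter (fun p => p.Prime ∧ 17 ≤ p) with hS
  set P : ℕ := ∏ p ∈ S, p with hP
  set K : ℕ := Q + 2 with hK
  have hSm : ∀ p ∈ S, p.Prime ∧ 17 ≤ p := fun p hp => (Finset.mem_filter.1 hp).2
  have hPpos : 0 < P := Finset.prod_pos (fun p hp => (hSm p hp).1.pos)
  have hD1 : 0 < 4 * 30030 ^ K := by positivity
  have hD2 : 0 < P ^ K := pow_pos hPpos K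
  have hcop : Nat.Coprime (4 * 30030 ^ K) (P ^ K) := by
    refine Nat.Coprime.pow_right K ?_
    refine Nat.Coprime.prod_right (fun p hp => ?_)
    obtain ⟨hp1, hp2⟩ := hSm p hp
    refine Nat.Coprime.symm ((Nat.Prime.coprime_iff_not_dvd hp1).2 (fun hd => ?_))
    rcases hp1.dvd_mul.1 hd with h1 | h1
    · have := Nat.le_of_dvd (by norm_num) h1
      omega
    · exact rho_prime_ge hp1 hp2 (hp1.dvd_of_dvd_pow h1)
  have hdiv : ∀ q : ℕ, q ∣ P ^ K → q ≠ 1 → 17 ≤ q := by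
    intro q hq hq1
    have hqpos : 0 < q := Nat.pos_of_dvd_of_pos hq hD2
    have hp := Nat.minFac_prime hq1
    have h1 : q.minFac ∣ P ^ K := (Nat.minFac_dvd q).trans hq
    have h2 : q.minFac ∣ P := hp.dvd_of_dvd_pow h1
    obtain ⟨p, hpS, hpd⟩ := (hp.prime.dvd_finsetProd_iff _).1 h2
    have h3 : q.minFac = p := (Nat.prime_dvd_prime_iff_eq hp (hSm p hpS).1).1 hpd
    have h4 : q.minFac ≤ q := Nat.minFac_le hqpos
    have h5 := (hSm p hpS).2
    omega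
  refine ⟨4 * 30030 ^ K * P ^ K, Nat.mul_pos hD1 hD2, ?_, ?_⟩
  · intro q hq0 hqQ
    rw [Nat.dvd_iff_prime_pow_dvd_dvd]
    intro p k hp hpk
    have hkle : p ^ k ≤ Q := (Nat.le_of_dvd hq0 hpk).trans hqQ
    have hkK : k ≤ K := by
      have h1 : k < p ^ k := Nat.lt_pow_self hp.one_lt
      omega
    rcases Nat.eq_zero_or_pos k with hk0 | hkpos
    · rw [hk0, pow_zero]
      exact one_dvd _
    by_cases hp17 : p < 17
    · have h1 : p ^ k ∣ 30030 ^ K := (pow_dvd_pow_of_dvd (rho_prime_lt hp hp17) k).trans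
        (pow_dvd_pow _ hkK)
      exact (h1.trans (Dvd.intro_left _ rfl)).trans (Dvd.intro _ rfl)
    · have hpQ : p ≤ Q := by
        have h1 : p ^ 1 ≤ p ^ k := Nat.pow_le_pow_right hp.pos hkpos
        rw [pow_one] at h1
        omega
      have hpS : p ∈ S := by
        rw [hS, Finset.mem_filter, Finset.mem_range]
        exact ⟨by omega, hp, by omega⟩
      have h1 : p ^ k ∣ P ^ K := (pow_dvd_pow_of_dvd (Finset.dvd_prod_of_mem _ hpS) k).trans
        (pow_dvd_pow _ hkK)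
      exact h1.trans (Dvd.intro_left _ rfl)
  · rw [resid_mul hD1 hD2 hcop]
    have h1 := rho_small hn K (by omega)
    have h2 := rho_large hn hD2 hdiv
    have h3 : (0 : ℝ) ≤ ((P ^ K : ℕ) : ℝ) ^ (n - 1) / 2 := by positivity
    have h4 := mul_le_mul h1 h2 h3 (Nat.cast_nonneg _)
    calc 1 / (2 * 120120 ^ (n - 1)) * ((4 * 30030 ^ K * P ^ K : ℕ) : ℝ) ^ (n - 1)
        = (((4 * 30030 ^ K : ℕ) : ℝ) / 120120) ^ (n - 1) * (((P ^ K : ℕ) : ℝ) ^ (n - 1) / 2) := by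
          rw [Nat.cast_mul (4 * 30030 ^ K) (P ^ K), mul_pow, div_pow]
          field_simp
      _ ≤ ((resid n (4 * 30030 ^ K)).card : ℝ) * ((resid n (P ^ K)).card : ℝ) := h4
      _ = (((resid n (4 * 30030 ^ K)).card * (resid n (P ^ K)).card : ℕ) : ℝ) := by
          rw [Nat.cast_mul]

end Pool.Agent.H18.QR
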