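import Pool.Agent.H18.QR.Defs

/-!
# QR-18: elementary averaging over the shell

`shell n M D η` is the set of integer vectors with `(1-η) M^2 ≤ |a|^2 ≤ M^2` and `D | |a|^2`.
`shell_sum`: sort the points by `N = |a|^2`: `N` is a multiple of `D` in `[(1-η)M^2, M^2]`: at most
`η M^2/D + 1` values.
`inner_W`: expand the two averages; `pt M a + pt L b + pt L b' = pt M (a + D (b + b'))` if `M = D L`.
`shell_aver`: by `inner_W` the left side is the average over `(b, b')` of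
`sum_{a in X} φ (a + D (b+b'))`, and for fixed `(b, b')` the map `a ↦ a + D (b + b')` is an injection of
`X` into `Y`, `φ ≥ 0`.
-/

namespace Pool.Agent.H18.QR

open Finset

/-- Integer vectors with `(1-η) M^2 ≤ |a|^2 ≤ M^2` and `D | |a|^2`. -/
noncomputable def shell (n M D : ℕ) (η : ℝ) : Finset (Fin n → ℤ) :=
  (box n M).filter fun a => (1 - η) * (M : ℝ) ^ 2 ≤ (nsq a : ℝ) ∧
    (nsq a : ℝ) ≤ (M : ℝ) ^ 2 ∧ (D : ℤ) ∣ nsq a

private theorem shell_card_aux {M D : ℕ} (hD : 0 < D) (η : ℝ) (hη : 0 ≤ η) :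
    ((((Finset.range (M ^ 2 + 1)).filter fun N : ℕ => (1 - η) * (M : ℝ) ^ 2 ≤ N ∧ D ∣ N).card : ℕ) : ℝ)
      ≤ η * (M : ℝ) ^ 2 / D + 1 := by
  have hD' : (0 : ℝ) < D := by exact_mod_cast hD
  have h1 : ((Finset.range (M ^ 2 + 1)).filter fun N : ℕ => (1 - η) * (M : ℝ) ^ 2 ≤ N ∧ D ∣ N).card ≤
      (Finset.Icc ⌈(1 - η) * (M : ℝ) ^ 2 / D⌉ ⌊(M : ℝ) ^ 2 / D⌋).card := by
    refine Finset.card_le_card_of_injOn (fun N => ((N / D : ℕ) : ℤ)) ?_ ?_
    · intro N hN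
      rw [Finset.mem_coe, Finset.mem_filter, Finset.mem_range] at hN
      obtain ⟨h1, h2, k, rfl⟩ := hN
      have hk : D * k / D = k := Nat.mul_div_cancel_left _ hD
      have h3 : ((D * k : ℕ) : ℝ) ≤ (M : ℝ) ^ 2 := by
        have : D * k ≤ M ^ 2 := by omega
        exact_mod_cast this
      push_cast at h2 h3
      rw [Finset.coe_Icc, Set.mem_Icc]
      show _ ≤ ((D * k / D : ℕ) : ℤ) ∧ ((D * k / D : ℕ) : ℤ) ≤ _
      rw [hk, Int.ceil_le, Int.le_floor]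
      push_cast
      rw [div_le_iff₀ hD', le_div_iff₀ hD']
      exact ⟨by linarith, by linarith⟩
    · intro N hN N' hN' he
      rw [Finset.mem_coe, Finset.mem_filter] at hN hN'
      have he' : N / D = N' / D := Int.natCast_inj.1 he
      rw [← Nat.div_mul_cancel hN.2.2, ← Nat.div_mul_cancel hN'.2.2, he']
  rw [Int.card_Icc] at h1
  have h2 : (((⌊(M : ℝ) ^ 2 / D⌋ + 1 - ⌈(1 - η) * (M : ℝ) ^ 2 / D⌉).toNat : ℕ) : ℝ) ≤
      η * (M : ℝ) ^ 2 / D + 1 := by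
    rcases le_total 0 (⌊(M : ℝ) ^ 2 / D⌋ + 1 - ⌈(1 - η) * (M : ℝ) ^ 2 / D⌉) with h | h
    · have h3 : (((⌊(M : ℝ) ^ 2 / D⌋ + 1 - ⌈(1 - η) * (M : ℝ) ^ 2 / D⌉).toNat : ℕ) : ℝ) =
          ((⌊(M : ℝ) ^ 2 / D⌋ + 1 - ⌈(1 - η) * (M : ℝ) ^ 2 / D⌉ : ℤ) : ℝ) := by
        exact_mod_cast congrArg (fun z : ℤ => (z : ℝ)) (Int.toNat_of_nonneg h)
      rw [h3]
      push_cast
      have h4 := Int.floor_le ((M : ℝ) ^ 2 / D)
      have h5 := Int.le_ceil ((1 - η) * (M : ℝ) ^ 2 / D)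
      have h6 : (M : ℝ) ^ 2 / D - (1 - η) * (M : ℝ) ^ 2 / D = η * (M : ℝ) ^ 2 / D := by ring
      linarith
    · rw [Int.toNat_of_nonpos h, Nat.cast_zero]
      positivity
  exact le_trans (by exact_mod_cast h1) h2

private theorem shell_sq_le {n : ℕ} (a : Fin n → ℤ) (i : Fin n) : a i ^ 2 ≤ nsq a :=
  Finset.single_le_sum (f := fun i => a i ^ 2) (fun _ _ => sq_nonneg _) (Finset.mem_univ i)

private theorem shell_mem_box {n R : ℕ} (a : Fin n → ℤ) :
    a ∈ box n R ↔ ∀ i, -(R : ℤ) ≤ a i ∧ a i ≤ R := by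
  simp only [box, Fintype.mem_piFinset, Finset.mem_Icc]

private theorem shell_box_of_sq {n R : ℕ} (a : Fin n → ℤ) (h : ∀ i, a i ^ 2 ≤ (R : ℤ) ^ 2) :
    a ∈ box n R := by
  rw [shell_mem_box]
  intro i
  have h1 := abs_le_of_sq_le_sq (h i) (by positivity)
  exact abs_le.1 h1

theorem shell_sum {n M D : ℕ} (hM : 0 < M) (hD : 0 < D) (η B : ℝ) (hη : 0 ≤ η)
    (φ : (Fin n → ℤ) → ℝ)
    (h : ∀ N : ℕ, D ∣ N → N ≤ M ^ 2 → (M : ℝ) ^ 2 - N ≤ η * (M : ℝ) ^ 2 →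
      ∑ a ∈ sph n N, φ a ≤ B) (hB : 0 ≤ B) :
    ∑ a ∈ shell n M D η, φ a ≤ (η * (M : ℝ) ^ 2 / D + 1) * B := by
  classical
  set S := (Finset.range (M ^ 2 + 1)).filter fun N : ℕ => (1 - η) * (M : ℝ) ^ 2 ≤ N ∧ D ∣ N
    with hS
  have hmap : ∀ a ∈ shell n M D η, (nsq a).toNat ∈ S := by
    intro a ha
    rw [shell, Finset.mem_filter] at ha
    obtain ⟨h1, h2, h3, h4⟩ := ha
    have h0 : 0 ≤ nsq a := Finset.sum_nonneg fun i _ => sq_nonneg _
    have h5 : (((nsq a).toNat : ℕ) : ℤ) = nsq a := Int.toNat_of_nonneg h0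
    have h6 : (((nsq a).toNat : ℕ) : ℝ) = (nsq a : ℝ) := by exact_mod_cast congrArg (fun z : ℤ => (z : ℝ)) h5
    rw [hS, Finset.mem_filter, Finset.mem_range, h6]
    refine ⟨?_, h2, ?_⟩
    · have : (((nsq a).toNat : ℕ) : ℝ) ≤ ((M ^ 2 : ℕ) : ℝ) := by
        rw [h6]; push_cast; exact h3
      have : (nsq a).toNat ≤ M ^ 2 := by exact_mod_cast this
      omega
    · rw [← h5] at h4
      exact_mod_cast h4
  rw [← Finset.sum_fiberwise_of_maps_to hmap]
  have hb : ∀ N ∈ S, ∑ a ∈ (shell n M D η).filter (fun a => (nsq a).toNat = N), φ a ≤ B := by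
    intro N hN
    rw [hS, Finset.mem_filter, Finset.mem_range] at hN
    obtain ⟨h1, h2, h3⟩ := hN
    have e1 : (shell n M D η).filter (fun a => (nsq a).toNat = N) = sph n N := by
      ext a
      have h0 : 0 ≤ nsq a := Finset.sum_nonneg fun i _ => sq_nonneg _
      rw [Finset.mem_filter, shell, Finset.mem_filter, sph, Finset.mem_filter]
      have h5 : (((nsq a).toNat : ℕ) : ℤ) = nsq a := Int.toNat_of_nonneg h0
      constructor
      · rintro ⟨_, h6⟩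
        have h7 : nsq a = (N : ℤ) := by rw [← h5, h6]
        refine ⟨?_, h7⟩
        rw [shell_mem_box]
        intro i
        have h8 := shell_sq_le a i
        rw [h7] at h8
        constructor
        · nlinarith [sq_nonneg (a i + 1), sq_nonneg (a i)]
        · nlinarith [sq_nonneg (a i - 1), sq_nonneg (a i)]
      · rintro ⟨_, h7⟩
        have h9 : (nsq a : ℝ) = (N : ℝ) := by rw [h7]; push_cast; rfl
        have h10 : N ≤ M ^ 2 := by omega
        refine ⟨⟨?_, ?_, ?_, ?_⟩, by rw [h7]; simp⟩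
        · refine shell_box_of_sq a fun i => ?_
          refine (shell_sq_le a i).trans ?_
          rw [h7]
          exact_mod_cast h10
        · rw [h9]; exact h2
        · rw [h9]; exact_mod_cast h10
        · rw [h7]; exact_mod_cast h3
    rw [e1]
    exact h N h3 (by omega) (by linarith)
  refine (Finset.sum_le_card_nsmul S _ B hb).trans ?_
  rw [nsmul_eq_mul]
  exact mul_le_mul_of_nonneg_right (shell_card_aux hD η hη) hB

variable {n : ℕ} {H : Type*} [SeminormedAddCommGroup H] [InnerProductSpace ℝ H]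

theorem inner_W (A : Act n H) (D L R : ℕ) (hD : 0 < D) (hL : 0 < L) (f g : H)
    (a : Fin n → ℤ) :
    inner ℝ (A.T (pt (D * L) a) (A.W L R f)) g =
      ((((2 * R + 1 : ℕ) : ℝ) ^ n)⁻¹) ^ 2 * ∑ b ∈ box n R, ∑ b' ∈ box n R,
        inner ℝ (A.T (pt (D * L) (a + (D : ℤ) • (b + b'))) f) g := by
  have e0 : A.W L R f = ((((2 * R + 1 : ℕ) : ℝ) ^ n)⁻¹) ^ 2 • ∑ b ∈ box n R, ∑ b' ∈ box n R,
      A.T (pt L b) (A.T (pt L b') f) := by
    rw [Act.W, LinearMap.comp_apply]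
    have e1 : ∀ x, A.B L R x = (((2 * R + 1 : ℕ) : ℝ) ^ n)⁻¹ • ∑ b ∈ box n R, A.T (pt L b) x := by
      intro x
      rw [Act.B, LinearMap.smul_apply, LinearMap.sum_apply]
    rw [e1, e1]
    simp only [map_smul, map_sum]
    rw [← Finset.smul_sum, smul_smul, sq]
  have hpt : ∀ b b' : Fin n → ℤ, pt (D * L) (a + (D : ℤ) • (b + b')) =
      pt (D * L) a + (pt L b + pt L b') := by
    intro b b'
    have hD' : (D : ℚ) ≠ 0 := by exact_mod_cast hD.ne'
    have hL' : (L : ℚ) ≠ 0 := by exact_mod_cast hL.ne'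
    funext i
    simp only [pt, Pi.add_apply, Pi.smul_apply, smul_eq_mul]
    push_cast
    field_simp
  rw [e0, map_smul, inner_smul_left, map_sum, sum_inner]
  simp only [conj_trivial]
  congr 1
  refine Finset.sum_congr rfl fun b _ => ?_
  rw [map_sum, sum_inner]
  refine Finset.sum_congr rfl fun b' _ => ?_
  rw [hpt, A.add, A.add]

private theorem card_box_aux (n R : ℕ) : ((box n R).card : ℝ) = ((2 * R + 1 : ℕ) : ℝ) ^ n := by
  rw [box, Fintype.card_piFinset_const, Int.card_Icc]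
  push_cast
  congr 1
  have : ((R : ℤ) + 1 - -(R : ℤ)).toNat = 2 * R + 1 := by omega
  rw [this]
  push_cast
  ring

theorem shell_aver (A : Act n H) (D L R : ℕ) (hD : 0 < D) (hL : 0 < L) (f : H)
    (hf : ∀ v, 0 ≤ inner ℝ (A.T v f) f) (X Y : Finset (Fin n → ℤ))
    (hXY : ∀ a ∈ X, ∀ b ∈ box n R, ∀ b' ∈ box n R, a + (D : ℤ) • (b + b') ∈ Y) :
    ∑ a ∈ X, inner ℝ (A.T (pt (D * L) a) (A.W L R f)) f ≤
      ∑ a ∈ Y, inner ℝ (A.T (pt (D * L) a) f) f := by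
  classical
  simp only [inner_W A D L R hD hL]
  rw [← Finset.mul_sum, Finset.sum_comm]
  simp only [Finset.sum_comm (s := X)]
  have hb : ∀ b ∈ box n R, ∀ b' ∈ box n R,
      ∑ a ∈ X, inner ℝ (A.T (pt (D * L) (a + (D : ℤ) • (b + b'))) f) f ≤
        ∑ a ∈ Y, inner ℝ (A.T (pt (D * L) a) f) f := by
    intro b hb b' hb'
    rw [← Finset.sum_image (s := X) (g := fun a => a + (D : ℤ) • (b + b'))
      (f := fun a => inner ℝ (A.T (pt (D * L) a) f) f)]
    · refine Finset.sum_le_sum_of_subset_of_nonneg ?_ fun a _ _ => hf _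
      intro c hc
      obtain ⟨a, ha, rfl⟩ := Finset.mem_image.1 hc
      exact hXY a ha b hb b' hb'
    · intro a _ a' _ he
      exact add_right_cancel he
  have h1 : ∑ b ∈ box n R, ∑ b' ∈ box n R,
      ∑ a ∈ X, inner ℝ (A.T (pt (D * L) (a + (D : ℤ) • (b + b'))) f) f ≤
      ∑ b ∈ box n R, ∑ b' ∈ box n R, ∑ a ∈ Y, inner ℝ (A.T (pt (D * L) a) f) f :=
    Finset.sum_le_sum fun b hb1 => Finset.sum_le_sum fun b' hb2 => hb b hb1 b' hb2
  simp only [Finset.sum_const, nsmul_eq_mul, card_box_aux] at h1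
  have hc : (0 : ℝ) < ((2 * R + 1 : ℕ) : ℝ) ^ n := by positivity
  calc _ ≤ ((((2 * R + 1 : ℕ) : ℝ) ^ n)⁻¹) ^ 2 * (((2 * R + 1 : ℕ) : ℝ) ^ n *
        (((2 * R + 1 : ℕ) : ℝ) ^ n * ∑ a ∈ Y, inner ℝ (A.T (pt (D * L) a) f) f)) :=
        mul_le_mul_of_nonneg_left h1 (by positivity)
    _ = _ := by field_simp

end Pool.Agent.H18.QR
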