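import Pool.Agent.H18.QR.Sphere
import Pool.Agent.H18.QR.Shell
import Pool.Agent.H18.QR.Lower
import Pool.Agent.H18.QR.Count
import Pool.Agent.H18.QR.Rho

/-!
# QR-20: the main estimate

Constants in this order: `δ, N'`; `s = min(1, δ/(20 n N'))`; `c, η₀` from `count`; `ρ` from `rho`;
`ε = δ c ρ/16`; `Q, η₁` from `sphere_small`; `η = min(η₀, η₁, 1)` (the `η` of the theorem is `η/10`); `D`
from `rho`; `N₁` with `N₁ ≥ 20 n N'/δ` and `100 n/N₁ ≤ η`; `N`; `M₀`. Let `M = D L`.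
Suppose `inner ... ≥ δ` for some `g`. Let `X` be the set of `count` (intersected with nothing) and
`Y = shell n M D η`. For `a` in `X`, `b, b'` in `box n (L/N)`: `|D(b+b')_i| ≤ 2 M/N`, so
`| |a + D(b+b')|^2 - |a|^2 | ≤ 2 n M (2M/N) + n (2M/N)^2 ≤ 8 n M^2/N ≤ η M^2/10`, and `D` divides
`|a + D(b+b')|^2`: the sum lies in `Y`. Hence, by `corr_lower` (`K = floor(s M)`), `shell_aver`,
`shell_sum` and `sphere_small`:
`(δ/2) #X ≤ sum_Y φ ≤ (η M^2/D + 1) ε M^n/M^2 ≤ 2 ε η M^n/D` for `M` large, while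
`#X ≥ c η ρ D^(n-1) M^n/D^n = c ρ η M^n/D`. So `δ c ρ/2 ≤ 2 ε = δ c ρ/8`, a contradiction.
-/

namespace Pool.Agent.H18.QR

open Finset

/-- Perturbing a point of the inner part of the shell stays in the shell. -/
theorem shell_perturb {n D L R : ℕ} (hD : 0 < D) (η : ℝ) (hη : 0 < η) (hη1 : η ≤ 1)
    (hR : (80 : ℝ) * n * R ≤ η * L) (a b b' : Fin n → ℤ)
    (ha1 : (1 - 4 / 5 * η) * ((D * L : ℕ) : ℝ) ^ 2 ≤ (nsq a : ℝ))
    (ha2 : (nsq a : ℝ) ≤ (1 - η / 5) * ((D * L : ℕ) : ℝ) ^ 2) (haD : (D : ℤ) ∣ nsq a)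
    (hb : b ∈ box n R) (hb' : b' ∈ box n R) :
    a + (D : ℤ) • (b + b') ∈ shell n (D * L) D η := by
  set M : ℕ := D * L with hM
  have hMR : (M : ℝ) = D * L := by rw [hM]; push_cast; ring
  have hbi : ∀ i, |(b i : ℝ) + b' i| ≤ 2 * R := by
    intro i
    have h1 := Finset.mem_Icc.1 ((Fintype.mem_piFinset.1 hb) i)
    have h2 := Finset.mem_Icc.1 ((Fintype.mem_piFinset.1 hb') i)
    have e1 : (-(R : ℝ)) ≤ b i := by exact_mod_cast h1.1
    have e2 : (b i : ℝ) ≤ R := by exact_mod_cast h1.2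
    have e3 : (-(R : ℝ)) ≤ b' i := by exact_mod_cast h2.1
    have e4 : (b' i : ℝ) ≤ R := by exact_mod_cast h2.2
    rw [abs_le]; constructor <;> linarith
  have hM0 : (0 : ℝ) ≤ M := Nat.cast_nonneg _
  have haM : (nsq a : ℝ) ≤ (M : ℝ) ^ 2 := by
    refine ha2.trans ?_
    nlinarith [sq_nonneg (M : ℝ)]
  have hai : ∀ i, |(a i : ℝ)| ≤ M := by
    intro i
    apply abs_le_of_sq_le_sq _ hM0
    refine le_trans ?_ haM
    have : a i ^ 2 ≤ nsq a := Finset.single_le_sum (f := fun i => a i ^ 2)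
      (fun j _ => sq_nonneg (a j)) (Finset.mem_univ i)
    exact_mod_cast this
  -- the difference of the squared lengths
  have hdiff : (nsq (a + (D : ℤ) • (b + b')) : ℝ) - nsq a =
      ∑ i, (2 * (D : ℝ) * a i * (b i + b' i) + (D : ℝ) ^ 2 * (b i + b' i) ^ 2) := by
    unfold nsq
    push_cast
    rw [← Finset.sum_sub_distrib]
    refine Finset.sum_congr rfl fun i _ => ?_
    simp only [Pi.add_apply, Pi.smul_apply, smul_eq_mul]
    push_cast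
    ring
  have hDR : (0 : ℝ) < D := by exact_mod_cast hD
  have hR0 : (0 : ℝ) ≤ R := Nat.cast_nonneg _
  have hterm : ∀ i, |2 * (D : ℝ) * a i * (b i + b' i) + (D : ℝ) ^ 2 * (b i + b' i) ^ 2| ≤
      4 * ((D : ℝ) * R) * M + 4 * ((D : ℝ) * R) ^ 2 := by
    intro i
    refine (abs_add_le _ _).trans ?_
    rw [abs_mul, abs_mul, abs_mul, abs_mul, abs_of_pos hDR, abs_two, abs_pow, abs_pow,
      abs_of_pos hDR]
    have h1 := hai i
    have h2 := hbi i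
    have h3 : (0 : ℝ) ≤ |(a i : ℝ)| := abs_nonneg _
    have h4 : (0 : ℝ) ≤ |(b i : ℝ) + b' i| := abs_nonneg _
    have h5 : |(a i : ℝ)| * |(b i : ℝ) + b' i| ≤ M * (2 * R) := mul_le_mul h1 h2 h4 hM0
    have h6 : |(b i : ℝ) + b' i| ^ 2 ≤ (2 * R) ^ 2 := pow_le_pow_left₀ h4 h2 2
    nlinarith [mul_le_mul_of_nonneg_left h5 hDR.le,
      mul_le_mul_of_nonneg_left h6 (sq_nonneg (D : ℝ))]
  have hsum : |(nsq (a + (D : ℤ) • (b + b')) : ℝ) - nsq a| ≤ η / 10 * (M : ℝ) ^ 2 := by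
    rw [hdiff]
    refine (Finset.abs_sum_le_sum_abs _ _).trans ?_
    refine (Finset.sum_le_sum fun i _ => hterm i).trans ?_
    rw [Finset.sum_const, Finset.card_univ, Fintype.card_fin, nsmul_eq_mul]
    have hDRM : (80 : ℝ) * n * ((D : ℝ) * R) ≤ η * M := by
      rw [hMR]; nlinarith [mul_le_mul_of_nonneg_left hR hDR.le]
    have hDR0 : (0 : ℝ) ≤ (D : ℝ) * R := by positivity
    rcases Nat.eq_zero_or_pos n with hn | hn
    · subst hn; simp; positivity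
    · have hn1 : (1 : ℝ) ≤ n := by exact_mod_cast hn
      have hle : (D : ℝ) * R ≤ M := by nlinarith
      have h7 : (n : ℝ) * (4 * ((D : ℝ) * R) * M + 4 * ((D : ℝ) * R) ^ 2) ≤
          n * (8 * ((D : ℝ) * R) * M) := by
        apply mul_le_mul_of_nonneg_left _ (by linarith)
        nlinarith
      refine h7.trans ?_
      nlinarith
  rw [abs_le] at hsum
  have hu : (nsq (a + (D : ℤ) • (b + b')) : ℝ) ≤ (M : ℝ) ^ 2 := by
    nlinarith [sq_nonneg (M : ℝ), hsum.2]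
  have hl : (1 - η) * (M : ℝ) ^ 2 ≤ (nsq (a + (D : ℤ) • (b + b')) : ℝ) := by
    nlinarith [sq_nonneg (M : ℝ), hsum.1]
  unfold shell
  refine Finset.mem_filter.2 ⟨?_, hl, hu, ?_⟩
  · refine Fintype.mem_piFinset.2 fun i => ?_
    have h8 : (a + (D : ℤ) • (b + b')) i ^ 2 ≤ nsq (a + (D : ℤ) • (b + b')) :=
      Finset.single_le_sum (f := fun i => (a + (D : ℤ) • (b + b')) i ^ 2)
        (fun j _ => sq_nonneg _) (Finset.mem_univ i)
    have h9 : nsq (a + (D : ℤ) • (b + b')) ≤ (M : ℤ) ^ 2 := by exact_mod_cast hu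
    have h10 : |(a + (D : ℤ) • (b + b')) i| ≤ (M : ℤ) :=
      abs_le_of_sq_le_sq (h8.trans h9) (Int.natCast_nonneg _)
    exact Finset.mem_Icc.2 (abs_le.1 h10)
  · have h11 : nsq (a + (D : ℤ) • (b + b')) =
        nsq a + (D : ℤ) * ∑ i, (2 * a i * (b i + b' i) + D * (b i + b' i) ^ 2) := by
      unfold nsq
      rw [Finset.mul_sum, ← Finset.sum_add_distrib]
      refine Finset.sum_congr rfl fun i _ => ?_
      simp only [Pi.add_apply, Pi.smul_apply, smul_eq_mul]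
      ring
    rw [h11]
    exact dvd_add haD (dvd_mul_right _ _)

theorem main_est {n : ℕ} (hn : 5 ≤ n) (δ : ℝ) (hδ : 0 < δ) (N' : ℕ) (hN' : 0 < N') :
    ∃ (N₁ D : ℕ) (η : ℝ), 0 < D ∧ 0 < η ∧ ∀ N : ℕ, N₁ ≤ N → 0 < N → ∃ M₀ : ℕ, ∀ L : ℕ,
      M₀ ≤ L → N ∣ L → N' ∣ D * L →
      ∀ (H : Type) [SeminormedAddCommGroup H] [InnerProductSpace ℝ H] (A : Act n H) (f : H),
        ‖f‖ ≤ 1 → (∀ v : Fin n → ℚ, 0 ≤ inner ℝ (A.T v f) f) →
        (∀ v : Fin n → ℚ, ∑ i, v i ^ 2 = 1 → inner ℝ (A.T v f) f = 0) →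
        ‖A.W L (L / N) f - A.W (D * L) (D * L / N') f‖ ≤ δ / 10 →
        ∀ g : Fin n → ℤ, |(nsq g : ℝ) - ((D * L : ℕ) : ℝ) ^ 2| ≤ η * ((D * L : ℕ) : ℝ) ^ 2 →
          inner ℝ (A.T (pt (D * L) g) (A.W (D * L) (D * L / N') f))
            (A.W (D * L) (D * L / N') f) < δ := by
  have hn0 : 0 < n := by omega
  have hnR : (0 : ℝ) < n := by exact_mod_cast hn0
  have hN'R : (0 : ℝ) < N' := by exact_mod_cast hN'
  obtain ⟨s, hs⟩ : ∃ s : ℝ, s = min 1 (δ / (20 * n * N')) := ⟨_, rfl⟩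
  have hs0 : 0 < s := by rw [hs]; exact lt_min one_pos (by positivity)
  have hs1 : s ≤ 1 := by rw [hs]; exact min_le_left _ _
  have hs2 : s ≤ δ / (20 * n * N') := by rw [hs]; exact min_le_right _ _
  obtain ⟨c, η₀, hc, hη₀, hcount⟩ := count (n := n) (by omega) s hs0 hs1
  obtain ⟨ρ, hρ, hrho⟩ := rho hn
  obtain ⟨ε, hε⟩ : ∃ ε : ℝ, ε = δ * c * ρ / 16 := ⟨_, rfl⟩
  have hε0 : 0 < ε := by rw [hε]; positivity
  obtain ⟨Q, η₁, hQ, hη₁, hsph⟩ := sphere_small hn ε hε0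
  obtain ⟨η, hη⟩ : ∃ η : ℝ, η = min (min η₀ η₁) 1 := ⟨_, rfl⟩
  have hη0 : 0 < η := by rw [hη]; exact lt_min (lt_min hη₀ hη₁) one_pos
  have hη1 : η ≤ 1 := by rw [hη]; exact min_le_right _ _
  have hηa : η ≤ η₀ := by rw [hη]; exact (min_le_left _ _).trans (min_le_left _ _)
  have hηb : η ≤ η₁ := by rw [hη]; exact (min_le_left _ _).trans (min_le_right _ _)
  obtain ⟨D, hD, hDQ, hDres⟩ := hrho Q
  obtain ⟨M₁, hM₁⟩ := hcount η hη0 hηa D hD
  have hDR : (0 : ℝ) < D := by exact_mod_cast hD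
  refine ⟨Nat.ceil (20 * n * N' / δ) + Nat.ceil (80 * n / η), D, η / 10, hD, by positivity, ?_⟩
  intro N hN hNpos
  have hNR : (0 : ℝ) < N := by exact_mod_cast hNpos
  have hNa : 20 * n * N' / δ ≤ N := by
    refine (Nat.le_ceil _).trans ?_
    exact_mod_cast (Nat.le_add_right _ _).trans hN
  have hNb : 80 * n / η ≤ N := by
    refine (Nat.le_ceil _).trans ?_
    exact_mod_cast (Nat.le_add_left _ _).trans hN
  refine ⟨M₁ + Nat.ceil ((D : ℝ) / η) + 1, ?_⟩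
  intro L hL hNL hN'L H _ _ A f hf hpos hzero hW g hg
  by_contra hcon
  rw [not_lt] at hcon
  have hL0 : 0 < L := by omega
  obtain ⟨M, hM⟩ : ∃ M : ℕ, M = D * L := ⟨_, rfl⟩
  have hM0 : 0 < M := by rw [hM]; positivity
  have hMR0 : (0 : ℝ) < M := by exact_mod_cast hM0
  have hMR : (M : ℝ) = D * L := by rw [hM]; push_cast; ring
  have hLM : L ≤ M := by rw [hM]; exact Nat.le_mul_of_pos_left L hD
  have hMM₁ : M₁ ≤ M := by omega
  have hMη : (D : ℝ) / η ≤ M := by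
    refine (Nat.le_ceil _).trans ?_
    have : Nat.ceil ((D : ℝ) / η) ≤ M := by omega
    exact_mod_cast this
  rw [← hM] at hg hcon hW hN'L
  have hg' : |(nsq g : ℝ) - (M : ℝ) ^ 2| ≤ η / 10 * (M : ℝ) ^ 2 := hg
  have hX := hM₁ M hMM₁ g hg'
  obtain ⟨X, hXdef⟩ : ∃ X : Finset (Fin n → ℤ), X = ((box n (2 * M)).filter fun a =>
      (∀ i, |(a i : ℝ) - g i| ≤ s * M) ∧ (1 - 4 / 5 * η) * (M : ℝ) ^ 2 ≤ (nsq a : ℝ) ∧
        (nsq a : ℝ) ≤ (1 - η / 5) * (M : ℝ) ^ 2 ∧ (D : ℤ) ∣ nsq a) := ⟨_, rfl⟩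
  rw [← hXdef] at hX
  -- lower bound on each term
  have hlow : ∀ a ∈ X, δ / 2 ≤ inner ℝ (A.T (pt (D * L) a) (A.W L (L / N) f)) f := by
    intro a ha
    rw [hXdef, Finset.mem_filter] at ha
    refine corr_lower A f hf δ hδ D L N N' (Nat.floor (s * M)) hD hL0 hNpos hN' hNL
      (hM ▸ hN'L) ?_ ?_ (hM ▸ hW) g a ?_ (hM ▸ hcon)
    · rw [div_le_iff₀ hδ] at hNa
      linarith
    · have h1 : ((Nat.floor (s * M) : ℕ) : ℝ) ≤ s * M := Nat.floor_le (by positivity)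
      rw [← hMR]
      have h2 : s * (20 * n * N') ≤ δ := by
        rwa [le_div_iff₀ (by positivity)] at hs2
      have h3 : (10 : ℝ) * n * (Nat.floor (s * M) : ℕ) * N' ≤ 10 * n * (s * M) * N' := by
        gcongr
      refine h3.trans ?_
      nlinarith [mul_le_mul_of_nonneg_right h2 hMR0.le]
    · intro i
      have h4 := ha.2.1 i
      have h5 : ((|a i - g i| : ℤ) : ℝ) ≤ s * M := by push_cast; exact h4
      have h6 : |a i - g i| = ((|a i - g i|).toNat : ℤ) := by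
        rw [Int.toNat_of_nonneg (abs_nonneg _)]
      rw [h6]
      have h7 : (((|a i - g i|).toNat : ℕ) : ℝ) ≤ s * M := by
        have : (((|a i - g i|).toNat : ℕ) : ℝ) = ((|a i - g i| : ℤ) : ℝ) := by
          rw [← Int.cast_natCast, Int.toNat_of_nonneg (abs_nonneg _)]
        rw [this]; exact h5
      exact_mod_cast Nat.le_floor h7
  -- the perturbed points stay in the shell
  have hXY : ∀ a ∈ X, ∀ b ∈ box n (L / N), ∀ b' ∈ box n (L / N),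
      a + (D : ℤ) • (b + b') ∈ shell n (D * L) D η := by
    intro a ha b hb b' hb'
    rw [hXdef, Finset.mem_filter] at ha
    refine shell_perturb hD η hη0 hη1 ?_ a b b' ?_ ?_ ha.2.2.2.2 hb hb'
    · have h1 : ((L / N : ℕ) : ℝ) = L / N := Nat.cast_div hNL hNR.ne'
      rw [h1]
      rw [div_le_iff₀ hη0] at hNb
      have h2 : (80 : ℝ) * n * (L / N) = (80 * n) * L / N := by ring
      rw [h2, div_le_iff₀ hNR]
      have h3 : (0 : ℝ) ≤ L := Nat.cast_nonneg _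
      nlinarith [mul_le_mul_of_nonneg_right hNb h3]
    · rw [← hM]; exact ha.2.2.1
    · rw [← hM]; exact ha.2.2.2.1
  have h1 := shell_aver A D L (L / N) hD hL0 f hpos X (shell n (D * L) D η) hXY
  have h2 : ∑ a ∈ shell n (D * L) D η, inner ℝ (A.T (pt (D * L) a) f) f ≤
      (η * (M : ℝ) ^ 2 / D + 1) * (ε * ((M : ℝ) ^ n / (M : ℝ) ^ 2)) := by
    rw [← hM]
    refine shell_sum hM0 hD η _ hη0.le _ ?_ (by positivity)
    intro N₂ hDN hN₂ hN₂'
    refine hsph M D N₂ hM0 hDQ (hM ▸ dvd_mul_right _ _) hDN hN₂ ?_ H A f hf hzero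
    exact hN₂'.trans (by gcongr)
  have h3 : δ / 2 * (X.card : ℝ) ≤ ∑ a ∈ X, inner ℝ (A.T (pt (D * L) a) (A.W L (L / N) f)) f := by
    have := Finset.card_nsmul_le_sum X _ _ hlow
    rw [nsmul_eq_mul] at this
    linarith
  have h4 : δ / 2 * (X.card : ℝ) ≤ (η * (M : ℝ) ^ 2 / D + 1) *
      (ε * ((M : ℝ) ^ n / (M : ℝ) ^ 2)) := h3.trans (h1.trans h2)
  have h5 : (1 : ℝ) ≤ η * (M : ℝ) ^ 2 / D := by
    rw [le_div_iff₀ hDR]
    rw [div_le_iff₀ hη0] at hMη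
    have hM1 : (1 : ℝ) ≤ M := by exact_mod_cast hM0
    nlinarith
  have h6 : (η * (M : ℝ) ^ 2 / D + 1) * (ε * ((M : ℝ) ^ n / (M : ℝ) ^ 2)) ≤
      2 * ε * η * ((M : ℝ) ^ n / D) := by
    have h7 : (η * (M : ℝ) ^ 2 / D + 1) ≤ 2 * (η * (M : ℝ) ^ 2 / D) := by linarith
    have h8 : (0 : ℝ) ≤ ε * ((M : ℝ) ^ n / (M : ℝ) ^ 2) := by positivity
    refine (mul_le_mul_of_nonneg_right h7 h8).trans (le_of_eq ?_)
    field_simp
  have h9 : c * ρ * η * ((M : ℝ) ^ n / D) ≤ (X.card : ℝ) := by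
    refine le_trans ?_ hX
    have h10 : (D : ℝ) ^ n = D ^ (n - 1) * D := by
      rw [← pow_succ, Nat.sub_add_cancel (by omega)]
    have h11 : c * η * (ρ * (D : ℝ) ^ (n - 1)) * ((M : ℝ) ^ n / (D : ℝ) ^ n) ≤
        c * η * ((resid n D).card : ℝ) * ((M : ℝ) ^ n / (D : ℝ) ^ n) := by
      gcongr
    refine le_trans (le_of_eq ?_) h11
    rw [h10]
    have hD1 : ((D : ℝ) ^ (n - 1)) ≠ 0 := by positivity
    field_simp
  have h12 : (0 : ℝ) < η * ((M : ℝ) ^ n / D) := by positivity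
  have h13 : δ / 2 * (c * ρ * η * ((M : ℝ) ^ n / D)) ≤ 2 * ε * η * ((M : ℝ) ^ n / D) :=
    (mul_le_mul_of_nonneg_left h9 (by positivity)).trans (h4.trans h6)
  rw [hε] at h13
  have h14 : δ * c * ρ * (η * ((M : ℝ) ^ n / D)) ≤ δ * c * ρ / 4 * (η * ((M : ℝ) ^ n / D)) := by
    linarith
  have h15 : (0 : ℝ) < δ * c * ρ * (η * ((M : ℝ) ^ n / D)) := by positivity
  linarith

end Pool.Agent.H18.QR
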