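import Pool.Agent.H18.QR.Herg

/-!
# QR-15: an invariant mean on `Q^n`

For `f` bounded let `A_j f` be the average of `f (b/j!)` over `b` in `box n (j * j!)`, and let `m f` be the
limit of `A_j f` along a fixed ultrafilter on `ℕ` finer than `atTop` (`Filter.hyperfilter ℕ`; bounded
real sequences converge along ultrafilters). Linearity, positivity, `m 1 = 1` are clear.
Invariance: if `j` is large, `v = b'/j!` with `|b'_i| ≤ C j!`, and the box and its translate by `b'`
differ in a proportion `≤ 2 n C/j → 0` of their points.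
Last property: for `j ≥ M`, `pt M a = a'/j!` with `a' = (j!/M) a`; put
`h b = f (b/j!)` for `b` in the box and `0` otherwise. By `herg_finite` for the polynomial
`sum_a c_a e(a'.θ) = p((j!/M) θ)` (the map `a ↦ a'` is injective):
`|sum_a c_a sum_b h(b) h(b+a')| ≤ ε sum_b h(b)^2`. Divide by the number of points of the box; up to
`O(1/j)` this is `|sum_a c_a A_j(f(.+a/M) f)| ≤ ε A_j(f^2)`; pass to the limit.
-/

namespace Pool.Agent.H18.QR

open Finset

open Filter Topology

private lemma mean_card_Icc (R : ℕ) : (Finset.Icc (-(R : ℤ)) R).card = 2 * R + 1 := by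
  rw [Int.card_Icc]
  omega

private lemma mean_card_box (n R : ℕ) : ((box n R).card : ℝ) = ((2 * R + 1 : ℕ) : ℝ) ^ n := by
  unfold box
  rw [Fintype.card_piFinset_const, mean_card_Icc]
  push_cast
  rfl

private lemma mean_out1 (R : ℕ) (d : ℤ) :
    (((Finset.Icc (-(R : ℤ)) R).filter (fun x => x + d ∉ Finset.Icc (-(R : ℤ)) R)).card : ℝ)
      ≤ |(d : ℝ)| := by
  have h : ((Finset.Icc (-(R : ℤ)) R).filter (fun x => x + d ∉ Finset.Icc (-(R : ℤ)) R)).card
      ≤ d.natAbs := by
    rcases le_total 0 d with hd | hd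
    · refine (Finset.card_le_card (t := Finset.Ioc (R - d) R) ?_).trans ?_
      · intro x hx
        rw [Finset.mem_filter, Finset.mem_Icc, Finset.mem_Icc] at hx
        rw [Finset.mem_Ioc]
        omega
      · rw [Int.card_Ioc]
        omega
    · refine (Finset.card_le_card (t := Finset.Ico (-(R : ℤ)) (-(R : ℤ) - d)) ?_).trans ?_
      · intro x hx
        rw [Finset.mem_filter, Finset.mem_Icc, Finset.mem_Icc] at hx
        rw [Finset.mem_Ico]
        omega
      · rw [Int.card_Ico]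
        omega
  have h2 : ((d.natAbs : ℕ) : ℝ) = |(d : ℝ)| := by
    rw [← Int.cast_abs, Int.abs_eq_natAbs, Int.cast_natCast]
  rw [← h2]
  exact_mod_cast h

private lemma mean_out (n R : ℕ) (d : Fin n → ℤ) :
    (((box n R).filter (fun b => b + d ∉ box n R)).card : ℝ) ≤
      ((∑ i, |(d i : ℝ)|) / ((2 * R + 1 : ℕ) : ℝ)) * ((2 * R + 1 : ℕ) : ℝ) ^ n := by
  classical
  have hsub : (box n R).filter (fun b => b + d ∉ box n R) ⊆ Finset.univ.biUnion (fun i : Fin n =>
      Fintype.piFinset (fun k => if k = i then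
        (Finset.Icc (-(R : ℤ)) R).filter (fun x => x + d i ∉ Finset.Icc (-(R : ℤ)) R)
        else Finset.Icc (-(R : ℤ)) R)) := by
    intro b hb
    rw [Finset.mem_filter] at hb
    obtain ⟨h1, h2⟩ := hb
    unfold box at h1 h2
    rw [Fintype.mem_piFinset] at h1 h2
    push Not at h2
    obtain ⟨i, hi⟩ := h2
    rw [Finset.mem_biUnion]
    refine ⟨i, Finset.mem_univ _, ?_⟩
    rw [Fintype.mem_piFinset]
    intro k
    by_cases hk : k = i
    · subst hk
      rw [if_pos rfl, Finset.mem_filter]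
      exact ⟨h1 _, hi⟩
    · rw [if_neg hk]
      exact h1 k
  have hcard : ∀ i : Fin n, ((Fintype.piFinset (fun k => if k = i then
        (Finset.Icc (-(R : ℤ)) R).filter (fun x => x + d i ∉ Finset.Icc (-(R : ℤ)) R)
        else Finset.Icc (-(R : ℤ)) R)).card : ℝ) ≤
        (|(d i : ℝ)| / ((2 * R + 1 : ℕ) : ℝ)) * ((2 * R + 1 : ℕ) : ℝ) ^ n := by
    intro i
    rw [Fintype.card_piFinset, ← Finset.mul_prod_erase Finset.univ _ (Finset.mem_univ i),
      if_pos rfl]
    have e1 : ∏ x ∈ Finset.univ.erase i, (if x = i then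
        (Finset.Icc (-(R : ℤ)) R).filter (fun x => x + d i ∉ Finset.Icc (-(R : ℤ)) R)
        else Finset.Icc (-(R : ℤ)) R).card = (2 * R + 1) ^ (n - 1) := by
      rw [Finset.prod_congr rfl (g := fun _ => 2 * R + 1)]
      · rw [Finset.prod_const, Finset.card_erase_of_mem (Finset.mem_univ i), Finset.card_univ,
          Fintype.card_fin]
      · intro x hx
        rw [if_neg (Finset.ne_of_mem_erase hx), mean_card_Icc]
    rw [e1]
    have hn : n = (n - 1) + 1 := by
      have := i.pos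
      omega
    have hR : (0 : ℝ) < ((2 * R + 1 : ℕ) : ℝ) := by positivity
    have e2 : (|(d i : ℝ)| / ((2 * R + 1 : ℕ) : ℝ)) * ((2 * R + 1 : ℕ) : ℝ) ^ n =
        |(d i : ℝ)| * ((2 * R + 1 : ℕ) : ℝ) ^ (n - 1) := by
      conv_lhs => rw [hn, pow_succ]
      field_simp
    rw [e2]
    push_cast
    have h3 := mean_out1 R (d i)
    gcongr
  calc (((box n R).filter (fun b => b + d ∉ box n R)).card : ℝ)
      ≤ ((Finset.univ.biUnion (fun i : Fin n =>
      Fintype.piFinset (fun k => if k = i then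
        (Finset.Icc (-(R : ℤ)) R).filter (fun x => x + d i ∉ Finset.Icc (-(R : ℤ)) R)
        else Finset.Icc (-(R : ℤ)) R))).card : ℝ) := by exact_mod_cast Finset.card_le_card hsub
    _ ≤ ∑ i : Fin n, ((Fintype.piFinset (fun k => if k = i then
        (Finset.Icc (-(R : ℤ)) R).filter (fun x => x + d i ∉ Finset.Icc (-(R : ℤ)) R)
        else Finset.Icc (-(R : ℤ)) R)).card : ℝ) := by exact_mod_cast Finset.card_biUnion_le
    _ ≤ ∑ i : Fin n, (|(d i : ℝ)| / ((2 * R + 1 : ℕ) : ℝ)) * ((2 * R + 1 : ℕ) : ℝ) ^ n :=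
        Finset.sum_le_sum fun i _ => hcard i
    _ = _ := by rw [← Finset.sum_mul, Finset.sum_div]

private lemma mean_abs_sum {α : Type} (s : Finset α) (g : α → ℝ) (C : ℝ) (hg : ∀ b, |g b| ≤ C) :
    |∑ b ∈ s, g b| ≤ C * s.card := by
  refine (Finset.abs_sum_le_sum_abs _ _).trans ?_
  refine (Finset.sum_le_card_nsmul _ _ _ fun b _ => hg b).trans ?_
  rw [nsmul_eq_mul, mul_comm]

private lemma mean_shift_sum {n R : ℕ} (d : Fin n → ℤ) (g : (Fin n → ℤ) → ℝ) (C : ℝ)
    (hC0 : 0 ≤ C) (hg : ∀ b, |g b| ≤ C) :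
    |∑ b ∈ box n R, g (b + d) - ∑ b ∈ box n R, g b| ≤
      2 * C * (((∑ i, |(d i : ℝ)|) / ((2 * R + 1 : ℕ) : ℝ)) * ((2 * R + 1 : ℕ) : ℝ) ^ n) := by
  classical
  have h1 := Finset.sum_filter_add_sum_filter_not (box n R) (fun b => b + d ∈ box n R)
    (fun b => g (b + d))
  have h2 := Finset.sum_filter_add_sum_filter_not (box n R) (fun b => b + (-d) ∈ box n R) g
  have h3 : ∑ b ∈ (box n R).filter (fun b => b + d ∈ box n R), g (b + d) =
      ∑ b ∈ (box n R).filter (fun b => b + (-d) ∈ box n R), g b := by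
    refine Finset.sum_nbij' (fun b => b + d) (fun b => b + (-d)) ?_ ?_ ?_ ?_ ?_
    · intro b hb
      rw [Finset.mem_filter] at hb ⊢
      refine ⟨hb.2, ?_⟩
      rw [add_assoc, add_neg_cancel, add_zero]
      exact hb.1
    · intro b hb
      rw [Finset.mem_filter] at hb ⊢
      refine ⟨hb.2, ?_⟩
      rw [add_assoc, neg_add_cancel, add_zero]
      exact hb.1
    · intro b _
      simp
    · intro b _
      simp
    · intro b _
      rfl
  have h4 : ∑ b ∈ box n R, g (b + d) - ∑ b ∈ box n R, g b =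
      ∑ b ∈ (box n R).filter (fun b => ¬ b + d ∈ box n R), g (b + d) -
      ∑ b ∈ (box n R).filter (fun b => ¬ b + (-d) ∈ box n R), g b := by
    rw [← h1, ← h2, h3]
    ring
  rw [h4]
  have h5 := mean_abs_sum ((box n R).filter (fun b => ¬ b + d ∈ box n R)) (fun b => g (b + d)) C
    (fun b => hg _)
  have h6 := mean_abs_sum ((box n R).filter (fun b => ¬ b + (-d) ∈ box n R)) g C hg
  have h7 := mean_out n R d
  have h8 := mean_out n R (-d)
  simp only [Pi.neg_apply, Int.cast_neg, abs_neg] at h8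
  have h9 := abs_sub (∑ b ∈ (box n R).filter (fun b => ¬ b + d ∈ box n R), g (b + d))
    (∑ b ∈ (box n R).filter (fun b => ¬ b + (-d) ∈ box n R), g b)
  have h10 := mul_le_mul_of_nonneg_left h7 hC0
  have h11 := mul_le_mul_of_nonneg_left h8 hC0
  linarith

/-- the average of `f` over the box number `j` -/
private noncomputable def av {n : ℕ} (j : ℕ) (f : BF n) : ℝ :=
  (((2 * (j * j.factorial) + 1 : ℕ) : ℝ) ^ n)⁻¹ *
    ∑ b ∈ box n (j * j.factorial), f.1 (pt j.factorial b)

private lemma av_pos (n j : ℕ) : (0 : ℝ) < ((2 * (j * j.factorial) + 1 : ℕ) : ℝ) ^ n := by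
  positivity

private lemma av_add {n : ℕ} (j : ℕ) (f g : BF n) : av j (f + g) = av j f + av j g := by
  unfold av
  rw [← mul_add, ← Finset.sum_add_distrib]
  rfl

private lemma av_smul {n : ℕ} (j : ℕ) (r : ℝ) (f : BF n) : av j (r • f) = r * av j f := by
  have h : ∑ b ∈ box n (j * j.factorial), (r • f).1 (pt j.factorial b) =
      r * ∑ b ∈ box n (j * j.factorial), f.1 (pt j.factorial b) := by
    rw [Finset.mul_sum]
    rfl
  unfold av
  rw [h]
  ring

private lemma av_abs {n : ℕ} (j : ℕ) (f : BF n) (C : ℝ) (hC : ∀ x, |f.1 x| ≤ C) :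
    |av j f| ≤ C := by
  unfold av
  rw [abs_mul, abs_inv, abs_of_pos (av_pos n j), inv_mul_le_iff₀ (av_pos n j)]
  refine (mean_abs_sum _ _ C (fun b => hC _)).trans ?_
  rw [mean_card_box, mul_comm]

private lemma av_one {n : ℕ} (j : ℕ) : av j (1 : BF n) = 1 := by
  unfold av
  have h : ∑ b ∈ box n (j * j.factorial), (1 : BF n).1 (pt j.factorial b) =
      ((2 * (j * j.factorial) + 1 : ℕ) : ℝ) ^ n := by
    rw [← mean_card_box]
    have e : ∀ b ∈ box n (j * j.factorial), (1 : BF n).1 (pt j.factorial b) = 1 := fun _ _ => rfl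
    rw [Finset.sum_congr rfl e, Finset.sum_const, nsmul_eq_mul, mul_one]
  rw [h]
  exact inv_mul_cancel₀ (av_pos n j).ne'

private lemma av_nonneg {n : ℕ} (j : ℕ) (f : BF n) (hf : ∀ x, 0 ≤ f.1 x) : 0 ≤ av j f := by
  unfold av
  exact mul_nonneg (inv_nonneg.2 (av_pos n j).le) (Finset.sum_nonneg fun b _ => hf _)

private lemma av_lim {n : ℕ} (f : BF n) : ∃ x : ℝ,
    Tendsto (fun j => av j f) (hyperfilter ℕ : Filter ℕ) (𝓝 x) := by
  obtain ⟨C, hC⟩ := f.2
  have h2 := (isCompact_Icc (a := -C) (b := C)).ultrafilter_le_nhds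
    ((hyperfilter ℕ).map (fun j => av j f)) (by
      rw [le_principal_iff]
      change ∀ᶠ j in (hyperfilter ℕ : Filter ℕ), av j f ∈ Set.Icc (-C) C
      refine Eventually.of_forall fun j => ?_
      exact abs_le.1 (av_abs j f C hC))
  obtain ⟨x, _, hx⟩ := h2
  exact ⟨x, hx⟩

/-- the bound for the proportion of points leaving the box -/
private lemma mean_ratio {j : ℕ} (hj : 1 ≤ j) {V s : ℝ} (hV : 0 ≤ V)
    (hs : s ≤ V * j.factorial) :
    s / ((2 * (j * j.factorial) + 1 : ℕ) : ℝ) ≤ V / j := by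
  have h1 : (0 : ℝ) < ((2 * (j * j.factorial) + 1 : ℕ) : ℝ) := by positivity
  have h2 : (0 : ℝ) < j := by exact_mod_cast hj
  rw [div_le_div_iff₀ h1 h2]
  have h3 : (0 : ℝ) < j.factorial := by exact_mod_cast j.factorial_pos
  have h4 : s * j ≤ V * j.factorial * j := mul_le_mul_of_nonneg_right hs h2.le
  have h5 : V * j.factorial * j ≤ V * ((2 * (j * j.factorial) + 1 : ℕ) : ℝ) := by
    rw [mul_assoc]
    refine mul_le_mul_of_nonneg_left ?_ hV
    push_cast
    nlinarith [mul_pos h3 h2]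
  exact h4.trans h5

private lemma mean_int {j : ℕ} {q : ℚ} (h : q.den ≤ j) : ∃ d : ℤ, (d : ℚ) = q * j.factorial := by
  have h1 : q.den ∣ j.factorial := Nat.dvd_factorial q.den_pos h
  obtain ⟨k, hk⟩ := h1
  refine ⟨q.num * k, ?_⟩
  rw [hk]
  push_cast
  rw [← mul_assoc, Rat.mul_den_eq_num]

private lemma mean_inv {n : ℕ} (v : Fin n → ℚ) (f : BF n) :
    Tendsto (fun j => av j (BF.shift v f) - av j f) atTop (𝓝 0) := by
  obtain ⟨C, hC⟩ := f.2
  have hC0 : 0 ≤ C := (abs_nonneg _).trans (hC 0)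
  have hlim : Tendsto (fun j : ℕ => 2 * C * ((∑ i, |(v i : ℝ)|) / (j : ℝ))) atTop (𝓝 0) := by
    have := (tendsto_const_div_atTop_nhds_zero_nat (∑ i, |(v i : ℝ)|)).const_mul (2 * C)
    simpa using this
  refine squeeze_zero_norm' ?_ hlim
  filter_upwards [eventually_ge_atTop (1 + ∑ i, (v i).den)] with j hj
  have hj1 : 1 ≤ j := by omega
  have hden : ∀ i, (v i).den ≤ j := by
    intro i
    have := Finset.single_le_sum (f := fun i => (v i).den) (fun _ _ => Nat.zero_le _)
      (Finset.mem_univ i)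
    omega
  choose d hd using fun i => mean_int (hden i)
  have hjf : ((j.factorial : ℕ) : ℚ) ≠ 0 := by exact_mod_cast j.factorial_pos.ne'
  have hpt : ∀ b, pt j.factorial b + v = pt j.factorial (b + d) := by
    intro b
    funext i
    unfold pt
    simp only [Pi.add_apply]
    push_cast
    rw [hd i]
    field_simp
  have hdabs : ∀ i, |(d i : ℝ)| = |(v i : ℝ)| * j.factorial := by
    intro i
    have h1 : ((d i : ℚ) : ℝ) = ((v i * j.factorial : ℚ) : ℝ) := by rw [hd i]
    push_cast at h1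
    rw [h1, abs_mul, abs_of_nonneg (by positivity : (0 : ℝ) ≤ (j.factorial : ℝ))]
  have h1 := mean_shift_sum (R := j * j.factorial) d (fun b => f.1 (pt j.factorial b)) C hC0
    (fun b => hC _)
  have h2 : av j (BF.shift v f) - av j f = (((2 * (j * j.factorial) + 1 : ℕ) : ℝ) ^ n)⁻¹ *
      (∑ b ∈ box n (j * j.factorial), f.1 (pt j.factorial (b + d)) -
        ∑ b ∈ box n (j * j.factorial), f.1 (pt j.factorial b)) := by
    unfold av
    rw [mul_sub]
    congr 2
    refine Finset.sum_congr rfl fun b _ => ?_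
    change f.1 (pt j.factorial b + v) = _
    rw [hpt]
  rw [Real.norm_eq_abs, h2, abs_mul, abs_inv, abs_of_pos (av_pos n j),
    inv_mul_le_iff₀ (av_pos n j)]
  refine h1.trans ?_
  have h3 : (∑ i, |(d i : ℝ)|) / ((2 * (j * j.factorial) + 1 : ℕ) : ℝ) ≤
      (∑ i, |(v i : ℝ)|) / (j : ℝ) := by
    refine mean_ratio hj1 (Finset.sum_nonneg fun i _ => abs_nonneg _) ?_
    rw [Finset.sum_mul]
    exact le_of_eq (Finset.sum_congr rfl fun i _ => hdabs i)
  have h4 := av_pos n j
  calc 2 * C * ((∑ i, |(d i : ℝ)|) / ((2 * (j * j.factorial) + 1 : ℕ) : ℝ) *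
        ((2 * (j * j.factorial) + 1 : ℕ) : ℝ) ^ n)
      ≤ 2 * C * ((∑ i, |(v i : ℝ)|) / (j : ℝ) * ((2 * (j * j.factorial) + 1 : ℕ) : ℝ) ^ n) := by
        gcongr
    _ = _ := by ring

private lemma mean_e_smul {n : ℕ} (k : ℤ) (a : Fin n → ℤ) (θ : Fin n → ℝ) :
    dotR (fun i => k * a i) θ = dotR a (fun i => k * θ i) := by
  unfold dotR
  refine Finset.sum_congr rfl fun i _ => ?_
  push_cast
  ring

private lemma mean_herg {n : ℕ} (M : ℕ) (hM : 0 < M) (S : Finset (Fin n → ℤ))
    (c : (Fin n → ℤ) → ℝ) (ε : ℝ)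
    (hp : ∀ θ : Fin n → ℝ, ‖∑ a ∈ S, (c a : ℂ) * e (dotR a θ)‖ ≤ ε) (f : BF n) :
    ∃ E : ℝ, ∀ j : ℕ, M ≤ j → |∑ a ∈ S, c a * av j (BF.shift (pt M a) f * f)| ≤
      ε * av j (f * f) + E / j := by
  classical
  obtain ⟨C, hC⟩ := f.2
  have hC0 : 0 ≤ C := (abs_nonneg _).trans (hC 0)
  refine ⟨∑ a ∈ S, |c a| * (C * C * ∑ i, |(a i : ℝ)|), fun j hj => ?_⟩
  have hj1 : 1 ≤ j := by omega
  obtain ⟨k, hk⟩ : M ∣ j.factorial := Nat.dvd_factorial hM hj
  have hk0 : 0 < k := by
    rcases Nat.eq_zero_or_pos k with h | h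
    · rw [h, mul_zero] at hk
      exact absurd hk j.factorial_pos.ne'
    · exact h
  have hkj : k ≤ j.factorial := by
    rw [hk]
    exact Nat.le_mul_of_pos_left _ hM
  set R := j * j.factorial with hR
  set P : ℝ := ((2 * R + 1 : ℕ) : ℝ) ^ n with hP
  have hPpos : 0 < P := av_pos n j
  -- the translations
  have hpt : ∀ (a b : Fin n → ℤ), pt j.factorial b + pt M a =
      pt j.factorial (b + fun i => (k : ℤ) * a i) := by
    intro a b
    funext i
    unfold pt
    simp only [Pi.add_apply]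
    rw [hk]
    have hM' : (M : ℚ) ≠ 0 := by exact_mod_cast hM.ne'
    have hk' : (k : ℚ) ≠ 0 := by exact_mod_cast hk0.ne'
    push_cast
    field_simp
  set h : (Fin n → ℤ) → ℝ := fun b => if b ∈ box n R then f.1 (pt j.factorial b) else 0 with hh
  have hX : ∀ x, x ∉ box n R → h x = 0 := fun x hx => by rw [hh]; simp [hx]
  have hinj : Function.Injective (fun (a : Fin n → ℤ) => (fun i => (k : ℤ) * a i : Fin n → ℤ)) := by
    intro a a' haa
    funext i
    have h1 := congrFun haa i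
    simp only at h1
    exact mul_left_cancel₀ (by exact_mod_cast hk0.ne') h1
  have hdiv : ∀ a : Fin n → ℤ, (fun i => ((k : ℤ) * a i) / (k : ℤ)) = a := by
    intro a
    funext i
    exact Int.mul_ediv_cancel_left _ (by exact_mod_cast hk0.ne')
  have hH := herg_finite (S.image (fun (a : Fin n → ℤ) => (fun i => (k : ℤ) * a i : Fin n → ℤ)))
    (fun x => c (fun i => x i / (k : ℤ))) ε (fun θ => by
      rw [Finset.sum_image (fun a _ a' _ haa => hinj haa)]
      simp only [hdiv, mean_e_smul]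
      exact hp _) (box n R) h hX
  rw [Finset.sum_image (fun a _ a' _ haa => hinj haa)] at hH
  simp only [hdiv] at hH
  have hsq : ∑ x ∈ box n R, h x ^ 2 = P * av j (f * f) := by
    unfold av
    rw [← hR, ← hP, mul_inv_cancel_left₀ hPpos.ne']
    refine Finset.sum_congr rfl fun b hb => ?_
    have e1 : h b = f.1 (pt j.factorial b) := by rw [hh]; simp [hb]
    rw [e1, sq]
    rfl
  have hdiff : ∀ a ∈ S, |c a * (P * av j (BF.shift (pt M a) f * f)) -
      c a * ∑ x ∈ box n R, h x * h (x + fun i => (k : ℤ) * a i)| ≤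
      |c a| * (C * C * ∑ i, |(a i : ℝ)|) / j * P := by
    intro a _
    rw [← mul_sub, abs_mul]
    have e1 : P * av j (BF.shift (pt M a) f * f) -
        ∑ x ∈ box n R, h x * h (x + fun i => (k : ℤ) * a i) =
        ∑ x ∈ (box n R).filter (fun x => ¬ (x + fun i => (k : ℤ) * a i) ∈ box n R),
          f.1 (pt j.factorial (x + fun i => (k : ℤ) * a i)) * f.1 (pt j.factorial x) := by
      unfold av
      rw [← hR, ← hP, mul_inv_cancel_left₀ hPpos.ne', ← Finset.sum_sub_distrib,
        Finset.sum_filter]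
      refine Finset.sum_congr rfl fun b hb => ?_
      have e2 : (BF.shift (pt M a) f * f).1 (pt j.factorial b) =
          f.1 (pt j.factorial (b + fun i => (k : ℤ) * a i)) * f.1 (pt j.factorial b) := by
        rw [← hpt]
        rfl
      rw [e2]
      have e3 : h b = f.1 (pt j.factorial b) := by rw [hh]; simp [hb]
      rw [e3]
      by_cases hb2 : (b + fun i => (k : ℤ) * a i) ∈ box n R
      · have e4 : h (b + fun i => (k : ℤ) * a i) =
            f.1 (pt j.factorial (b + fun i => (k : ℤ) * a i)) := by rw [hh]; simp [hb2]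
        rw [e4, if_neg (not_not.2 hb2)]
        ring
      · rw [hX _ hb2, if_pos hb2]
        ring
    rw [e1]
    have h5 := mean_abs_sum ((box n R).filter (fun x => ¬ (x + fun i => (k : ℤ) * a i) ∈ box n R))
      (fun x => f.1 (pt j.factorial (x + fun i => (k : ℤ) * a i)) * f.1 (pt j.factorial x)) (C * C)
      (fun x => by
        rw [abs_mul]
        exact mul_le_mul (hC _) (hC _) (abs_nonneg _) hC0)
    have h6 := mean_out n R (fun i => (k : ℤ) * a i)
    have h7 : (∑ i, |((((k : ℤ) * a i : ℤ)) : ℝ)|) / ((2 * R + 1 : ℕ) : ℝ) ≤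
        (∑ i, |(a i : ℝ)|) / (j : ℝ) := by
      refine mean_ratio hj1 (Finset.sum_nonneg fun i _ => abs_nonneg _) ?_
      rw [Finset.sum_mul]
      refine Finset.sum_le_sum fun i _ => ?_
      push_cast
      rw [abs_mul, mul_comm, abs_of_nonneg (by positivity : (0 : ℝ) ≤ (k : ℝ))]
      have : (k : ℝ) ≤ j.factorial := by exact_mod_cast hkj
      gcongr
    have h8 : (((box n R).filter (fun x => ¬ (x + fun i => (k : ℤ) * a i) ∈ box n R)).card : ℝ) ≤
        (∑ i, |(a i : ℝ)|) / (j : ℝ) * P := h6.trans (by gcongr)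
    calc |c a| * |∑ x ∈ (box n R).filter (fun x => ¬ (x + fun i => (k : ℤ) * a i) ∈ box n R),
          f.1 (pt j.factorial (x + fun i => (k : ℤ) * a i)) * f.1 (pt j.factorial x)|
        ≤ |c a| * (C * C * ((∑ i, |(a i : ℝ)|) / (j : ℝ) * P)) := by
          refine mul_le_mul_of_nonneg_left (h5.trans ?_) (abs_nonneg _)
          exact mul_le_mul_of_nonneg_left h8 (mul_nonneg hC0 hC0)
      _ = _ := by ring
  have hmain : P * |∑ a ∈ S, c a * av j (BF.shift (pt M a) f * f)| ≤
      P * (ε * av j (f * f) + (∑ a ∈ S, |c a| * (C * C * ∑ i, |(a i : ℝ)|)) / j) := by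
    have e1 : P * |∑ a ∈ S, c a * av j (BF.shift (pt M a) f * f)| =
        |∑ a ∈ S, c a * (P * av j (BF.shift (pt M a) f * f))| := by
      have e4 : ∑ a ∈ S, c a * (P * av j (BF.shift (pt M a) f * f)) =
          P * ∑ a ∈ S, c a * av j (BF.shift (pt M a) f * f) := by
        rw [Finset.mul_sum]
        exact Finset.sum_congr rfl fun a _ => by ring
      rw [e4, abs_mul, abs_of_pos hPpos]
    rw [e1]
    have e2 : ∑ a ∈ S, c a * (P * av j (BF.shift (pt M a) f * f)) =
        ∑ a ∈ S, (c a * (P * av j (BF.shift (pt M a) f * f)) -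
          c a * ∑ x ∈ box n R, h x * h (x + fun i => (k : ℤ) * a i)) +
        ∑ a ∈ S, c a * ∑ x ∈ box n R, h x * h (x + fun i => (k : ℤ) * a i) := by
      rw [← Finset.sum_add_distrib]
      exact Finset.sum_congr rfl fun a _ => by ring
    rw [e2]
    refine (abs_add_le _ _).trans ?_
    have h9 : |∑ a ∈ S, (c a * (P * av j (BF.shift (pt M a) f * f)) -
          c a * ∑ x ∈ box n R, h x * h (x + fun i => (k : ℤ) * a i))| ≤
        ∑ a ∈ S, |c a| * (C * C * ∑ i, |(a i : ℝ)|) / j * P :=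
      (Finset.abs_sum_le_sum_abs _ _).trans (Finset.sum_le_sum hdiff)
    rw [hsq] at hH
    have e3 : ∑ a ∈ S, |c a| * (C * C * ∑ i, |(a i : ℝ)|) / j * P =
        P * ((∑ a ∈ S, |c a| * (C * C * ∑ i, |(a i : ℝ)|)) / j) := by
      rw [← Finset.sum_mul, ← Finset.sum_div, mul_comm]
    rw [e3] at h9
    calc _ ≤ P * ((∑ a ∈ S, |c a| * (C * C * ∑ i, |(a i : ℝ)|)) / j) + ε * (P * av j (f * f)) :=
          add_le_add h9 hH
      _ = _ := by ring
  exact le_of_mul_le_mul_left hmain hPpos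

theorem exists_mean (n : ℕ) : ∃ m : BF n →ₗ[ℝ] ℝ,
    (∀ f : BF n, (∀ x, 0 ≤ f.1 x) → 0 ≤ m f) ∧ m 1 = 1 ∧
    (∀ (v : Fin n → ℚ) (f : BF n), m (BF.shift v f) = m f) ∧
    (∀ (M : ℕ), 0 < M → ∀ (S : Finset (Fin n → ℤ)) (c : (Fin n → ℤ) → ℝ) (ε : ℝ),
      (∀ θ : Fin n → ℝ, ‖∑ a ∈ S, (c a : ℂ) * e (dotR a θ)‖ ≤ ε) →
      ∀ f : BF n, |∑ a ∈ S, c a * m (BF.shift (pt M a) f * f)| ≤ ε * m (f * f)) := by
  choose m hm using fun f : BF n => av_lim f
  have hle : (hyperfilter ℕ : Filter ℕ) ≤ atTop := Nat.hyperfilter_le_atTop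
  refine ⟨⟨⟨m, fun f g => ?_⟩, fun r f => ?_⟩, ?_, ?_, ?_, ?_⟩
  · refine tendsto_nhds_unique (hm (f + g)) ?_
    simp only [av_add]
    exact (hm f).add (hm g)
  · refine tendsto_nhds_unique (hm (r • f)) ?_
    simp only [av_smul]
    exact (hm f).const_mul r
  · intro f hf
    exact ge_of_tendsto' (hm f) fun j => av_nonneg j f hf
  · refine tendsto_nhds_unique (hm 1) ?_
    simp only [av_one]
    exact tendsto_const_nhds
  · intro v f
    have h1 := (hm (BF.shift v f)).sub (hm f)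
    have h2 := (mean_inv v f).mono_left hle
    have h3 := tendsto_nhds_unique h1 h2
    exact sub_eq_zero.1 h3
  · intro M hM S c ε hp f
    obtain ⟨E, hE⟩ := mean_herg M hM S c ε hp f
    have h1 : Tendsto (fun j => |∑ a ∈ S, c a * av j (BF.shift (pt M a) f * f)|)
        (hyperfilter ℕ : Filter ℕ) (𝓝 |∑ a ∈ S, c a * m (BF.shift (pt M a) f * f)|) := by
      refine Tendsto.abs ?_
      exact tendsto_finsetSum _ fun a _ => (hm _).const_mul _
    have h2 : Tendsto (fun j : ℕ => ε * av j (f * f) + E / (j : ℝ))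
        (hyperfilter ℕ : Filter ℕ) (𝓝 (ε * m (f * f) + 0)) := by
      refine Tendsto.add ((hm _).const_mul _) ?_
      exact (tendsto_const_div_atTop_nhds_zero_nat E).mono_left hle
    rw [add_zero] at h2
    refine le_of_tendsto_of_tendsto h1 h2 ?_
    exact hle (by
      filter_upwards [eventually_ge_atTop M] with j hj
      exact hE j hj)

end Pool.Agent.H18.QR
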