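import Pool.Agent.H18.QR.Defs

/-!
# QR-08: solutions of `|a|^2 = 0` modulo `D = 4 * 30030^K` (30030 = 2*3*5*7*11*13)

Put `m = 60060 = 2 * 30030` and `D = 4 * 30030^K`, `K ≥ 1`; so `2 m = 120120` divides `D`.
(a) Every `v` in `Z/D` with `v = 1 mod 2m` is a square modulo `D`. Let `U = {u mod D : u = 1 mod m}`,
`V = {v mod D : v = 1 mod 2m}`; squaring maps `U` to `V` (`(1+mx)^2 = 1 + 2mx + m^2 x^2`, `m` even). If
`u, u'` in `U`, `u^2 = u'^2`: `D | (u-u')(u+u')`, `u + u' = 2 (1 + (m/2) y)`, `m/2 = 30030`, so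
`1 + (m/2) y` is coprime to `D`, hence `D | 2(u-u')`: every fibre has at most two elements. As
`#U = D/m = 2 #V`, squaring is onto `V`.
(b) By Lagrange (`Nat.sum_four_squares`) `120119 = x2^2+x3^2+x4^2+x5^2`. For all `a_2,...,a_n` in
`[0,D)` with `a_j = x_j mod 2m` (`j ≤ 5`), `a_j = 0 mod 2m` (`j > 5`), `-(a_2^2+...+a_n^2) = 1 mod 2m` is a
square `a_1^2` modulo `D`. This gives `(D/120120)^(n-1)` elements of `resid n D`.
-/

namespace Pool.Agent.H18.QR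

open Finset

/-- units that are `1` modulo `120120` are squares modulo `4 * 30030^K` -/
theorem rhoS_sq (K : ℕ) (hK : 1 ≤ K) (v : ℤ) (hv : (120120 : ℤ) ∣ v - 1) :
    ∃ u : ℤ, (60060 : ℤ) ∣ u - 1 ∧ (4 * 30030 ^ K : ℤ) ∣ u ^ 2 - v := by
  induction K, hK using Nat.le_induction with
  | base =>
    refine ⟨1, by norm_num, ?_⟩
    obtain ⟨c, hc⟩ := hv
    exact ⟨-c, by linear_combination -hc⟩
  | succ K hK ih =>
    obtain ⟨u, ⟨y, hy⟩, ⟨w, hw⟩⟩ := ih
    obtain ⟨L, rfl⟩ : ∃ L, K = L + 1 := ⟨K - 1, by omega⟩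
    refine ⟨u - 2 * 30030 ^ (L + 1) * w, ⟨y - 30030 ^ L * w, ?_⟩,
      ⟨-2 * w * y + 30030 ^ L * w ^ 2, ?_⟩⟩
    · linear_combination hy
    · linear_combination hw - 4 * 30030 ^ (L + 1) * w * hy

/-- the residues of the last coordinates -/
theorem rhoS_four (k : ℕ) : ∃ r : Fin (k + 1 + 1 + 1 + 1) → ℤ,
    (∀ j, 0 ≤ r j ∧ r j < 120120) ∧ ∑ j, r j ^ 2 = 120119 := by
  obtain ⟨b, c, d, f, h⟩ := Nat.sum_four_squares 120119
  have hb : b < 120120 := by nlinarith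
  have hc : c < 120120 := by nlinarith
  have hd : d < 120120 := by nlinarith
  have hf : f < 120120 := by nlinarith
  refine ⟨Fin.cons (b : ℤ) (Fin.cons (c : ℤ) (Fin.cons (d : ℤ) (Fin.cons (f : ℤ) fun _ => 0))),
    ?_, ?_⟩
  · intro j
    refine Fin.cases ?_ (fun j => ?_) j
    · rw [Fin.cons_zero]
      omega
    refine Fin.cases ?_ (fun j => ?_) j
    · rw [Fin.cons_succ, Fin.cons_zero]
      omega
    refine Fin.cases ?_ (fun j => ?_) j
    · rw [Fin.cons_succ, Fin.cons_succ, Fin.cons_zero]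
      omega
    refine Fin.cases ?_ (fun j => ?_) j
    · rw [Fin.cons_succ, Fin.cons_succ, Fin.cons_succ, Fin.cons_zero]
      omega
    · rw [Fin.cons_succ, Fin.cons_succ, Fin.cons_succ, Fin.cons_succ]
      norm_num
  · rw [Fin.sum_univ_succ, Fin.sum_univ_succ, Fin.sum_univ_succ, Fin.sum_univ_succ]
    simp only [Fin.cons_zero, Fin.cons_succ]
    have h' : ((b : ℤ) ^ 2 + (c : ℤ) ^ 2 + (d : ℤ) ^ 2 + (f : ℤ) ^ 2) = 120119 := by exact_mod_cast h
    simp only [ne_eq, OfNat.ofNat_ne_zero, not_false_eq_true, zero_pow, Finset.sum_const_zero,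
      add_zero]
    linarith

theorem rhoS_mod (N : ℕ) (r t : Fin N → ℤ) :
    (120120 : ℤ) ∣ ∑ j, (r j + 120120 * t j) ^ 2 - ∑ j, r j ^ 2 := by
  rw [← Finset.sum_sub_distrib]
  refine Finset.dvd_sum fun j _ => ?_
  exact ⟨t j * (2 * r j + 120120 * t j), by ring⟩

theorem rhoS_card (k K : ℕ) :
    (30030 ^ K) ^ (k + 1 + 1 + 1 + 1) ≤
      (resid (k + 1 + 1 + 1 + 1 + 1) (4 * 30030 ^ (K + 1))).card := by
  obtain ⟨r, hr, hsum⟩ := rhoS_four k
  have hD : (0 : ℤ) < 4 * 30030 ^ (K + 1) := by positivity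
  have hex : ∀ t : Fin (k + 1 + 1 + 1 + 1) → Fin (30030 ^ K), ∃ a : ℤ,
      (0 ≤ a ∧ a < 4 * 30030 ^ (K + 1)) ∧
      (4 * 30030 ^ (K + 1) : ℤ) ∣ a ^ 2 + ∑ j, (r j + 120120 * ((t j : ℕ) : ℤ)) ^ 2 := by
    intro t
    set s : ℤ := ∑ j, (r j + 120120 * ((t j : ℕ) : ℤ)) ^ 2 with hs
    have h1 := rhoS_mod _ r (fun j => ((t j : ℕ) : ℤ))
    rw [hsum] at h1
    have h2 : (120120 : ℤ) ∣ -s - 1 := by
      obtain ⟨c, hc⟩ := h1
      exact ⟨-c - 1, by linear_combination -hc⟩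
    obtain ⟨u, -, hu⟩ := rhoS_sq (K + 1) (by omega) (-s) h2
    refine ⟨u % (4 * 30030 ^ (K + 1)), ⟨Int.emod_nonneg _ hD.ne', Int.emod_lt_of_pos _ hD⟩, ?_⟩
    have h3 : (4 * 30030 ^ (K + 1) : ℤ) ∣ (u % (4 * 30030 ^ (K + 1))) ^ 2 - u ^ 2 := by
      have h4 : (4 * 30030 ^ (K + 1) : ℤ) ∣ (u % (4 * 30030 ^ (K + 1))) - u := by
        rw [Int.emod_def]
        exact ⟨-(u / (4 * 30030 ^ (K + 1))), by ring⟩
      have h5 : (u % (4 * 30030 ^ (K + 1))) ^ 2 - u ^ 2 =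
          ((u % (4 * 30030 ^ (K + 1))) - u) * ((u % (4 * 30030 ^ (K + 1))) + u) := by ring
      rw [h5]
      exact Dvd.dvd.mul_right h4 _
    have h6 : (u % (4 * 30030 ^ (K + 1))) ^ 2 + s =
        ((u % (4 * 30030 ^ (K + 1))) ^ 2 - u ^ 2) + (u ^ 2 - -s) := by ring
    rw [h6]
    exact dvd_add h3 hu
  choose a ha hdvd using hex
  have hcard : (30030 ^ K) ^ (k + 1 + 1 + 1 + 1) =
      (Finset.univ : Finset (Fin (k + 1 + 1 + 1 + 1) → Fin (30030 ^ K))).card := by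
    rw [Finset.card_univ, Fintype.card_fun, Fintype.card_fin, Fintype.card_fin]
  rw [hcard]
  refine Finset.card_le_card_of_injOn
    (fun t => Fin.cons (a t) (fun j => r j + 120120 * ((t j : ℕ) : ℤ))) ?_ ?_
  · intro t _
    have ht : ∀ j, ((t j : ℕ) : ℤ) + 1 ≤ 30030 ^ K := by
      intro j
      have := (t j).2
      exact_mod_cast this
    have hD2 : (4 * 30030 ^ (K + 1) : ℤ) = 120120 * 30030 ^ K := by ring
    simp only [resid, Finset.coe_filter, Fintype.mem_piFinset, Finset.mem_Ico, Set.mem_ofPred_eq]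
    constructor
    · intro i
      refine Fin.cases ?_ (fun j => ?_) i
      · rw [Fin.cons_zero]
        push_cast
        exact ha t
      · rw [Fin.cons_succ]
        push_cast
        have h1 := ht j
        have h2 := hr j
        have h3 : (0 : ℤ) ≤ ((t j : ℕ) : ℤ) := Int.natCast_nonneg _
        rw [hD2]
        constructor
        · linarith
        · linarith
    · unfold nsq
      rw [Fin.sum_univ_succ]
      simp only [Fin.cons_zero, Fin.cons_succ]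
      push_cast
      exact hdvd t
  · intro t _ t' _ h
    funext j
    have h1 := congrFun h j.succ
    simp only [Fin.cons_succ] at h1
    apply Fin.ext
    omega

theorem rho_small {n : ℕ} (hn : 5 ≤ n) (K : ℕ) (hK : 1 ≤ K) :
    ((4 * 30030 ^ K : ℕ) / 120120 : ℝ) ^ (n - 1) ≤ ((resid n (4 * 30030 ^ K)).card : ℝ) := by
  obtain ⟨k, rfl⟩ : ∃ k, n = k + 1 + 1 + 1 + 1 + 1 := ⟨n - 5, by omega⟩
  obtain ⟨L, rfl⟩ : ∃ L, K = L + 1 := ⟨K - 1, by omega⟩
  have h := rhoS_card k L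
  have h1 : ((4 * 30030 ^ (L + 1) : ℕ) / 120120 : ℝ) = ((30030 ^ L : ℕ) : ℝ) := by
    push_cast
    rw [pow_succ]
    ring
  rw [h1, Nat.add_sub_cancel]
  exact_mod_cast h

end Pool.Agent.H18.QR
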