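import Pool.Agent.H18.QR.Comp

/-!
# QR-17: spheres near the unit sphere carry little correlation

Apply `comparison` with `ε' = ε exp(-π)`. Let `N ≠ M^2` (otherwise all `pt M a`, `a` in `sph n N`, are
unit vectors and the sum is `0`). Take `S = sph n (M^2) ∪ sph n N` (disjoint) and
`c a = exp(-π)` if `nsq a = M^2`, `c a = - exp(-π N/M^2)` otherwise. Then
`sum_{a in S} c_a e(a.θ) = exp(-π) TN (M^2) θ - exp(-πN/M^2) TN N θ` has norm `≤ ε' M^n/M^2` (`D | M^2 - N`,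
`|M^2 - N| ≤ η₀ M^2`), so `A.herg` gives
`| exp(-π) * 0 - exp(-π N/M^2) * sum_{a in sph n N} inner (T (a/M) f) f | ≤ ε' (M^n/M^2) ‖f‖^2`
and `exp(-π N/M^2) ≥ exp(-π)` since `N ≤ M^2`.
-/

namespace Pool.Agent.H18.QR

open Finset

theorem mem_sph_nsq {n N : ℕ} {a : Fin n → ℤ} (h : a ∈ sph n N) : nsq a = N := by
  unfold sph at h
  exact (Finset.mem_filter.mp h).2

theorem inner_zero_of_sph {n : ℕ} {H : Type} [SeminormedAddCommGroup H] [InnerProductSpace ℝ H]
    (A : Act n H) (f : H) {M : ℕ} (hM : 0 < M)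
    (h1 : ∀ v : Fin n → ℚ, ∑ i, v i ^ 2 = 1 → inner ℝ (A.T v f) f = 0)
    {a : Fin n → ℤ} (ha : a ∈ sph n (M ^ 2)) : inner ℝ (A.T (pt M a) f) f = 0 := by
  apply h1
  have h2 := mem_sph_nsq ha
  unfold nsq at h2
  have h3 : (∑ i, (a i : ℚ) ^ 2) = (M : ℚ) ^ 2 := by exact_mod_cast h2
  unfold pt
  have hM' : (M : ℚ) ≠ 0 := by exact_mod_cast hM.ne'
  simp only [div_pow]
  rw [← Finset.sum_div, h3, div_self (pow_ne_zero 2 hM')]

theorem sphere_small {n : ℕ} (hn : 5 ≤ n) (ε : ℝ) (hε : 0 < ε) :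
    ∃ (Q : ℕ) (η₀ : ℝ), 0 < Q ∧ 0 < η₀ ∧ ∀ (M D N : ℕ), 0 < M →
      (∀ q : ℕ, 0 < q → q ≤ Q → q ∣ D) → D ∣ M → D ∣ N → N ≤ M ^ 2 →
      (M : ℝ) ^ 2 - N ≤ η₀ * (M : ℝ) ^ 2 →
      ∀ (H : Type) [SeminormedAddCommGroup H] [InnerProductSpace ℝ H] (A : Act n H) (f : H),
        ‖f‖ ≤ 1 → (∀ v : Fin n → ℚ, ∑ i, v i ^ 2 = 1 → inner ℝ (A.T v f) f = 0) →
        ∑ a ∈ sph n N, inner ℝ (A.T (pt M a) f) f ≤ ε * ((M : ℝ) ^ n / (M : ℝ) ^ 2) := by
  obtain ⟨Q, η₀, hQ, hη, hcomp⟩ := comparison hn (ε * Real.exp (-Real.pi))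
    (mul_pos hε (Real.exp_pos _))
  refine ⟨Q, η₀, hQ, hη, ?_⟩
  intro M D N hM hD hDM hDN hNM hNM' H _ _ A f hf h1
  have hMr : (0 : ℝ) < M := by exact_mod_cast hM
  have hMp : (0 : ℝ) ≤ (M : ℝ) ^ n / (M : ℝ) ^ 2 := by positivity
  by_cases hN : N = M ^ 2
  · subst hN
    rw [Finset.sum_eq_zero]
    · positivity
    · intro a ha
      exact inner_zero_of_sph A f hM h1 ha
  · have hdisj : Disjoint (sph n (M ^ 2)) (sph n N) := by
      rw [Finset.disjoint_left]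
      intro a ha hb
      apply hN
      have e1 := mem_sph_nsq ha
      have e2 := mem_sph_nsq hb
      rw [e1] at e2
      exact_mod_cast e2.symm
    set c : (Fin n → ℤ) → ℝ := fun a => if nsq a = ((M ^ 2 : ℕ) : ℤ) then Real.exp (-Real.pi)
      else -Real.exp (-Real.pi * N / (M : ℝ) ^ 2) with hc
    have hc1 : ∀ a ∈ sph n (M ^ 2), c a = Real.exp (-Real.pi) := by
      intro a ha
      rw [hc]
      simp only
      rw [if_pos (mem_sph_nsq ha)]
    have hc2 : ∀ a ∈ sph n N, c a = -Real.exp (-Real.pi * N / (M : ℝ) ^ 2) := by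
      intro a ha
      rw [hc]
      simp only
      rw [if_neg]
      rw [mem_sph_nsq ha]
      exact_mod_cast hN
    have hexp : Real.exp (-Real.pi * ((M ^ 2 : ℕ) : ℝ) / (M : ℝ) ^ 2) = Real.exp (-Real.pi) := by
      congr 1
      push_cast
      field_simp
    have hbound : ∀ θ : Fin n → ℝ, ‖∑ a ∈ sph n (M ^ 2) ∪ sph n N, (c a : ℂ) * e (dotR a θ)‖ ≤
        (ε * Real.exp (-Real.pi)) * ((M : ℝ) ^ n / (M : ℝ) ^ 2) := by
      intro θ
      have h := hcomp M D (M ^ 2) N θ hM hD (by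
        have h2 : (D : ℤ) ∣ ((M ^ 2 : ℕ) : ℤ) := by
          exact_mod_cast (hDM.trans (dvd_pow_self M two_ne_zero))
        exact dvd_sub h2 (by exact_mod_cast hDN)) (by
        have h3 : (N : ℝ) ≤ (M : ℝ) ^ 2 := by exact_mod_cast hNM
        rw [abs_of_nonneg]
        · push_cast
          exact hNM'
        · push_cast
          linarith)
      rw [hexp] at h
      refine le_trans (le_of_eq ?_) h
      congr 1
      rw [Finset.sum_union hdisj]
      unfold TN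
      rw [Finset.mul_sum, Finset.mul_sum, sub_eq_add_neg, ← Finset.sum_neg_distrib]
      congr 1
      · apply Finset.sum_congr rfl
        intro a ha
        rw [hc1 a ha]
      · apply Finset.sum_congr rfl
        intro a ha
        rw [hc2 a ha]
        push_cast
        ring
    have hh := A.herg M hM (sph n (M ^ 2) ∪ sph n N) c _ hbound f
    rw [Finset.sum_union hdisj] at hh
    have hz : ∑ a ∈ sph n (M ^ 2), c a * inner ℝ (A.T (pt M a) f) f = 0 := by
      apply Finset.sum_eq_zero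
      intro a ha
      rw [inner_zero_of_sph A f hM h1 ha, mul_zero]
    have hs : ∑ a ∈ sph n N, c a * inner ℝ (A.T (pt M a) f) f =
        -Real.exp (-Real.pi * N / (M : ℝ) ^ 2) * ∑ a ∈ sph n N, inner ℝ (A.T (pt M a) f) f := by
      rw [Finset.mul_sum]
      apply Finset.sum_congr rfl
      intro a ha
      rw [hc2 a ha]
    rw [hz, hs, zero_add] at hh
    set S := ∑ a ∈ sph n N, inner ℝ (A.T (pt M a) f) f with hS
    by_contra hcon
    push Not at hcon
    have hSpos : 0 < S := lt_of_le_of_lt (by positivity) hcon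
    have hE : Real.exp (-Real.pi) ≤ Real.exp (-Real.pi * N / (M : ℝ) ^ 2) := by
      apply Real.exp_le_exp.mpr
      have h3 : (N : ℝ) ≤ (M : ℝ) ^ 2 := by exact_mod_cast hNM
      have h4 : (N : ℝ) / (M : ℝ) ^ 2 ≤ 1 := by
        rw [div_le_one (by positivity)]
        exact h3
      have h5 : -Real.pi * N / (M : ℝ) ^ 2 = -(Real.pi * ((N : ℝ) / (M : ℝ) ^ 2)) := by ring
      rw [h5]
      have h6 : Real.pi * ((N : ℝ) / (M : ℝ) ^ 2) ≤ Real.pi * 1 :=
        mul_le_mul_of_nonneg_left h4 Real.pi_pos.le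
      linarith
    have hf2 : ‖f‖ ^ 2 ≤ 1 := by
      have h0 := norm_nonneg f
      nlinarith
    have h7 : Real.exp (-Real.pi * N / (M : ℝ) ^ 2) * S ≤
        (ε * Real.exp (-Real.pi)) * ((M : ℝ) ^ n / (M : ℝ) ^ 2) * ‖f‖ ^ 2 := by
      have h8 := (abs_le.mp hh).1
      linarith
    have h9 : (ε * Real.exp (-Real.pi)) * ((M : ℝ) ^ n / (M : ℝ) ^ 2) * ‖f‖ ^ 2 ≤
        (ε * Real.exp (-Real.pi)) * ((M : ℝ) ^ n / (M : ℝ) ^ 2) := by
      apply mul_le_of_le_one_right _ hf2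
      positivity
    have h10 : Real.exp (-Real.pi) * S ≤ Real.exp (-Real.pi * N / (M : ℝ) ^ 2) * S :=
      mul_le_mul_of_nonneg_right hE hSpos.le
    have h11 : Real.exp (-Real.pi) * S ≤
        Real.exp (-Real.pi) * (ε * ((M : ℝ) ^ n / (M : ℝ) ^ 2)) := by
      calc Real.exp (-Real.pi) * S ≤ _ := h10
        _ ≤ _ := h7
        _ ≤ _ := h9
        _ = _ := by ring
    have h12 := le_of_mul_le_mul_left h11 (Real.exp_pos _)
    linarith

end Pool.Agent.H18.QR
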