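import Pool.Agent.H18.QR.Defs

/-!
# QR-02: transformation formula of the theta sum at a rational number

Put `z = 1/M^2 - 2 β I` (real part positive). Since `e(r a^2/q)` depends only on `a` modulo `q`,
split the sum over `a` by `a = s + q m`, `0 ≤ s < q`:
`th M (r/q+β) θ = sum_s e(r s^2/q) sum_m exp(-π z (s+qm)^2 + 2 π I θ (s+qm))`.
Apply Mathlib `Complex.tsum_exp_neg_quadratic` with `a = z q^2`, `b = -z s q + I θ q` to the inner
sum. One finds `(1/(q z^(1/2))) * sum_l exp(-π (l/q - θ)^2 / z) e(s l / q)`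
(`(z q^2)^(1/2) = z^(1/2) q`, e.g. by `Complex.mul_cpow_ofReal_nonneg`). Interchange the finite
sum over `s` with the sum over `l` (everything is absolutely summable; summability of Gaussians
over `Z`: e.g. `summable_exp_mul_sq`, `Summable` lemmas of `jacobiTheta`, or comparison).
-/

namespace Pool.Agent.H18.QR

open Finset

/-- `(q^2 z)^(1/2) = q z^(1/2)` -/
lemma tht_sqrt {q : ℕ} (hq : 0 < q) {z : ℂ} (hz : z ≠ 0) :
    (z * (q : ℂ) ^ 2) ^ (1 / 2 : ℂ) = (q : ℂ) * z ^ (1 / 2 : ℂ) := by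
  have hq' : (0 : ℝ) < (q : ℝ) ^ 2 := by positivity
  have hqr : (0 : ℝ) < (q : ℝ) := by positivity
  have h1 : z * (q : ℂ) ^ 2 = (((q : ℝ) ^ 2 : ℝ) : ℂ) * z := by push_cast; ring
  have h2 : (((q : ℝ) ^ 2 : ℝ) : ℂ) * z ≠ 0 :=
    mul_ne_zero (Complex.ofReal_ne_zero.2 hq'.ne') hz
  rw [h1, Complex.cpow_def_of_ne_zero h2, Complex.cpow_def_of_ne_zero hz,
    Complex.log_ofReal_mul hq' hz, add_mul, Complex.exp_add]
  congr 1
  rw [Real.log_pow]
  push_cast
  have h3 : (2 : ℂ) * Complex.log q * (1 / 2) = Complex.log q := by ring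
  have hq0 : (q : ℂ) ≠ 0 := Nat.cast_ne_zero.2 hq.ne'
  rw [h3, Complex.exp_log hq0]

/-- summability of the Gaussians -/
lemma tht_summable (w τ c : ℂ) (hτ : 0 < τ.im) :
    Summable fun n : ℤ => Complex.exp (2 * Real.pi * Complex.I * n * w +
      Real.pi * Complex.I * n ^ 2 * τ + c) := by
  have h := (summable_jacobiTheta₂_term_iff w τ).2 hτ
  have h2 := h.mul_right (Complex.exp c)
  refine h2.congr fun n => ?_
  unfold jacobiTheta₂_term
  rw [← Complex.exp_add]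

/-- splitting the integers into residue classes modulo `q` -/
lemma tht_split {q : ℕ} (hq : 0 < q) (F : ℤ → ℂ) (hF : Summable F) :
    ∑' a : ℤ, F a = ∑ s ∈ range q, ∑' m : ℤ, F (s + q * m) := by
  haveI : NeZero q := ⟨hq.ne'⟩
  let E : Fin q × ℤ ≃ ℤ := (Equiv.prodComm (Fin q) ℤ).trans (Int.divModEquiv q).symm
  have hE : ∀ p : Fin q × ℤ, E p = (p.1 : ℤ) + q * p.2 := by
    intro p
    simp only [E, Equiv.trans_apply, Equiv.prodComm_apply, Int.divModEquiv_symm_apply,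
      Prod.swap]
    ring
  have h1 : Summable (fun p : Fin q × ℤ => F (E p)) := E.summable_iff.2 hF
  rw [← E.tsum_eq, h1.tsum_prod, tsum_fintype, Finset.sum_range]
  refine Finset.sum_congr rfl fun s _ => ?_
  refine tsum_congr fun m => ?_
  rw [hE]

lemma tht_e_int (k : ℤ) (x : ℝ) : e (x + k) = e x := by
  unfold e
  rw [Complex.exp_eq_exp_iff_exists_int]
  exact ⟨k, by push_cast; ring⟩

/-- the inner sum -/
lemma tht_inner {q : ℕ} (hq : 0 < q) {z : ℂ} (hz : 0 < z.re) (θ : ℝ) (s : ℕ) :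
    ∑' m : ℤ, Complex.exp (-(Real.pi : ℂ) * z * ((s : ℂ) + q * m) ^ 2 +
      2 * Real.pi * Complex.I * (θ * ((s : ℂ) + q * m))) =
    1 / ((q : ℂ) * z ^ (1 / 2 : ℂ)) * ∑' l : ℤ, e ((l : ℝ) * s / q) *
      Complex.exp (-(Real.pi : ℂ) * ((l : ℂ) / q - θ) ^ 2 / z) := by
  have hz0 : z ≠ 0 := by
    intro h
    rw [h] at hz
    simp at hz
  have hq0 : (q : ℂ) ≠ 0 := Nat.cast_ne_zero.2 hq.ne'
  have ha : 0 < (z * (q : ℂ) ^ 2).re := by
    have h1 : z * (q : ℂ) ^ 2 = (((q : ℝ) ^ 2 : ℝ) : ℂ) * z := by push_cast; ring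
    rw [h1, Complex.re_ofReal_mul]
    positivity
  have key := Complex.tsum_exp_neg_quadratic ha (-z * s * q + Complex.I * θ * q)
  have h1 : ∀ m : ℤ, Complex.exp (-(Real.pi : ℂ) * z * ((s : ℂ) + q * m) ^ 2 +
      2 * Real.pi * Complex.I * (θ * ((s : ℂ) + q * m))) =
      Complex.exp (-(Real.pi : ℂ) * z * s ^ 2 + 2 * Real.pi * Complex.I * (θ * s)) *
      Complex.exp (-(Real.pi : ℂ) * (z * (q : ℂ) ^ 2) * m ^ 2 +
        2 * Real.pi * (-z * s * q + Complex.I * θ * q) * m) := by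
    intro m
    rw [← Complex.exp_add]
    congr 1
    ring
  simp only [h1]
  rw [tsum_mul_left, key, tht_sqrt hq hz0, ← mul_assoc, mul_comm (Complex.exp _) (1 / _),
    mul_assoc]
  congr 1
  rw [← tsum_mul_left]
  refine tsum_congr fun l => ?_
  unfold e
  rw [← Complex.exp_add, ← Complex.exp_add]
  congr 1
  have hI : Complex.I ^ 2 = -1 := Complex.I_sq
  have h5 : (l : ℂ) + Complex.I * (-z * s * q + Complex.I * θ * q) =
      (l - θ * q) - Complex.I * (z * s * q) := by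
    linear_combination ((θ : ℂ) * q) * hI
  rw [h5]
  push_cast
  field_simp
  ring_nf
  simp only [hI]
  ring

theorem th_transform {M q : ℕ} (hM : 0 < M) (hq : 0 < q) (r : ℤ) (β θ : ℝ) :
    th M ((r : ℝ) / q + β) θ =
      (1 / ((q : ℂ) * (1 / (M : ℂ) ^ 2 - 2 * β * Complex.I) ^ (1 / 2 : ℂ))) *
        ∑' l : ℤ, (∑ s ∈ range q, e (((r : ℝ) * (s : ℝ) ^ 2 + (l : ℝ) * s) / q)) *
          Complex.exp (-(Real.pi : ℂ) * ((l : ℂ) / q - θ) ^ 2 /
            (1 / (M : ℂ) ^ 2 - 2 * β * Complex.I)) := by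
  have hMr : (0 : ℝ) < M := by positivity
  have hqr : (0 : ℝ) < q := by positivity
  have hq0 : (q : ℂ) ≠ 0 := Nat.cast_ne_zero.2 hq.ne'
  have hM0 : (M : ℂ) ≠ 0 := Nat.cast_ne_zero.2 hM.ne'
  set z : ℂ := 1 / (M : ℂ) ^ 2 - 2 * β * Complex.I with hzdef
  have hzre : z.re = 1 / (M : ℝ) ^ 2 := by
    have h1 : z = ((1 / (M : ℝ) ^ 2 : ℝ) : ℂ) + ((-(2 * β) : ℝ) : ℂ) * Complex.I := by
      rw [hzdef]; push_cast; ring
    rw [h1, Complex.add_re, Complex.ofReal_re, Complex.re_ofReal_mul, Complex.I_re]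
    ring
  have hz : 0 < z.re := by rw [hzre]; positivity
  have hz0 : z ≠ 0 := by
    intro h
    rw [h] at hz
    simp at hz
  unfold th
  -- summability of the left side
  have hsum : Summable fun a : ℤ => Complex.exp (-(Real.pi : ℂ) * (a : ℂ) ^ 2 / (M : ℂ) ^ 2 +
      2 * Real.pi * Complex.I * (((r : ℝ) / q + β : ℝ) * (a : ℂ) ^ 2 + θ * a)) := by
    have h1 := tht_summable (θ : ℂ) (((1 / (M : ℝ) ^ 2 : ℝ) : ℂ) * Complex.I +
      ((2 * ((r : ℝ) / q + β) : ℝ) : ℂ)) 0 (by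
        rw [Complex.add_im, Complex.im_ofReal_mul, Complex.I_im, Complex.ofReal_im]
        have : (0 : ℝ) < 1 / (M : ℝ) ^ 2 := by positivity
        linarith)
    refine h1.congr fun a => ?_
    congr 1
    push_cast
    have hI : Complex.I * Complex.I = -1 := Complex.I_mul_I
    linear_combination ((Real.pi : ℂ) * (a : ℂ) ^ 2 / (M : ℂ) ^ 2) * hI
  rw [tht_split hq _ hsum]
  -- the residue classes
  have h2 : ∀ s ∈ range q, ∑' m : ℤ, Complex.exp (-(Real.pi : ℂ) * (((s : ℤ) + q * m : ℤ) : ℂ) ^ 2 /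
      (M : ℂ) ^ 2 + 2 * Real.pi * Complex.I * ((((r : ℝ) / q + β : ℝ) : ℂ) *
        (((s : ℤ) + q * m : ℤ) : ℂ) ^ 2 + θ * (((s : ℤ) + q * m : ℤ) : ℂ))) =
      1 / ((q : ℂ) * z ^ (1 / 2 : ℂ)) * ∑' l : ℤ,
        e (((r : ℝ) * (s : ℝ) ^ 2 + (l : ℝ) * s) / q) *
          Complex.exp (-(Real.pi : ℂ) * ((l : ℂ) / q - θ) ^ 2 / z) := by
    intro s _
    have h3 : ∀ m : ℤ, Complex.exp (-(Real.pi : ℂ) * (((s : ℤ) + q * m : ℤ) : ℂ) ^ 2 /
      (M : ℂ) ^ 2 + 2 * Real.pi * Complex.I * ((((r : ℝ) / q + β : ℝ) : ℂ) *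
        (((s : ℤ) + q * m : ℤ) : ℂ) ^ 2 + θ * (((s : ℤ) + q * m : ℤ) : ℂ))) =
        e ((r : ℝ) * (s : ℝ) ^ 2 / q) * Complex.exp (-(Real.pi : ℂ) * z * ((s : ℂ) + q * m) ^ 2 +
          2 * Real.pi * Complex.I * (θ * ((s : ℂ) + q * m))) := by
      intro m
      have h4 : e ((r : ℝ) * (s : ℝ) ^ 2 / q) =
          e ((r : ℝ) * ((s : ℝ) + q * m) ^ 2 / q) := by
        have h5 : (r : ℝ) * ((s : ℝ) + q * m) ^ 2 / q = (r : ℝ) * (s : ℝ) ^ 2 / q +
            ((r * (2 * s * m + q * m ^ 2) : ℤ) : ℝ) := by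
          push_cast
          field_simp
          ring
        rw [h5, tht_e_int]
      rw [h4]
      unfold e
      rw [← Complex.exp_add, hzdef]
      congr 1
      push_cast
      field_simp
      ring
    simp only [h3]
    rw [tsum_mul_left, tht_inner hq hz θ s, ← mul_assoc, mul_comm (e _) (1 / _), mul_assoc]
    congr 1
    rw [← tsum_mul_left]
    refine tsum_congr fun l => ?_
    rw [← mul_assoc]
    congr 1
    unfold e
    rw [← Complex.exp_add]
    congr 1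
    push_cast
    ring
  rw [Finset.sum_congr rfl h2, ← Finset.mul_sum]
  congr 1
  -- interchange
  have h6 : ∀ s ∈ range q, Summable fun l : ℤ => e (((r : ℝ) * (s : ℝ) ^ 2 + (l : ℝ) * s) / q) *
      Complex.exp (-(Real.pi : ℂ) * ((l : ℂ) / q - θ) ^ 2 / z) := by
    intro s _
    have hτ : 0 < (Complex.I / (z * (q : ℂ) ^ 2)).im := by
      have h1 : Complex.I / (z * (q : ℂ) ^ 2) = ((1 / (q : ℝ) ^ 2 : ℝ) : ℂ) * (Complex.I * z⁻¹) := by
        push_cast
        field_simp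
      rw [h1, Complex.im_ofReal_mul, Complex.I_mul_im, Complex.inv_re]
      have : 0 < Complex.normSq z := Complex.normSq_pos.2 hz0
      positivity
    have h1 := tht_summable ((s : ℂ) / q - Complex.I * θ / (q * z)) (Complex.I / (z * (q : ℂ) ^ 2))
      (2 * Real.pi * Complex.I * (r * (s : ℂ) ^ 2 / q) - Real.pi * θ ^ 2 / z) hτ
    refine h1.congr fun l => ?_
    unfold e
    rw [← Complex.exp_add]
    congr 1
    have hI : Complex.I ^ 2 = -1 := Complex.I_sq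
    push_cast
    field_simp
    ring_nf
    simp only [hI]
    ring
  rw [← Summable.tsum_finsetSum h6]
  refine tsum_congr fun l => ?_
  rw [Finset.sum_mul]

end Pool.Agent.H18.QR
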