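import Pool.Agent.H18.QR.Gauss
import Pool.Agent.H18.QR.ThT

/-!
# QR-03: upper bound of the theta sum on Farey arcs

Take norms in `th_transform`: with `z = 1/M^2 - 2 β I`,
`|th| ≤ (1/(q |z|^(1/2))) * sqrt(2q) * sum_l exp(-π (l - qθ)^2 Re(1/z) / q^2)` by `gauss_bound`.
`|z|^2 = M^(-4) + 4 β^2`, `Re(1/z) = M^(-2)/|z|^2`. From `|β| ≤ 1/(qM)` and `q ≤ M`:
`|z|^2 ≤ 5/(q^2 M^2)`, hence `Re(1/z)/q^2 ≥ 1/5`, and
`sum_l exp(-(π/5) (l - x)^2) ≤ C0` for all real `x` (an absolute constant; e.g. at most two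
integers in each interval `[x+j, x+j+1]`, or `exp(-t) ≤ 1/(1+t)`-type bounds plus summability of
`1/(1+ (l-x)^2)`, uniformly in `x` by periodicity). Finally
`|z|^(-1/2) = M (1 + (2 β M^2)^2)^(-1/4)`.
-/

namespace Pool.Agent.H18.QR

open Finset

private theorem thb_summable {c : ℝ} (hc : 0 < c) :
    Summable (fun l : ℤ => Real.exp (-(c * (l : ℝ) ^ 2))) := by
  have hgeo : Summable (fun n : ℕ => Real.exp (-c) ^ n) :=
    summable_geometric_of_lt_one (Real.exp_pos _).le (by rw [← Real.exp_zero]; exact Real.exp_lt_exp.2 (by linarith))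
  have hn : ∀ n : ℕ, Real.exp (-(c * (n : ℝ) ^ 2)) ≤ Real.exp (-c) ^ n := by
    intro n
    rw [← Real.exp_nat_mul]
    apply Real.exp_le_exp.2
    have h1 : (n : ℝ) ≤ (n : ℝ) ^ 2 := by exact_mod_cast Nat.le_self_pow (by norm_num) n
    nlinarith
  have hnat : Summable (fun n : ℕ => Real.exp (-(c * (n : ℝ) ^ 2))) :=
    Summable.of_nonneg_of_le (fun n => (Real.exp_pos _).le) hn hgeo
  rw [summable_int_iff_summable_nat_and_neg]
  constructor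
  · simpa using hnat
  · simpa using hnat

/-- the sum of a translated Gaussian over the integers is bounded -/
private theorem thb_gauss : ∃ C : ℝ, 0 ≤ C ∧ ∀ x : ℝ,
    Summable (fun l : ℤ => Real.exp (-(Real.pi / 5 * ((l : ℝ) - x) ^ 2))) ∧
    ∑' l : ℤ, Real.exp (-(Real.pi / 5 * ((l : ℝ) - x) ^ 2)) ≤ C := by
  have hpi : 0 < Real.pi := Real.pi_pos
  have hs := thb_summable (c := Real.pi / 10) (by positivity)
  have hs' : Summable (fun l : ℤ => Real.exp (Real.pi / 5) *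
      Real.exp (-(Real.pi / 10 * (l : ℝ) ^ 2))) := hs.mul_left _
  refine ⟨∑' l : ℤ, Real.exp (Real.pi / 5) * Real.exp (-(Real.pi / 10 * (l : ℝ) ^ 2)),
    tsum_nonneg fun _ => by positivity, ?_⟩
  -- first for x in [0, 1]
  have key : ∀ x : ℝ, 0 ≤ x → x ≤ 1 →
      Summable (fun l : ℤ => Real.exp (-(Real.pi / 5 * ((l : ℝ) - x) ^ 2))) ∧
      ∑' l : ℤ, Real.exp (-(Real.pi / 5 * ((l : ℝ) - x) ^ 2)) ≤
        ∑' l : ℤ, Real.exp (Real.pi / 5) * Real.exp (-(Real.pi / 10 * (l : ℝ) ^ 2)) := by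
    intro x hx0 hx1
    have hle : ∀ l : ℤ, Real.exp (-(Real.pi / 5 * ((l : ℝ) - x) ^ 2)) ≤
        Real.exp (Real.pi / 5) * Real.exp (-(Real.pi / 10 * (l : ℝ) ^ 2)) := by
      intro l
      rw [← Real.exp_add]
      apply Real.exp_le_exp.2
      have h1 : (l : ℝ) ^ 2 ≤ 2 * ((l : ℝ) - x) ^ 2 + 2 := by
        nlinarith [sq_nonneg ((l : ℝ) - 2 * x)]
      nlinarith
    have hsum : Summable (fun l : ℤ => Real.exp (-(Real.pi / 5 * ((l : ℝ) - x) ^ 2))) :=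
      Summable.of_nonneg_of_le (fun l => (Real.exp_pos _).le) hle hs'
    exact ⟨hsum, hsum.tsum_le_tsum hle hs'⟩
  intro x
  obtain ⟨h1, h2⟩ := key (Int.fract x) (Int.fract_nonneg x) (Int.fract_lt_one x).le
  have e1 : ∀ l : ℤ, Real.exp (-(Real.pi / 5 * (((l + ⌊x⌋ : ℤ) : ℝ) - x) ^ 2)) =
      Real.exp (-(Real.pi / 5 * ((l : ℝ) - Int.fract x) ^ 2)) := by
    intro l
    congr 4
    have := Int.floor_add_fract x
    push_cast
    linarith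
  constructor
  · rw [← (Equiv.addRight ⌊x⌋).summable_iff]
    refine h1.congr fun l => ?_
    simp only [Function.comp, Equiv.coe_addRight]
    exact (e1 l).symm
  · rw [← (Equiv.addRight ⌊x⌋).tsum_eq]
    refine le_trans (le_of_eq ?_) h2
    refine tsum_congr fun l => ?_
    simp only [Equiv.coe_addRight]
    exact e1 l

theorem th_bound : ∃ C : ℝ, 1 ≤ C ∧ ∀ (M q : ℕ) (r : ℤ) (β θ : ℝ), 0 < M → 0 < q → q ≤ M →
    IsCoprime r (q : ℤ) → |β| ≤ 1 / ((q : ℝ) * M) →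
    ‖th M ((r : ℝ) / q + β) θ‖ ≤
      C * M / (Real.sqrt q * (1 + (2 * β * (M : ℝ) ^ 2) ^ 2) ^ (1 / 4 : ℝ)) := by
  obtain ⟨C0, hC0, hgs⟩ := thb_gauss
  refine ⟨1 + Real.sqrt 2 * C0, by have := Real.sqrt_nonneg 2; nlinarith, ?_⟩
  intro M q r β θ hM hq hqM hr hβ
  have hMr : (0 : ℝ) < M := by exact_mod_cast hM
  have hqr : (0 : ℝ) < q := by exact_mod_cast hq
  have hqMr : (q : ℝ) ≤ M := by exact_mod_cast hqM
  have hpi : 0 < Real.pi := Real.pi_pos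
  obtain ⟨z, hz⟩ : ∃ z : ℂ, z = 1 / (M : ℂ) ^ 2 - 2 * β * Complex.I := ⟨_, rfl⟩
  have hzre : z.re = 1 / (M : ℝ) ^ 2 := by
    rw [hz]
    have h1 : (1 / (M : ℂ) ^ 2) = ((1 / (M : ℝ) ^ 2 : ℝ) : ℂ) := by push_cast; ring
    have h2 : (2 * (β : ℂ) * Complex.I) = ((2 * β : ℝ) : ℂ) * Complex.I := by push_cast; ring
    rw [h1, h2, Complex.sub_re, Complex.ofReal_re, Complex.re_ofReal_mul, Complex.I_re]
    ring
  have hzim : z.im = -(2 * β) := by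
    rw [hz]
    have h1 : (1 / (M : ℂ) ^ 2) = ((1 / (M : ℝ) ^ 2 : ℝ) : ℂ) := by push_cast; ring
    have h2 : (2 * (β : ℂ) * Complex.I) = ((2 * β : ℝ) : ℂ) * Complex.I := by push_cast; ring
    rw [h1, h2, Complex.sub_im, Complex.ofReal_im, Complex.im_ofReal_mul, Complex.I_im]
    ring
  obtain ⟨u, hu⟩ : ∃ u : ℝ, u = 1 + (2 * β * (M : ℝ) ^ 2) ^ 2 := ⟨_, rfl⟩
  have hu1 : 1 ≤ u := by rw [hu]; nlinarith [sq_nonneg (2 * β * (M : ℝ) ^ 2)]
  have hu0 : 0 < u := by linarith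
  have hnsq : Complex.normSq z = u / (M : ℝ) ^ 4 := by
    rw [Complex.normSq_apply, hzre, hzim, hu]
    field_simp
  have hnorm : ‖z‖ = u ^ (1 / 2 : ℝ) / (M : ℝ) ^ 2 := by
    have h1 : ‖z‖ = Real.sqrt (Complex.normSq z) := rfl
    rw [h1, hnsq, Real.sqrt_div hu0.le, ← Real.sqrt_eq_rpow]
    congr 1
    rw [show (M : ℝ) ^ 4 = ((M : ℝ) ^ 2) ^ 2 by ring, Real.sqrt_sq (by positivity)]
  have hz0 : z ≠ 0 := by
    intro h
    rw [h] at hzre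
    have : (0 : ℝ) < 1 / (M : ℝ) ^ 2 := by positivity
    rw [← hzre] at this
    simp at this
  have hcp : ‖z ^ (1 / 2 : ℂ)‖ = u ^ (1 / 4 : ℝ) / M := by
    have h1 : (1 / 2 : ℂ) = ((1 / 2 : ℝ) : ℂ) := by push_cast; ring
    rw [h1, Complex.norm_cpow_real, hnorm, Real.div_rpow (by positivity) (by positivity),
      ← Real.rpow_mul hu0.le]
    congr 1
    · norm_num
    · rw [← Real.sqrt_eq_rpow, Real.sqrt_sq hMr.le]
  -- the quadratic exponent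
  have hw : (q : ℝ) ^ 2 / 5 ≤ z.re / Complex.normSq z := by
    rw [hzre, hnsq]
    have h1 : 1 / (M : ℝ) ^ 2 / (u / (M : ℝ) ^ 4) = (M : ℝ) ^ 2 / u := by
      field_simp
    rw [h1, div_le_div_iff₀ (by norm_num) hu0, hu]
    have hb : |β| * ((q : ℝ) * M) ≤ 1 := by
      rwa [le_div_iff₀ (by positivity)] at hβ
    have hb2 : β ^ 2 * ((q : ℝ) * M) ^ 2 ≤ 1 := by
      rw [← sq_abs β, ← mul_pow]
      exact pow_le_one₀ (by positivity) hb
    have hb3 : (q : ℝ) ^ 2 * (2 * β * (M : ℝ) ^ 2) ^ 2 = 4 * (M : ℝ) ^ 2 * (β ^ 2 * ((q : ℝ) * M) ^ 2) := by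
      ring
    have hb4 : (q : ℝ) ^ 2 ≤ (M : ℝ) ^ 2 := pow_le_pow_left₀ hqr.le hqMr 2
    have hb5 : 4 * (M : ℝ) ^ 2 * (β ^ 2 * ((q : ℝ) * M) ^ 2) ≤ 4 * (M : ℝ) ^ 2 * 1 :=
      mul_le_mul_of_nonneg_left hb2 (by positivity)
    nlinarith
  have hexp : ∀ l : ℤ, ‖Complex.exp (-(Real.pi : ℂ) * ((l : ℂ) / q - θ) ^ 2 / z)‖ ≤
      Real.exp (-(Real.pi / 5 * ((l : ℝ) - q * θ) ^ 2)) := by
    intro l
    rw [Complex.norm_exp]
    apply Real.exp_le_exp.2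
    have h1 : -(Real.pi : ℂ) * ((l : ℂ) / q - θ) ^ 2 / z =
        ((-(Real.pi * ((l : ℝ) / q - θ) ^ 2) : ℝ) : ℂ) * z⁻¹ := by
      rw [div_eq_mul_inv]
      push_cast
      ring
    rw [h1, Complex.re_ofReal_mul, Complex.inv_re]
    have h2 : Real.pi * ((l : ℝ) / q - θ) ^ 2 * ((q : ℝ) ^ 2 / 5) ≤
        Real.pi * ((l : ℝ) / q - θ) ^ 2 * (z.re / Complex.normSq z) :=
      mul_le_mul_of_nonneg_left hw (by positivity)
    have h3 : Real.pi * ((l : ℝ) / q - θ) ^ 2 * ((q : ℝ) ^ 2 / 5) =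
        Real.pi / 5 * ((l : ℝ) - q * θ) ^ 2 := by
      field_simp
    linarith
  have hG : ∀ l : ℤ, ‖∑ s ∈ range q, e (((r : ℝ) * (s : ℝ) ^ 2 + (l : ℝ) * s) / q)‖ ≤
      Real.sqrt (2 * q) := by
    intro l
    exact Real.le_sqrt_of_sq_le (gauss_bound hq hr l)
  obtain ⟨hsum, hle⟩ := hgs ((q : ℝ) * θ)
  have hmain : ‖∑' l : ℤ, (∑ s ∈ range q, e (((r : ℝ) * (s : ℝ) ^ 2 + (l : ℝ) * s) / q)) *
      Complex.exp (-(Real.pi : ℂ) * ((l : ℂ) / q - θ) ^ 2 / z)‖ ≤ Real.sqrt (2 * q) * C0 := by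
    have h1 : HasSum (fun l : ℤ => Real.sqrt (2 * q) *
        Real.exp (-(Real.pi / 5 * ((l : ℝ) - q * θ) ^ 2)))
        (Real.sqrt (2 * q) * ∑' l : ℤ, Real.exp (-(Real.pi / 5 * ((l : ℝ) - q * θ) ^ 2))) :=
      hsum.hasSum.mul_left _
    refine (tsum_of_norm_bounded h1 fun l => ?_).trans
      (mul_le_mul_of_nonneg_left hle (Real.sqrt_nonneg _))
    rw [norm_mul]
    exact mul_le_mul (hG l) (hexp l) (norm_nonneg _) (Real.sqrt_nonneg _)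
  rw [th_transform hM hq r β θ, ← hz, norm_mul, norm_div, norm_one, norm_mul, hcp,
    Complex.norm_natCast, ← hu]
  have hu4 : 0 < u ^ (1 / 4 : ℝ) := Real.rpow_pos_of_pos hu0 _
  have hsq : 0 < Real.sqrt q := Real.sqrt_pos.2 hqr
  have hqq : Real.sqrt q * Real.sqrt q = q := Real.mul_self_sqrt hqr.le
  calc 1 / ((q : ℝ) * (u ^ (1 / 4 : ℝ) / M)) * _
      ≤ 1 / ((q : ℝ) * (u ^ (1 / 4 : ℝ) / M)) * (Real.sqrt (2 * q) * C0) :=
        mul_le_mul_of_nonneg_left hmain (by positivity)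
    _ = Real.sqrt 2 * C0 * M / (Real.sqrt q * u ^ (1 / 4 : ℝ)) := by
        rw [Real.sqrt_mul (by norm_num)]
        rw [div_mul_eq_mul_div, one_mul, div_eq_div_iff (by positivity) (by positivity)]
        have : (q : ℝ) * (u ^ (1 / 4 : ℝ) / M) = Real.sqrt q * Real.sqrt q * (u ^ (1 / 4 : ℝ) / M) := by
          rw [hqq]
        rw [this]
        field_simp
    _ ≤ (1 + Real.sqrt 2 * C0) * M / (Real.sqrt q * u ^ (1 / 4 : ℝ)) := by
        gcongr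
        linarith

end Pool.Agent.H18.QR
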