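import Pool.Agent.H18.QR.Defs

/-!
# QR-04: summability and continuity of the theta sum

The terms of `th M α θ` have norm `exp(-π a^2/M^2)`, which is summable over `a : Z`; each term is
continuous in `α`, so the sum is continuous (`continuous_tsum`).
-/

namespace Pool.Agent.H18.QR

open Finset

theorem gauss_summable {M : ℕ} (hM : 0 < M) :
    Summable fun a : ℤ => Real.exp (-Real.pi * (a : ℝ) ^ 2 / (M : ℝ) ^ 2) := by
  have hM' : (0 : ℝ) < M := by exact_mod_cast hM
  have hT : (0 : ℝ) < 1 / (M : ℝ) ^ 2 := by positivity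
  have h := summable_pow_mul_jacobiTheta₂_term_bound 0 hT 0
  refine h.congr fun a => ?_
  simp only [pow_zero, one_mul, mul_zero, zero_mul, sub_zero]
  congr 1
  ring

theorem th_term_norm (M : ℕ) (α θ : ℝ) (a : ℤ) :
    ‖Complex.exp (-(Real.pi : ℂ) * (a : ℂ) ^ 2 / (M : ℂ) ^ 2 +
      2 * Real.pi * Complex.I * (α * (a : ℂ) ^ 2 + θ * a))‖ =
      Real.exp (-Real.pi * (a : ℝ) ^ 2 / (M : ℝ) ^ 2) := by
  have h : (-(Real.pi : ℂ) * (a : ℂ) ^ 2 / (M : ℂ) ^ 2 +
      2 * Real.pi * Complex.I * (α * (a : ℂ) ^ 2 + θ * a)) =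
      ((-Real.pi * (a : ℝ) ^ 2 / (M : ℝ) ^ 2 : ℝ) : ℂ) +
        ((2 * Real.pi * (α * (a : ℝ) ^ 2 + θ * a) : ℝ) : ℂ) * Complex.I := by
    push_cast
    ring
  rw [h, Complex.norm_exp, Complex.add_re, Complex.ofReal_re, Complex.re_ofReal_mul,
    Complex.I_re, mul_zero, add_zero]

theorem th_continuous {M : ℕ} (hM : 0 < M) (θ : ℝ) : Continuous fun α : ℝ => th M α θ := by
  unfold th
  refine continuous_tsum (fun a => ?_) (gauss_summable hM) (fun a α => (th_term_norm M α θ a).le)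
  fun_prop

end Pool.Agent.H18.QR
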