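import Pool.Agent.H18.QR.Defs

/-!
# QR-12: box averages in a unitary action of `Q^n`

Easy facts. `inner_T`: polarisation / `inner (T v f) g = inner (T v f) (T v (T (-v) g))` and isometry
(`T v` is linear and norm preserving, so it preserves inner products:
`LinearMap.norm_map_iff_inner_map_map`-type lemmas or the polarisation identity).
`norm_B_le`: triangle inequality, `card (box n R) = (2R+1)^n`. `B_shift`: the two sums differ only in
the points of the symmetric difference of the box and its translate by `b`, which has at most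
`2 n K (2R+1)^(n-1)` elements if all `|b i| ≤ K`. `B_tower`: average `B_shift` over the box of
`B L R` (`pt L b = pt (L*t) (t*b)`).
-/

namespace Pool.Agent.H18.QR

open Finset

variable {n : ℕ} {H : Type*} [SeminormedAddCommGroup H] [InnerProductSpace ℝ H]

theorem card_box (n R : ℕ) : (box n R).card = (2 * R + 1) ^ n := by
  unfold box
  rw [Fintype.card_piFinset]
  simp only [Int.card_Icc, Finset.prod_const, Finset.card_univ, Fintype.card_fin]
  congr 1
  omega

theorem tower_mem_box {n R : ℕ} {a : Fin n → ℤ} :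
    a ∈ box n R ↔ ∀ i, a i ∈ Finset.Icc (-(R : ℤ)) R := by
  unfold box
  rw [Fintype.mem_piFinset]

theorem inner_TT (A : Act n H) (v : Fin n → ℚ) (f g : H) :
    inner ℝ (A.T v f) (A.T v g) = inner ℝ f g := by
  rw [real_inner_eq_norm_add_mul_self_sub_norm_mul_self_sub_norm_mul_self_div_two,
    real_inner_eq_norm_add_mul_self_sub_norm_mul_self_sub_norm_mul_self_div_two,
    ← map_add, A.norm, A.norm, A.norm]

theorem inner_T (A : Act n H) (v : Fin n → ℚ) (f g : H) :
    inner ℝ (A.T v f) g = inner ℝ f (A.T (-v) g) := by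
  have h : A.T v (A.T (-v) g) = g := by
    rw [← A.add, add_neg_cancel, A.zero]
  calc inner ℝ (A.T v f) g = inner ℝ (A.T v f) (A.T v (A.T (-v) g)) := by rw [h]
    _ = _ := inner_TT A v f _

theorem T_comm (A : Act n H) (u v : Fin n → ℚ) (f : H) :
    A.T u (A.T v f) = A.T v (A.T u f) := by
  rw [← A.add, ← A.add, add_comm]

theorem B_apply (A : Act n H) (L R : ℕ) (f : H) :
    A.B L R f = (((2 * R + 1 : ℕ) : ℝ) ^ n)⁻¹ • ∑ b ∈ box n R, A.T (pt L b) f := by
  unfold Act.B
  rw [LinearMap.smul_apply, LinearMap.sum_apply]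

theorem T_B (A : Act n H) (v : Fin n → ℚ) (L R : ℕ) (f : H) :
    A.T v (A.B L R f) = A.B L R (A.T v f) := by
  rw [B_apply, B_apply, map_smul, map_sum]
  congr 1
  exact Finset.sum_congr rfl fun b _ => T_comm A _ _ _

theorem B_comm (A : Act n H) (L R L' R' : ℕ) (f : H) :
    A.B L R (A.B L' R' f) = A.B L' R' (A.B L R f) := by
  rw [B_apply A L R, B_apply A L R, map_smul, map_sum]
  congr 1
  exact Finset.sum_congr rfl fun b _ => T_B A _ _ _ _

theorem inner_B (A : Act n H) (L R : ℕ) (f g : H) :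
    inner ℝ (A.B L R f) g = inner ℝ f (A.B L R g) := by
  rw [B_apply, B_apply, inner_smul_left, inner_smul_right, sum_inner, inner_sum]
  simp only [conj_trivial]
  congr 1
  refine Finset.sum_bij' (fun b _ => -b) (fun b _ => -b) ?_ ?_ ?_ ?_ ?_
  · intro b hb
    rw [tower_mem_box] at hb ⊢
    intro i
    have := hb i
    rw [Finset.mem_Icc] at this ⊢
    rw [Pi.neg_apply]
    constructor <;> linarith [this.1, this.2]
  · intro b hb
    rw [tower_mem_box] at hb ⊢
    intro i
    have := hb i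
    rw [Finset.mem_Icc] at this ⊢
    rw [Pi.neg_apply]
    constructor <;> linarith [this.1, this.2]
  · intro b _
    exact neg_neg b
  · intro b _
    exact neg_neg b
  · intro b _
    rw [inner_T]
    congr 2
    congr 1
    funext i
    show -((b i : ℚ) / L) = (((-b) i : ℤ) : ℚ) / L
    rw [Pi.neg_apply]
    push_cast
    ring

theorem norm_B_le (A : Act n H) (L R : ℕ) (f : H) : ‖A.B L R f‖ ≤ ‖f‖ := by
  have hpos : (0 : ℝ) < ((2 * R + 1 : ℕ) : ℝ) ^ n := by positivity
  rw [B_apply, norm_smul, Real.norm_of_nonneg (by positivity)]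
  have h1 : ‖∑ b ∈ box n R, A.T (pt L b) f‖ ≤ ((2 * R + 1 : ℕ) : ℝ) ^ n * ‖f‖ := by
    refine (norm_sum_le _ _).trans (le_of_eq ?_)
    simp only [A.norm, Finset.sum_const, card_box, nsmul_eq_mul]
    push_cast
    ring
  calc (((2 * R + 1 : ℕ) : ℝ) ^ n)⁻¹ * ‖∑ b ∈ box n R, A.T (pt L b) f‖
      ≤ (((2 * R + 1 : ℕ) : ℝ) ^ n)⁻¹ * (((2 * R + 1 : ℕ) : ℝ) ^ n * ‖f‖) :=
        mul_le_mul_of_nonneg_left h1 (by positivity)
    _ = ‖f‖ := by rw [← mul_assoc, inv_mul_cancel₀ hpos.ne', one_mul]

theorem tower_card_one (R K : ℕ) (c : ℤ) (hc : |c| ≤ (K : ℤ)) :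
    ((Finset.Icc (-(R : ℤ)) R).filter fun z => z + c ∉ Finset.Icc (-(R : ℤ)) R).card ≤ K := by
  have h0 := abs_le.1 hc
  rcases le_or_gt 0 c with h | h
  · have hsub : ((Finset.Icc (-(R : ℤ)) R).filter fun z => z + c ∉ Finset.Icc (-(R : ℤ)) R) ⊆
        Finset.Ioc ((R : ℤ) - c) R := by
      intro z hz
      rw [Finset.mem_filter, Finset.mem_Icc, Finset.mem_Icc] at hz
      rw [Finset.mem_Ioc]
      omega
    refine (Finset.card_le_card hsub).trans ?_
    rw [Int.card_Ioc]
    omega
  · have hsub : ((Finset.Icc (-(R : ℤ)) R).filter fun z => z + c ∉ Finset.Icc (-(R : ℤ)) R) ⊆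
        Finset.Ico (-(R : ℤ)) (-(R : ℤ) - c) := by
      intro z hz
      rw [Finset.mem_filter, Finset.mem_Icc, Finset.mem_Icc] at hz
      rw [Finset.mem_Ico]
      omega
    refine (Finset.card_le_card hsub).trans ?_
    rw [Int.card_Ico]
    omega

theorem tower_card_shift (n R K : ℕ) (c : Fin n → ℤ) (hc : ∀ i, |c i| ≤ (K : ℤ)) :
    ((box n R).filter fun a => a + c ∉ box n R).card ≤ n * (K * (2 * R + 1) ^ (n - 1)) := by
  classical
  set E : Fin n → Finset ℤ := fun i =>
    (Finset.Icc (-(R : ℤ)) R).filter fun z => z + c i ∉ Finset.Icc (-(R : ℤ)) R with hE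
  have hsub : ((box n R).filter fun a => a + c ∉ box n R) ⊆
      (Finset.univ : Finset (Fin n)).biUnion fun i =>
        Fintype.piFinset (Function.update (fun _ => Finset.Icc (-(R : ℤ)) R) i (E i)) := by
    intro a ha
    rw [Finset.mem_filter, tower_mem_box, tower_mem_box] at ha
    obtain ⟨h1, h2⟩ := ha
    push Not at h2
    obtain ⟨i, hi⟩ := h2
    rw [Finset.mem_biUnion]
    refine ⟨i, Finset.mem_univ _, ?_⟩
    rw [Fintype.mem_piFinset]
    intro j
    by_cases hj : j = i
    · subst hj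
      rw [Function.update_self, hE]
      simp only [Finset.mem_filter]
      exact ⟨h1 j, hi⟩
    · rw [Function.update_of_ne hj]
      exact h1 j
  refine (Finset.card_le_card hsub).trans ?_
  refine (Finset.card_biUnion_le).trans ?_
  have h3 : ∀ i ∈ (Finset.univ : Finset (Fin n)),
      (Fintype.piFinset (Function.update (fun _ => Finset.Icc (-(R : ℤ)) R) i (E i))).card ≤
        K * (2 * R + 1) ^ (n - 1) := by
    intro i _
    rw [Fintype.card_piFinset]
    have h4 : ∀ j : Fin n, (Function.update (fun _ => Finset.Icc (-(R : ℤ)) (R : ℤ)) i (E i) j).card =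
        Function.update (fun _ => 2 * R + 1) i (E i).card j := by
      intro j
      by_cases hj : j = i
      · subst hj
        rw [Function.update_self, Function.update_self]
      · rw [Function.update_of_ne hj, Function.update_of_ne hj, Int.card_Icc]
        omega
    simp only [h4]
    rw [Finset.prod_update_of_mem (Finset.mem_univ i), Finset.prod_const,
      Finset.card_sdiff_of_subset (Finset.subset_univ _), Finset.card_univ, Fintype.card_fin,
      Finset.card_singleton]
    exact Nat.mul_le_mul_right _ (tower_card_one R K (c i) (hc i))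
  calc ∑ i : Fin n, (Fintype.piFinset
        (Function.update (fun _ => Finset.Icc (-(R : ℤ)) R) i (E i))).card
      ≤ ∑ _i : Fin n, K * (2 * R + 1) ^ (n - 1) := Finset.sum_le_sum h3
    _ = _ := by rw [Finset.sum_const, Finset.card_univ, Fintype.card_fin, smul_eq_mul]

theorem tower_pt_add (L : ℕ) (a b : Fin n → ℤ) : pt L a + pt L b = pt L (a + b) := by
  funext i
  show (a i : ℚ) / L + (b i : ℚ) / L = ((a + b) i : ℤ) / (L : ℚ)
  rw [Pi.add_apply]
  push_cast
  ring

theorem B_shift (A : Act n H) (L R K : ℕ) (b : Fin n → ℤ) (hb : ∀ i, |b i| ≤ (K : ℤ)) (f : H) :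
    ‖A.B L R (A.T (pt L b) f) - A.B L R f‖ ≤ 2 * n * K / (2 * R + 1) * ‖f‖ := by
  classical
  have hpos : (0 : ℝ) < ((2 * R + 1 : ℕ) : ℝ) ^ n := by positivity
  set F : (Fin n → ℤ) → H := fun a => A.T (pt L a) f with hF
  have hFn : ∀ a, ‖F a‖ = ‖f‖ := fun a => A.norm _ _
  have h1 : ∑ a ∈ box n R, A.T (pt L a) (A.T (pt L b) f) = ∑ a ∈ box n R, F (a + b) := by
    refine Finset.sum_congr rfl fun a _ => ?_
    rw [hF, ← A.add, tower_pt_add]
  have h2 : ∑ a ∈ (box n R).filter (fun a => a + b ∈ box n R), F (a + b) =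
      ∑ a ∈ (box n R).filter (fun a => a + (-b) ∈ box n R), F a := by
    refine Finset.sum_bij' (fun a _ => a + b) (fun a _ => a + (-b)) ?_ ?_ ?_ ?_ ?_
    · intro a ha
      rw [Finset.mem_filter] at ha ⊢
      refine ⟨ha.2, ?_⟩
      rw [add_neg_cancel_right]
      exact ha.1
    · intro a ha
      rw [Finset.mem_filter] at ha ⊢
      refine ⟨ha.2, ?_⟩
      rw [neg_add_cancel_right]
      exact ha.1
    · intro a _
      exact add_neg_cancel_right a b
    · intro a _
      exact neg_add_cancel_right a b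
    · intro a _
      rfl
  have h3 := Finset.sum_filter_add_sum_filter_not (box n R) (fun a => a + b ∈ box n R)
    (fun a => F (a + b))
  have h4 := Finset.sum_filter_add_sum_filter_not (box n R) (fun a => a + (-b) ∈ box n R) F
  have h5 : (∑ a ∈ box n R, F (a + b)) - ∑ a ∈ box n R, F a =
      (∑ a ∈ (box n R).filter (fun a => ¬ (a + b ∈ box n R)), F (a + b)) -
        ∑ a ∈ (box n R).filter (fun a => ¬ (a + (-b) ∈ box n R)), F a := by
    rw [← h3, ← h4, h2]
    abel
  have h6 : ‖∑ a ∈ (box n R).filter (fun a => ¬ (a + b ∈ box n R)), F (a + b)‖ ≤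
      ((n * (K * (2 * R + 1) ^ (n - 1)) : ℕ) : ℝ) * ‖f‖ := by
    refine (norm_sum_le _ _).trans ?_
    simp only [hFn, Finset.sum_const, nsmul_eq_mul]
    refine mul_le_mul_of_nonneg_right ?_ (norm_nonneg _)
    exact_mod_cast tower_card_shift n R K b hb
  have h7 : ‖∑ a ∈ (box n R).filter (fun a => ¬ (a + (-b) ∈ box n R)), F a‖ ≤
      ((n * (K * (2 * R + 1) ^ (n - 1)) : ℕ) : ℝ) * ‖f‖ := by
    refine (norm_sum_le _ _).trans ?_
    simp only [hFn, Finset.sum_const, nsmul_eq_mul]
    refine mul_le_mul_of_nonneg_right ?_ (norm_nonneg _)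
    exact_mod_cast tower_card_shift n R K (-b) (fun i => by rw [Pi.neg_apply, abs_neg]; exact hb i)
  rw [B_apply, B_apply, ← smul_sub, h1, h5, norm_smul, Real.norm_of_nonneg (by positivity)]
  have h8 : ‖(∑ a ∈ (box n R).filter (fun a => ¬ (a + b ∈ box n R)), F (a + b)) -
        ∑ a ∈ (box n R).filter (fun a => ¬ (a + (-b) ∈ box n R)), F a‖ ≤
      2 * (((n * (K * (2 * R + 1) ^ (n - 1)) : ℕ) : ℝ) * ‖f‖) := by
    refine (norm_sub_le _ _).trans ?_
    linarith
  refine (mul_le_mul_of_nonneg_left h8 (by positivity)).trans (le_of_eq ?_)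
  rcases n with _ | m
  · simp
  · have h9 : (0 : ℝ) < 2 * (R : ℝ) + 1 := by positivity
    rw [Nat.add_sub_cancel]
    push_cast
    field_simp
    ring

theorem B_tower (A : Act n H) (L t R R' : ℕ) (hL : 0 < L) (ht : 0 < t) (f : H) :
    ‖A.B (L * t) R' (A.B L R f) - A.B (L * t) R' f‖ ≤
      2 * n * (R * t) / (2 * R' + 1) * ‖f‖ := by
  have hpos : (0 : ℝ) < ((2 * R + 1 : ℕ) : ℝ) ^ n := by positivity
  have h1 : A.B (L * t) R' (A.B L R f) - A.B (L * t) R' f =
      (((2 * R + 1 : ℕ) : ℝ) ^ n)⁻¹ • ∑ b ∈ box n R,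
        (A.B (L * t) R' (A.T (pt (L * t) (fun i => (t : ℤ) * b i)) f) - A.B (L * t) R' f) := by
    rw [Finset.sum_sub_distrib, smul_sub, Finset.sum_const, card_box, ← Nat.cast_smul_eq_nsmul ℝ,
      smul_smul, Nat.cast_pow, inv_mul_cancel₀ hpos.ne', one_smul, B_apply A L R f, map_smul,
      map_sum]
    congr 3
    funext b
    congr 2
    congr 1
    funext i
    show (b i : ℚ) / L = (((t : ℤ) * b i : ℤ) : ℚ) / ((L * t : ℕ) : ℚ)
    have hL' : (L : ℚ) ≠ 0 := by exact_mod_cast hL.ne'
    have ht' : (t : ℚ) ≠ 0 := by exact_mod_cast ht.ne'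
    push_cast
    field_simp
  rw [h1, norm_smul, Real.norm_of_nonneg (by positivity)]
  have h2 : ‖∑ b ∈ box n R,
      (A.B (L * t) R' (A.T (pt (L * t) (fun i => (t : ℤ) * b i)) f) - A.B (L * t) R' f)‖ ≤
      ((2 * R + 1 : ℕ) : ℝ) ^ n * (2 * n * (R * t) / (2 * R' + 1) * ‖f‖) := by
    refine (norm_sum_le _ _).trans ?_
    have h3 : ∀ b ∈ box n R,
        ‖A.B (L * t) R' (A.T (pt (L * t) (fun i => (t : ℤ) * b i)) f) - A.B (L * t) R' f‖ ≤
          2 * n * (R * t) / (2 * R' + 1) * ‖f‖ := by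
      intro b hb
      rw [tower_mem_box] at hb
      have h4 := B_shift A (L * t) R' (R * t) (fun i => (t : ℤ) * b i) (fun i => by
        have h5 := Finset.mem_Icc.1 (hb i)
        have h6 : |b i| ≤ (R : ℤ) := abs_le.2 h5
        rw [abs_mul, Nat.abs_cast]
        push_cast
        have ht0 : (0 : ℤ) ≤ t := Int.natCast_nonneg t
        nlinarith) f
      refine h4.trans (le_of_eq ?_)
      push_cast
      ring
    refine (Finset.sum_le_sum h3).trans (le_of_eq ?_)
    rw [Finset.sum_const, card_box, nsmul_eq_mul, Nat.cast_pow]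
  refine (mul_le_mul_of_nonneg_left h2 (by positivity)).trans (le_of_eq ?_)
  rw [← mul_assoc, inv_mul_cancel₀ hpos.ne', one_mul]

end Pool.Agent.H18.QR
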